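import Pool.Agent.L5helper72.SG.RchP

/-!
# The two main theorems
-/

set_option autoImplicit false
set_option linter.all false

open scoped Classical

namespace Pool.Agent.L5helper72.SG

open Polynomial Pool.Agent.R431.SG Pool.Agent.Y713 Filter Topology

/-- the property `P` holds for 100 percent of the elements of the finite sets `S M` -/
def AlmostAll {T : Type} (S : ℕ → Finset T) (P : T → Prop) : Prop :=
  Tendsto (fun M => ((((S M).filter P).card : ℕ) : ℝ) / ((S M).card : ℝ)) atTop (𝓝 1)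

theorem Equi.nonempty {A I : Type} [CommRing A] [Fintype I] {S : ℕ → Finset (I → A)}
    (hS : Equi S) : ∀ᶠ M in atTop, (S M).Nonempty := by
  haveI : Subsingleton (A ⧸ (⊤ : Ideal A)) := Ideal.Quotient.subsingleton_iff.2 rfl
  have h1 := hS ⊤ ⟨inferInstance, fun _ x => ⟨0, Subsingleton.elim _ _⟩⟩ 0
  have h2 : (1 / (Nat.card (A ⧸ (⊤ : Ideal A)) : ℝ) ^ Fintype.card I) = 1 := by
    rw [Nat.card_of_subsingleton (0 : A ⧸ (⊤ : Ideal A))]
    simp
  rw [h2] at h1
  have h3 := h1.eventually_ne one_ne_zero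
  filter_upwards [h3] with M hM
  by_contra h4
  rw [Finset.not_nonempty_iff_eq_empty] at h4
  apply hM
  rw [h4]
  simp

theorem almostAll_of {A I : Type} [CommRing A] [Fintype I] {S : ℕ → Finset (I → A)}
    (hS : Equi S) {P : (I → A) → Prop}
    (h : ∀ η : ℝ, 0 < η → ∃ 𝔞 : Ideal A, Adm 𝔞 ∧ ∃ Z : Set (I → A ⧸ 𝔞),
      (Z.ncard : ℝ) ≤ η * (Nat.card (A ⧸ 𝔞) : ℝ) ^ Fintype.card I ∧
        ∀ c : I → A, ¬ P c → (fun i => Ideal.Quotient.mk 𝔞 (c i)) ∈ Z) :
    AlmostAll S P := by
  have h1 := equi_tendsto hS (bad := fun c => ¬ P c) h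
  have h2 := h1.const_sub 1
  rw [sub_zero] at h2
  refine h2.congr' ?_
  filter_upwards [hS.nonempty] with M hM
  have h3 : ((S M).card : ℝ) ≠ 0 := by
    exact_mod_cast hM.card_pos.ne'
  have h4 := Finset.card_filter_add_card_filter_not (s := S M) P
  have h6 : (S M).filter (fun c => ¬ P c) = @Finset.filter _ (fun c => ¬ P c)
      (fun c => Classical.propDecidable _) (S M) := by
    ext c
    simp
  rw [h6] at h4
  have h5 : ((((S M).filter P).card : ℕ) : ℝ) + (((@Finset.filter _ (fun c => ¬ P c)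
      (fun c => Classical.propDecidable _) (S M)).card : ℕ) : ℝ) = ((S M).card : ℝ) := by
    rw [← h4]
    push_cast
    rfl
  rw [eq_div_iff h3, sub_mul, one_mul, div_mul_cancel₀ _ h3]
  linarith

theorem AlmostAll.and {T : Type} {S : ℕ → Finset T} {P Q : T → Prop} (hP : AlmostAll S P)
    (hQ : AlmostAll S Q) (hS : ∀ᶠ M in atTop, (S M).Nonempty) :
    AlmostAll S fun c => P c ∧ Q c := by
  have h1 : Tendsto (fun M => ((((S M).filter P).card : ℕ) : ℝ) / ((S M).card : ℝ) +
      ((((S M).filter Q).card : ℕ) : ℝ) / ((S M).card : ℝ) - 1) atTop (𝓝 1) := by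
    have := (Tendsto.add hP hQ).sub_const 1
    rwa [add_sub_cancel_right] at this
  refine tendsto_of_tendsto_of_tendsto_of_le_of_le' h1 hP ?_ ?_
  · filter_upwards [hS] with M hM
    have hc : (0 : ℝ) < ((S M).card : ℝ) := by exact_mod_cast hM.card_pos
    have h2 := Finset.card_union_add_card_inter ((S M).filter P) ((S M).filter Q)
    have h3 : ((S M).filter P ∪ (S M).filter Q).card ≤ (S M).card :=
      Finset.card_le_card (Finset.union_subset (Finset.filter_subset _ _)
        (Finset.filter_subset _ _))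
    have h4 : (S M).filter P ∩ (S M).filter Q = @Finset.filter _ (fun c => P c ∧ Q c)
        (fun c => Classical.propDecidable _) (S M) := by
      ext c
      simp only [Finset.mem_inter, Finset.mem_filter]
      tauto
    rw [h4] at h2
    have h5 : (((S M).filter P).card : ℝ) + (((S M).filter Q).card : ℝ) ≤ ((S M).card : ℝ) +
        ((@Finset.filter _ (fun c => P c ∧ Q c)
        (fun c => Classical.propDecidable _) (S M)).card : ℝ) := by
      exact_mod_cast (by omega : ((S M).filter P).card + ((S M).filter Q).card ≤ (S M).card +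
        (@Finset.filter _ (fun c => P c ∧ Q c) (fun c => Classical.propDecidable _) (S M)).card)
    rw [← add_div, div_sub_one hc.ne']
    exact div_le_div_of_nonneg_right (by linarith) hc.le
  · refine Eventually.of_forall fun M => div_le_div_of_nonneg_right ?_ (Nat.cast_nonneg _)
    refine Nat.cast_le.2 (Finset.card_le_card fun c hc => ?_)
    have h1 := (@Finset.mem_filter _ _ (fun c => Classical.propDecidable _) _ _).1 hc
    exact Finset.mem_filter.2 ⟨h1.1, h1.2.1⟩

theorem AlmostAll.of_forall {T : Type} {S : ℕ → Finset T} {P : T → Prop} (hP : ∀ c, P c)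
    (hS : ∀ᶠ M in atTop, (S M).Nonempty) : AlmostAll S P := by
  refine tendsto_const_nhds.congr' ?_
  filter_upwards [hS] with M hM
  have hc : (0 : ℝ) < ((S M).card : ℝ) := by exact_mod_cast hM.card_pos
  have h1 : (S M).filter P = S M := Finset.filter_true_of_mem fun c _ => hP c
  rw [h1, div_self hc.ne']

theorem AlmostAll.mono {T : Type} {S : ℕ → Finset T} {P Q : T → Prop} (hP : AlmostAll S P)
    (h : ∀ c, P c → Q c) : AlmostAll S Q := by
  refine tendsto_of_tendsto_of_tendsto_of_le_of_le hP tendsto_const_nhds ?_ ?_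
  · intro M
    refine div_le_div_of_nonneg_right ?_ (Nat.cast_nonneg _)
    refine Nat.cast_le.2 (Finset.card_le_card fun c hc => ?_)
    rw [Finset.mem_filter] at hc ⊢
    exact ⟨hc.1, h c hc.2⟩
  · intro M
    refine div_le_one_of_le₀ ?_ (Nat.cast_nonneg _)
    exact Nat.cast_le.2 (Finset.card_le_card (Finset.filter_subset _ _))

section asm

variable {A k : Type} [CommRing A] [IsDomain A] [Infinite A] [Algebra.FiniteType ℤ A]
  [Field k] [Algebra A k] [IsFractionRing A k] {ℓ : ℕ} (hℓ : ℓ.Prime) {ζ : k}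
  (hζ : IsPrimitiveRoot ζ ℓ)

include hℓ hζ in
theorem ell_ne_zero : (ℓ : k) ≠ 0 := by
  haveI : NeZero ℓ := ⟨hℓ.ne_zero⟩
  exact (hζ.neZero').out

theorem delta_pos (m : ℕ) : (0 : ℝ) < 1 / (2048 * ((m + 2 : ℕ) : ℝ) ^ 2) := by positivity

theorem delta_le (m : ℕ) : 1 / (2048 * ((m + 2 : ℕ) : ℝ) ^ 2) ≤ 1 := by
  rw [div_le_one (by positivity)]
  have h1 : (1 : ℝ) ≤ ((m + 2 : ℕ) : ℝ) := by
    exact_mod_cast (by omega : 1 ≤ m + 2)
  nlinarith

include hℓ hζ in
theorem curves_equi {N m : ℕ} (hN : ¬ ℓ ∣ N) (hm : 2 ≤ m)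
    {S : ℕ → Finset (Fin (N + 1) × Fin (m + 3) → A)} (hS : Equi S) :
    AlmostAll S fun c => Jac.ShaPrimaryTrivial ℓ
      (C (algebraMap k[X] (RatFunc k)
      (gp (fun q => algebraMap A k (c q)) 0)) * ∏ i : Fin N, (X - C (algebraMap k[X]
        (RatFunc k) (gp (fun q => algebraMap A k (c q)) i.succ)))) k[X] := by
  refine almostAll_of hS fun η hη => ?_
  obtain ⟨𝔞, h1, Z, h2, h3⟩ := dens (A := A) (I := Fin (N + 1) × Fin (m + 3))
    (rich (k := k) hℓ hζ) (Λ := Lab ℓ N)
    (fun S F _ => ObsG ℓ N m S F) (delta_pos m) (delta_le m) ((4 * N + 6) + 2 * (N * N))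
    (fun S F _ _ hex hp => card_ObsG hℓ hex hm S hp) η hη
  refine ⟨𝔞, h1, Z, h2, fun c hc => h3 c fun hall => hc ?_⟩
  exact curves_of_obs hℓ (ell_ne_zero hℓ hζ) hζ hN hm c hall

include hℓ hζ in
theorem star_equi {N m : ℕ} (hN2 : 2 ≤ N) (hN : ¬ ℓ ∣ N + 1) (hm : 2 ≤ m)
    {S : ℕ → Finset (Fin (N + 1) × Fin (m + 3) → A)} (hS : Equi S) :
    AlmostAll S fun c => ∀ δ : k, δ ≠ 0 → Jac.ShaPrimaryTrivial ℓ
      (C (algebraMap k[X] (RatFunc k) (C δ)) * ∏ i : Fin (N + 1), (X - C (algebraMap k[X]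
        (RatFunc k) (gp (fun q => algebraMap A k (c q)) i)))) k[X] := by
  refine almostAll_of hS fun η hη => ?_
  obtain ⟨𝔞, h1, Z, h2, h3⟩ := dens (A := A) (I := Fin (N + 1) × Fin (m + 3))
    (rich (k := k) hℓ hζ) (Λ := Fin N × Lab ℓ N)
    (fun S F _ => {c | trn S.1 c ∈ ObsG ℓ N m S.2 F}) (delta_pos m) (delta_le m)
    ((4 * N + 6) + 2 * (N * N))
    (fun S F _ _ hex hp => by
      have h1 := card_ObsG hℓ hex (N := N) (m := m) hm S.2 hp
      have h2 := card_trnG (F := F) S.1 (ObsG ℓ N m S.2 F)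
      rw [← h2] at h1
      exact h1) η hη
  refine ⟨𝔞, h1, Z, h2, fun c hc => h3 c fun hall => hc fun δ hδ => ?_⟩
  exact star_of_obs hℓ (ell_ne_zero hℓ hζ) hζ hN2 hN hm c (fun i S => hall (i, S)) δ hδ

end asm

end Pool.Agent.L5helper72.SG
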