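import Pool.Agent.L5helper72.SG.Cntg

/-!
# Counting irreducible polynomials of every degree over a finite field
-/

set_option autoImplicit false
set_option linter.all false

open scoped Classical

namespace Pool.Agent.L5helper72.SG

open Polynomial Finset Pool.Agent.R431.SG

/-- many polynomials are irreducible -/
theorem card_irr1 (F : Type) [Field F] [Fintype F] {n : ℕ} (hn : 1 ≤ n) :
    (1 / (4 * n : ℝ)) * (Fintype.card F : ℝ) ^ (n + 1) ≤
      (({c : Fin (n + 1) → F | (pol c).natDegree = n ∧ Irreducible (pol c)}.ncard : ℕ) :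
        ℝ) := by
  have hn0 : n ≠ 0 := by omega
  obtain ⟨p0, hp0⟩ := CharP.exists F
  haveI := hp0
  haveI : Fact p0.Prime := ⟨CharP.char_is_prime F p0⟩
  haveI : NeZero n := ⟨hn0⟩
  set p := Fintype.card F with hp
  have hp2 : 2 ≤ p := Fintype.one_lt_card
  let E := FiniteField.Extension F p0 n
  haveI : Fintype E := Fintype.ofFinite _
  have hE : Module.finrank F E = n := FiniteField.finrank_extension F p0 n
  have hcE : Fintype.card E = p ^ n := by
    rw [← Nat.card_eq_fintype_card, FiniteField.natCard_extension F p0 n,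
      Nat.card_eq_fintype_card]
  set Gd : Finset E := univ.filter fun x => (minpoly F x).natDegree = n with hGd
  have h1 : (univ.filter fun x : E => (minpoly F x).natDegree ≠ n).card ≤
      p ^ (n - 1) := by
    have h := Pool.Agent.R939.FF.card_small (F := F) (E := E)
    rw [hE] at h
    haveI : FiniteDimensional F E := Module.Finite.of_finite
    rcases (by omega : n = 1 ∨ n = 2 ∨ 3 ≤ n) with h1 | h2 | h3
    · have h4 : (univ.filter fun x : E => (minpoly F x).natDegree ≠ n) = ∅ := by
        rw [Finset.filter_eq_empty_iff]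
        intro x _ hx
        apply hx
        have h5 := minpoly.degree_dvd (K := F) (L := E) (x := x) (Algebra.IsIntegral.isIntegral x)
        rw [hE] at h5
        have h6 := Nat.le_of_dvd (by omega) h5
        have h7 := minpoly.natDegree_pos (A := F) (x := x) (Algebra.IsIntegral.isIntegral x)
        omega
      rw [h4, Finset.card_empty]
      exact Nat.zero_le _
    · have h4 : (univ.filter fun x : E => (minpoly F x).natDegree ≠ n) ⊆
          univ.image (algebraMap F E) := by
        intro x hx
        rw [Finset.mem_filter] at hx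
        rw [Finset.mem_image]
        have h5 := minpoly.degree_dvd (K := F) (L := E) (x := x) (Algebra.IsIntegral.isIntegral x)
        rw [hE] at h5
        have h6 := Nat.le_of_dvd (by omega) h5
        have h7 := minpoly.natDegree_pos (A := F) (x := x) (Algebra.IsIntegral.isIntegral x)
        have h8 := hx.2
        obtain ⟨y, hy⟩ := minpoly.natDegree_eq_one_iff.1
          (show (minpoly F x).natDegree = 1 by omega)
        exact ⟨y, Finset.mem_univ _, hy⟩
      refine (Finset.card_le_card h4).trans (Finset.card_image_le.trans ?_)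
      rw [Finset.card_univ, h2]
      simp [hp]
    · exact h.trans (Nat.pow_le_pow_right (by omega) (by omega))
  have h2 : Gd.card + (univ.filter fun x : E => ¬ (minpoly F x).natDegree = n).card =
      p ^ n := by
    rw [hGd, Finset.card_filter_add_card_filter_not, card_univ, hcE]
  have h4 : p ^ n = p ^ (n - 1) * p := by
    rw [← pow_succ]
    congr 1
    omega
  have hG : (p : ℝ) ^ n ≤ 2 * Gd.card := by
    have h5 : 2 * p ^ (n - 1) ≤ p ^ n := by
      rw [h4, Nat.mul_comm]
      exact Nat.mul_le_mul_left _ hp2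
    have h6 : p ^ n ≤ 2 * Gd.card := by
      have h1' : (univ.filter fun x : E => ¬ (minpoly F x).natDegree = n).card ≤
        p ^ (n - 1) := h1
      omega
    exact_mod_cast h6
  let s : Finset (F × E) := (univ.erase 0) ×ˢ Gd
  let f : F × E → (Fin (n + 1) → F) := fun q j =>
    (C q.1 * minpoly F q.2).coeff j
  have hint : ∀ x : E, IsIntegral F x := fun x => Algebra.IsIntegral.isIntegral x
  have hdeg : ∀ q ∈ s, (C q.1 * minpoly F q.2).natDegree = n := by
    intro q hq
    rw [mem_product, mem_erase] at hq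
    rw [natDegree_C_mul hq.1.1]
    have := hq.2
    rw [hGd, mem_filter] at this
    exact this.2
  have hpol : ∀ q ∈ s, pol (f q) = C q.1 * minpoly F q.2 := fun q hq =>
    pol_of (hdeg q hq).le
  have hfib : ∀ b ∈ s.image f, (s.filter fun q => f q = b).card ≤ n := by
    intro b hb
    obtain ⟨q0, hq0, rfl⟩ := mem_image.1 hb
    set P := C q0.1 * minpoly F q0.2 with hP
    have hPd : P.natDegree = n := hdeg q0 hq0
    have hP0 : P ≠ 0 := by
      intro h
      rw [h, natDegree_zero] at hPd
      omega
    have hsub : (s.filter fun q => f q = f q0).card ≤ (P.aroots E).toFinset.card := by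
      refine Finset.card_le_card_of_injOn (fun q => q.2) ?_ ?_
      · intro q hq
        rw [Finset.mem_coe, mem_filter] at hq
        rw [Finset.mem_coe, Multiset.mem_toFinset, mem_aroots]
        refine ⟨hP0, ?_⟩
        have h5 : P = C q.1 * minpoly F q.2 := by
          rw [← hpol q hq.1, hq.2, hpol q0 hq0]
        rw [h5, map_mul, minpoly.aeval, mul_zero]
      · intro q hq q' hq' hqq
        rw [Finset.mem_coe, mem_filter] at hq hq'
        have h5 : C q.1 * minpoly F q.2 = C q'.1 * minpoly F q'.2 := by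
          rw [← hpol q hq.1, hq.2, ← hq'.2, hpol q' hq'.1]
        have h6 := congrArg leadingCoeff h5
        rw [leadingCoeff_mul, leadingCoeff_mul, leadingCoeff_C, leadingCoeff_C,
          (minpoly.monic (hint _)).leadingCoeff, (minpoly.monic (hint _)).leadingCoeff, mul_one,
          mul_one] at h6
        exact Prod.ext h6 hqq
    refine hsub.trans ((Multiset.toFinset_card_le _).trans ?_)
    rw [aroots]
    refine (card_roots' _).trans ?_
    rw [natDegree_map, hPd]
  have h7 := Finset.card_le_mul_card_image s n hfib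
  have h8 : (s.image f).card ≤
      {c : Fin (n + 1) → F | (pol c).natDegree = n ∧ Irreducible (pol c)}.ncard := by
    rw [← Set.ncard_coe_finset]
    refine Set.ncard_le_ncard ?_ (Set.toFinite _)
    intro c hc
    rw [Finset.mem_coe, mem_image] at hc
    obtain ⟨q, hq, rfl⟩ := hc
    rw [Set.mem_setOf_eq, hpol q hq]
    refine ⟨hdeg q hq, ?_⟩
    rw [mem_product, mem_erase] at hq
    exact (irreducible_isUnit_mul (isUnit_C.2 (isUnit_iff_ne_zero.2 hq.1.1))).2
      (minpoly.irreducible (hint _))
  have h9 : s.card = (p - 1) * Gd.card := by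
    rw [card_product, card_erase_of_mem (mem_univ _), card_univ]
  have h10 : ((p : ℝ) - 1) * Gd.card ≤ n *
      ({c : Fin (n + 1) → F | (pol c).natDegree = n ∧ Irreducible (pol c)}.ncard : ℕ) := by
    have h11 : (p - 1) * Gd.card ≤ n * {c : Fin (n + 1) → F | (pol c).natDegree = n ∧
        Irreducible (pol c)}.ncard := by
      rw [← h9]
      exact h7.trans (Nat.mul_le_mul_left _ h8)
    have h12 : (((p - 1) * Gd.card : ℕ) : ℝ) ≤ ((n * {c : Fin (n + 1) → F |
        (pol c).natDegree = n ∧ Irreducible (pol c)}.ncard : ℕ) : ℝ) := by exact_mod_cast h11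
    rw [Nat.cast_mul, Nat.cast_mul, Nat.cast_sub (by omega), Nat.cast_one] at h12
    exact h12
  have hp1 : (p : ℝ) / 2 ≤ (p : ℝ) - 1 := by
    have : (2 : ℝ) ≤ p := by exact_mod_cast hp2
    linarith
  have hnpos : (0 : ℝ) < n := by exact_mod_cast (by omega : 0 < n)
  have h13 : (p : ℝ) / 2 * ((p : ℝ) ^ n / 2) ≤ ((p : ℝ) - 1) * Gd.card :=
    mul_le_mul hp1 (by linarith) (by positivity) (by linarith [show (0 : ℝ) ≤ p from Nat.cast_nonneg _])
  rw [div_mul_eq_mul_div, one_mul, div_le_iff₀ (by positivity)]
  calc (p : ℝ) ^ (n + 1) = 4 * ((p : ℝ) / 2 * ((p : ℝ) ^ n / 2)) := by ring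
    _ ≤ 4 * (n * ({c : Fin (n + 1) → F | (pol c).natDegree = n ∧
        Irreducible (pol c)}.ncard : ℕ)) := by linarith
    _ = _ := by ring

/-- many polynomials have the factorisation type `1, n - 1` -/
theorem card_fac1 (F : Type) [Field F] [Fintype F] {m : ℕ} (hm : 2 ≤ m) :
    (1 / (4 * m : ℝ)) * (Fintype.card F : ℝ) ^ (m + 2) ≤
      (({c : Fin (m + 2) → F | ∃ (r : F) (g : F[X]), pol c = (X - C r) * g ∧
        g.natDegree = m ∧ Irreducible g}.ncard : ℕ) : ℝ) := by
  set S : Set (Fin (m + 1) → F) := {c | (pol c).natDegree = m ∧ Irreducible (pol c)} with hS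
  let ψ : F × (Fin (m + 1) → F) → (Fin (m + 2) → F) := fun z j =>
    ((X - C z.1) * pol z.2).coeff j
  have hψ : ∀ z, pol (ψ z) = (X - C z.1) * pol z.2 := by
    intro z
    refine pol_of (n := m + 1) ?_
    refine natDegree_mul_le.trans ?_
    have h1 : (X - C z.1 : F[X]).natDegree ≤ 1 := natDegree_X_sub_C_le _
    have h2 := pol_degree z.2
    omega
  have hinj : Set.InjOn ψ ((Set.univ : Set F) ×ˢ S) := by
    intro z hz w hw hzw
    have h1 : (X - C z.1) * pol z.2 = (X - C w.1) * pol w.2 := by rw [← hψ, ← hψ, hzw]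
    have h2 : z.1 = w.1 := by
      by_contra hne
      have h3 := congrArg (fun g : F[X] => g.eval z.1) h1
      simp only [eval_mul, eval_sub, eval_X, eval_C, sub_self, zero_mul] at h3
      have h4 : (pol w.2).eval z.1 = 0 := by
        rcases mul_eq_zero.1 h3.symm with h | h
        · exact absurd (sub_eq_zero.1 h) hne
        · exact h
      obtain ⟨q, hq⟩ := dvd_iff_isRoot.2 h4
      obtain ⟨hd, hi⟩ := hw.2
      rcases hi.isUnit_or_isUnit hq with h5 | h5
      · exact not_isUnit_X_sub_C z.1 h5
      · have h6 : (pol w.2).natDegree = 1 := by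
          rw [hq, natDegree_mul (X_sub_C_ne_zero _) h5.ne_zero, natDegree_X_sub_C,
            natDegree_eq_zero_of_isUnit h5]
        omega
    rw [h2] at h1
    exact Prod.ext h2 (pol_injective (mul_left_cancel₀ (X_sub_C_ne_zero _) h1))
  have h1 : (ψ '' ((Set.univ : Set F) ×ˢ S)).ncard ≤
      {c : Fin (m + 2) → F | ∃ (r : F) (g : F[X]), pol c = (X - C r) * g ∧
        g.natDegree = m ∧ Irreducible g}.ncard := by
    refine Set.ncard_le_ncard ?_ (Set.toFinite _)
    rintro _ ⟨z, hz, rfl⟩
    exact ⟨z.1, pol z.2, hψ z, hz.2.1, hz.2.2⟩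
  rw [Set.ncard_image_of_injOn hinj, Set.ncard_prod, Set.ncard_univ, Nat.card_eq_fintype_card]
    at h1
  have h2 := card_irr1 F (n := m) (by omega)
  have h3 : ((Fintype.card F * S.ncard : ℕ) : ℝ) ≤
      (({c : Fin (m + 2) → F | ∃ (r : F) (g : F[X]), pol c = (X - C r) * g ∧
        g.natDegree = m ∧ Irreducible g}.ncard : ℕ) : ℝ) := by exact_mod_cast h1
  refine le_trans ?_ h3
  rw [Nat.cast_mul]
  calc (1 / (4 * m : ℝ)) * (Fintype.card F : ℝ) ^ (m + 2) =
      Fintype.card F * ((1 / (4 * m : ℝ)) * (Fintype.card F : ℝ) ^ (m + 1)) := by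
        ring
    _ ≤ _ := mul_le_mul_of_nonneg_left h2 (Nat.cast_nonneg _)

end Pool.Agent.L5helper72.SG
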