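import Pool.Agent.Y713.SE.Pull

/-! Pencils `y ^ ℓ = h(x) (x - g(t))`, any degree of `g`. -/

set_option autoImplicit false
set_option linter.all false

open Polynomial IsDedekindDomain

namespace Pool.Agent.L5helper72.SG

open Pool.Agent.Y713 Pool.Agent.Y713.SE

section
variable {k : Type} [Field k]

variable (K : Type) [Field K] [Algebra k[X] K] [IsFractionRing k[X] K]

variable {K} in
/-- stability at a place -/
theorem stab2' {ℓ : ℕ} (hpr : ℓ.Prime) {π : k[X]} (hπ : Irreducible π)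
    (hst : ∀ b : k, (∃ a : k[X], π ∣ C b - a ^ ℓ) → ∃ b' : k, b = b' ^ ℓ)
    {d : K} (hd : d ≠ 0) (h : ∀ v : HeightOneSpectrum k[X], Pw ℓ (v.valuation K d))
    (hx : ∃ x : (hp π hπ).adicCompletion K, algebraMap K _ d = x ^ ℓ) :
    ∃ y : K, d = y ^ ℓ := by
  obtain ⟨c, a, z, hc, hz, e⟩ := rep (K := K) hpr ∅ (by simp) hd (fun v _ => h v)
  rw [Finset.prod_empty, mul_one] at e
  have hx' : ∃ x : (hp π hπ).adicCompletion K,
      algebraMap K ((hp π hπ).adicCompletion K) (algebraMap k[X] K (C c)) = x ^ ℓ := by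
    obtain ⟨x, hx⟩ := hx
    refine ⟨x / algebraMap K _ z, ?_⟩
    rw [div_pow, ← hx, e, map_mul, map_pow, mul_div_cancel_right₀]
    exact pow_ne_zero _ ((_root_.map_ne_zero _).2 hz)
  have hcm : C c ∉ (hp π hπ).asIdeal := (val_eq_one_iff (K := K) _ _).1 (val_C hc)
  obtain ⟨a, ha⟩ := pow_unit hpr.ne_zero (hp π hπ) hcm hx'
  rw [mem_hp] at ha
  obtain ⟨b, hb⟩ := hst c ⟨a, ha⟩
  refine ⟨algebraMap k[X] K (C b) * z, ?_⟩
  rw [e, mul_pow, ← map_pow, ← C_pow, ← hb]

theorem pencil_primary' {ℓ : ℕ} (hℓ : ℓ.Prime) (hk : (ℓ : k) ≠ 0) {ζ : k}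
    (hζ : IsPrimitiveRoot ζ ℓ) {h g : k[X]} (hs : h.Splits) (hsep : h.Separable)
    (h2 : 2 ≤ h.natDegree) (hn : ¬ ℓ ∣ h.natDegree + 1) (hg0 : 0 < g.natDegree)
    (hirr : ∀ c, h.IsRoot c → Irreducible (g - C c))
    (hcs : ∀ c, h.IsRoot c → ∀ b : k, (∃ a : k[X], g - C c ∣ C b - a ^ ℓ) → ∃ b' : k, b = b' ^ ℓ) :
    Jac.ShaPrimaryTrivial ℓ (pencil K h g) k[X] := by
  classical
  have hnd : h.roots.Nodup := nodup_roots hsep
  have hh0 : h ≠ 0 := hsep.ne_zero
  set m := h.natDegree with hm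
  have hcard : h.roots.toFinset.card = m := by
    rw [Multiset.toFinset_card_of_nodup hnd, ← hs.natDegree_eq_card_roots]
  let eqv := h.roots.toFinset.equivFinOfCardEq hcard
  let c : Fin m → k := fun i => (eqv.symm i : k)
  have hc : Function.Injective c := Subtype.val_injective.comp eqv.symm.injective
  have hroot : ∀ i, h.IsRoot (c i) := fun i =>
    (mem_roots'.1 (Multiset.mem_toFinset.1 (eqv.symm i).2)).2
  have hlc : h.leadingCoeff ≠ 0 := leadingCoeff_ne_zero.2 hh0
  have hfac : h = C h.leadingCoeff * ∏ i : Fin m, (X - C (c i)) := by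
    conv_lhs => rw [hs.eq_prod_roots]
    congr 1
    have h3 : (h.roots.map fun a => X - C a).prod = ∏ a ∈ h.roots.toFinset, (X - C a) := by
      rw [Finset.prod_multiset_map_count]
      refine Finset.prod_congr rfl fun a ha => ?_
      rw [Multiset.count_eq_one_of_mem hnd (Multiset.mem_toFinset.1 ha), pow_one]
    rw [h3, ← Finset.prod_coe_sort]
    exact (Equiv.prod_comp eqv.symm (fun a : h.roots.toFinset => (X - C (a : k)))).symm
  let D := pDat K hℓ hk hζ hlc hc hg0 hn
  have hf : D.f = pencil K h g := by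
    unfold Dat.f pencil
    show C (algebraMap k[X] K (C h.leadingCoeff)) * ∏ i : Fin (m + 1), (X - C
      ((Fin.cons (algebraMap k[X] K g) (fun i => algebraMap k[X] K (C (c i))) :
        Fin (m + 1) → K) i)) = _
    rw [Fin.prod_univ_succ]
    simp only [Fin.cons_zero, Fin.cons_succ]
    conv_rhs => rw [hfac]
    rw [Polynomial.map_mul, map_C, Polynomial.map_prod]
    simp only [Polynomial.map_sub, map_X, map_C, RingHom.comp_apply]
    ring
  rw [← hf]
  have hirr' : ∀ i, Irreducible (g - C (c i)) := fun i => hirr _ (hroot i)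
  have i0 : Fin m := ⟨0, by omega⟩
  let w : Fin (m + 1) → HeightOneSpectrum k[X] :=
    Fin.cons (hp _ (hirr' i0)) (fun i => hp _ (hirr' i))
  have he0 : D.e 0 = algebraMap k[X] K g := rfl
  have hes : ∀ i : Fin m, D.e i.succ = algebraMap k[X] K (C (c i)) := fun i => rfl
  have hsub0 : ∀ i : Fin m, D.e 0 - D.e i.succ = algebraMap k[X] K (g - C (c i)) := fun i => by
    rw [he0, hes, map_sub]
  have hcc : ∀ (v : HeightOneSpectrum k[X]) (i j : Fin m), i ≠ j →
      v.valuation K (D.e i.succ - D.e j.succ) = 1 := by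
    intro v i j hij
    rw [hes, hes, ← map_sub, ← C_sub]
    exact val_C (sub_ne_zero.2 fun h => hij (hc h))
  -- valuations of differences
  have hg1 : ∀ (v : HeightOneSpectrum k[X]) (i : Fin m), v ≠ hp _ (hirr' i) →
      v.valuation K (D.e 0 - D.e i.succ) = 1 := by
    intro v i hv
    rw [hsub0, val_eq_one_iff]
    intro hmem
    exact hv (eq_hp (hirr' i) hmem)
  have hwne : ∀ i j : Fin m, i ≠ j → hp _ (hirr' i) ≠ hp _ (hirr' j) := by
    intro i j hij heq
    have h3 : g - C (c j) ∈ (hp _ (hirr' i)).asIdeal := by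
      rw [heq, mem_hp]
    have h4 : g - C (c i) ∈ (hp _ (hirr' i)).asIdeal := by rw [mem_hp]
    have h5 := Ideal.sub_mem _ h3 h4
    have h6 : g - C (c j) - (g - C (c i)) = C (c i - c j) := by rw [C_sub]; ring
    rw [h6] at h5
    exact (val_eq_one_iff (K := K) _ _).1 (val_C (sub_ne_zero.2 fun h => hij (hc h))) h5
  obtain ⟨p, hexp⟩ := ExpChar.exists K
  haveI := hexp
  haveI : ExpChar (SeparableClosure K) p :=
    expChar_of_injective_algebraMap (algebraMap K (SeparableClosure K)).injective p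
  haveI : ∀ v : HeightOneSpectrum k[X], ExpChar (SeparableClosure (v.adicCompletion K)) p := fun v =>
    expChar_of_injective_algebraMap
      (algebraMap K (SeparableClosure (v.adicCompletion K))).injective p
  apply D.sha_primary (R := k[X])
  refine D.crit2 (p := p) (fun v => SeparableClosure (v.adicCompletion K)) ?_ ?_ 0 w (by omega)
    ?_ ?_ ?_ ?_ ?_
  · intro v
    have h3 : ((ℓ : ℕ) : K) = algebraMap k[X] K (C (ℓ : k)) := by
      rw [C_eq_natCast, map_natCast]
    rw [h3]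
    exact val_C hk
  · intro v
    exact val_C hlc
  · intro i hi
    obtain ⟨j, rfl⟩ := Fin.exists_succ_eq.2 hi
    rw [hsub0]
    show (hp _ (hirr' j)).valuation K _ < 1
    rw [val_hp_self, ← WithZero.exp_zero, WithZero.exp_lt_exp]
    norm_num
  · intro i hi
    obtain ⟨j, rfl⟩ := Fin.exists_succ_eq.2 hi
    rw [hsub0]
    show ¬ Pw ℓ ((hp _ (hirr' j)).valuation K _)
    rw [val_hp_self]
    exact not_pw_exp hℓ
  · intro i hi a b hab h3 h4
    obtain ⟨j, rfl⟩ := Fin.exists_succ_eq.2 hi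
    show (hp _ (hirr' j)).valuation K _ = 1
    rcases Fin.eq_zero_or_eq_succ a with rfl | ⟨a', rfl⟩
    · rcases Fin.eq_zero_or_eq_succ b with rfl | ⟨b', rfl⟩
      · exact absurd rfl hab
      · apply hg1
        apply hwne
        rintro rfl
        exact h3 ⟨rfl, rfl⟩
    · rcases Fin.eq_zero_or_eq_succ b with rfl | ⟨b', rfl⟩
      · rw [Valuation.map_sub_swap]
        apply hg1
        apply hwne
        rintro rfl
        exact h4 ⟨rfl, rfl⟩
      · exact hcc _ _ _ fun h => hab (by rw [h])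
  · intro v hv a b hab
    have hv' : ∀ i : Fin m, v ≠ hp _ (hirr' i) := fun i => hv i.succ (Fin.succ_ne_zero _)
    rcases Fin.eq_zero_or_eq_succ a with rfl | ⟨a', rfl⟩
    · rcases Fin.eq_zero_or_eq_succ b with rfl | ⟨b', rfl⟩
      · exact absurd rfl hab
      · exact hg1 _ _ (hv' _)
    · rcases Fin.eq_zero_or_eq_succ b with rfl | ⟨b', rfl⟩
      · rw [Valuation.map_sub_swap]
        exact hg1 _ _ (hv' _)
      · exact hcc _ _ _ fun h => hab (by rw [h])
  · intro i hi d hd hpw hx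
    obtain ⟨j, rfl⟩ := Fin.exists_succ_eq.2 hi
    exact stab2' hℓ (hirr' j) (hcs _ (hroot j)) hd hpw hx

end

end Pool.Agent.L5helper72.SG
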