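import Pool.Agent.L5helper72.SG.RchE
import Pool.Agent.L5helper72.SG.Asm
import Pool.Agent.L5helper72.SG.PullG
import Pool.Agent.L5helper72.SG.CntP

/-!
# The main theorems over extensions
-/

set_option autoImplicit false
set_option linter.all false

open scoped Classical

namespace Pool.Agent.L5helper72.SG

open Polynomial Pool.Agent.R431.SG Pool.Agent.Y713 Filter Topology

section big

variable (A k k' : Type) [CommRing A] [IsDomain A] [Algebra.FiniteType ℤ A] [Field k]
  [Algebra A k] [IsFractionRing A k] [Field k'] [Algebra k k'] [Algebra A k']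
  [IsScalarTower A k k'] [FiniteDimensional k k']

include k in
/-- finitely generated rings with a given field of fractions -/
theorem exists_big (T : Finset k') : ∃ A' : Subalgebra A k', Algebra.FiniteType ℤ A' ∧
    IsFractionRing A' k' ∧ ∀ t ∈ T, t ∈ A' := by
  let b := Module.finBasis k k'
  set T' : Finset k' := T ∪ Finset.univ.image b with hT'
  set A' : Subalgebra A k' := Algebra.adjoin A (T' : Set k') with hA'
  have hmem : ∀ t ∈ T', t ∈ A' := fun t ht => Algebra.subset_adjoin ht
  refine ⟨A', ?_, ?_, fun t ht => hmem t (Finset.mem_union_left _ ht)⟩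
  · have h1 : Algebra.FiniteType A A' :=
      (Subalgebra.fg_iff_finiteType _).1 (Subalgebra.fg_adjoin_finset T')
    exact Algebra.FiniteType.trans (R := ℤ) (S := A) inferInstance h1
  · refine IsFractionRing.of_field _ _ fun z => ?_
    obtain ⟨d, hd⟩ := IsLocalization.exist_integer_multiples_of_finset (nonZeroDivisors A)
      (Finset.univ.image fun i => b.repr z i)
    have hd0 : (d : A) ≠ 0 := nonZeroDivisors.ne_zero d.2
    have hdk : algebraMap A k' (d : A) ≠ 0 := by
      rw [IsScalarTower.algebraMap_apply A k k', Ne, map_eq_zero,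
        map_eq_zero_iff _ (IsFractionRing.injective A k)]
      exact hd0
    choose a ha using fun i => hd (b.repr z i) (Finset.mem_image_of_mem _ (Finset.mem_univ i))
    have hz : algebraMap A k' (d : A) * z = ∑ i, algebraMap A k' (a i) * b i := by
      conv_lhs => rw [← b.sum_repr z]
      rw [Finset.mul_sum]
      refine Finset.sum_congr rfl fun i _ => ?_
      have h1 : algebraMap A k (a i) = algebraMap A k d * b.repr z i := by
        rw [ha, Algebra.smul_def]
      rw [IsScalarTower.algebraMap_apply A k k' (a i), h1, map_mul,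
        ← IsScalarTower.algebraMap_apply A k k', Algebra.smul_def, mul_assoc]
    have hx : ∑ i, algebraMap A k' (a i) * b i ∈ A' := by
      refine sum_mem fun i _ => mul_mem (A'.algebraMap_mem _) (hmem _ ?_)
      exact Finset.mem_union_right _ (Finset.mem_image_of_mem _ (Finset.mem_univ i))
    refine ⟨⟨_, hx⟩, algebraMap A A' d, ?_⟩
    have e1 : algebraMap A' k' ⟨_, hx⟩ = ∑ i, algebraMap A k' (a i) * b i := rfl
    have e2 : algebraMap A' k' (algebraMap A A' d) = algebraMap A k' (d : A) := rfl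
    rw [e1, e2, ← hz, mul_div_cancel_left₀ _ hdk]

end big

section asm

variable {A k k' : Type} [CommRing A] [IsDomain A] [Infinite A] [Algebra.FiniteType ℤ A]
  [Field k] [Algebra A k] [IsFractionRing A k] [Field k'] [Algebra k k'] [Algebra A k']
  [IsScalarTower A k k'] [FiniteDimensional k k'] [Algebra.IsSeparable k k']
  {ℓ : ℕ} (hℓ : ℓ.Prime) {ζ : k'} (hζ : IsPrimitiveRoot ζ ℓ)

include k hℓ hζ in
theorem curves_equiE {N m : ℕ} (hN : ¬ ℓ ∣ N) (hm : 2 ≤ m)
    {S : ℕ → Finset (Fin (N + 1) × Fin (m + 3) → A)} (hS : Equi S) :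
    AlmostAll S fun c => Jac.ShaPrimaryTrivial ℓ
      (C (algebraMap k'[X] (RatFunc k')
      (gp (fun q => algebraMap A k' (c q)) 0)) * ∏ i : Fin N, (X - C (algebraMap k'[X]
        (RatFunc k') (gp (fun q => algebraMap A k' (c q)) i.succ)))) k'[X] := by
  obtain ⟨A', hf1, hf2, -⟩ := exists_big A k k' ∅
  haveI := hf1
  haveI := hf2
  refine almostAll_of hS fun η hη => ?_
  obtain ⟨𝔞, h1, Z, h2, h3⟩ := densE (A := A) (A' := A') (I := Fin (N + 1) × Fin (m + 3))
    (richE A A' k k' hℓ hζ) (Λ := Lab ℓ N)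
    (fun S F _ _ => ObsG ℓ N m S F) (delta_pos m) (delta_le m) ((4 * N + 6) + 2 * (N * N))
    (fun S F _ _ _ hex hp => card_ObsG hℓ hex hm S hp) η hη
  refine ⟨𝔞, h1, Z, h2, fun c hc => h3 c fun hall => hc ?_⟩
  exact curves_of_obs (A := A') (k := k') hℓ (ell_ne_zero hℓ hζ) hζ hN hm
    (fun q => algebraMap A A' (c q)) hall

include k hℓ hζ in
theorem star_equiE {N m : ℕ} (hN2 : 2 ≤ N) (hN : ¬ ℓ ∣ N + 1) (hm : 2 ≤ m)
    {S : ℕ → Finset (Fin (N + 1) × Fin (m + 3) → A)} (hS : Equi S) :
    AlmostAll S fun c => ∀ δ : k', δ ≠ 0 → Jac.ShaPrimaryTrivial ℓ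
      (C (algebraMap k'[X] (RatFunc k') (C δ)) * ∏ i : Fin (N + 1), (X - C (algebraMap k'[X]
        (RatFunc k') (gp (fun q => algebraMap A k' (c q)) i)))) k'[X] := by
  obtain ⟨A', hf1, hf2, -⟩ := exists_big A k k' ∅
  haveI := hf1
  haveI := hf2
  refine almostAll_of hS fun η hη => ?_
  obtain ⟨𝔞, h1, Z, h2, h3⟩ := densE (A := A) (A' := A') (I := Fin (N + 1) × Fin (m + 3))
    (richE A A' k k' hℓ hζ) (Λ := Fin N × Lab ℓ N)
    (fun S F _ _ => {c | trn S.1 c ∈ ObsG ℓ N m S.2 F}) (delta_pos m) (delta_le m)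
    ((4 * N + 6) + 2 * (N * N))
    (fun S F _ _ _ hex hp => by
      have h1 := card_ObsG hℓ hex (N := N) (m := m) hm S.2 hp
      have h2 := card_trnG (F := F) S.1 (ObsG ℓ N m S.2 F)
      rw [← h2] at h1
      exact h1) η hη
  refine ⟨𝔞, h1, Z, h2, fun c hc => h3 c fun hall => hc fun δ hδ => ?_⟩
  exact star_of_obs (A := A') (k := k') hℓ (ell_ne_zero hℓ hζ) hζ hN2 hN hm
    (fun q => algebraMap A A' (c q)) (fun i S => hall (i, S)) δ hδ

end asm

section sh

variable {R R' : Type} [CommRing R] [CommRing R']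

/-- subtract `r` from the constant term -/
def sh {n : ℕ} (r : R) (d : Fin (n + 1) → R) : Fin (n + 1) → R := fun j =>
  if j = 0 then d j - r else d j

lemma pol_sh {n : ℕ} (r : R) (d : Fin (n + 1) → R) : pol (sh r d) = pol d - C r := by
  unfold pol sh
  rw [Fin.sum_univ_succ, Fin.sum_univ_succ]
  have h1 : ∀ i : Fin n, i.succ ≠ 0 := fun i => Fin.succ_ne_zero i
  simp only [if_true, h1, if_false, Fin.val_zero, pow_zero, mul_one, C_sub]
  ring

lemma sh_map (φ : R →+* R') {n : ℕ} (r : R) (d : Fin (n + 1) → R) :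
    (fun j => φ (sh r d j)) = sh (φ r) fun j => φ (d j) := by
  funext j
  unfold sh
  split_ifs
  · exact map_sub _ _ _
  · rfl

lemma sh_inj {n : ℕ} (r : R) : Function.Injective (sh (n := n) r) := by
  intro d e h
  funext j
  have h1 := congrFun h j
  unfold sh at h1
  split_ifs at h1 with h2
  · exact sub_left_injective h1
  · exact h1

lemma card_sh [Finite R] {n : ℕ} (r : R) (Z : Set (Fin (n + 1) → R)) :
    {d | sh r d ∈ Z}.ncard = Z.ncard := by
  have hs : Function.Surjective (sh (n := n) r) := Finite.surjective_of_injective (sh_inj r)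
  rw [← Set.ncard_image_of_injective _ (sh_inj r)]
  congr 1
  ext x
  constructor
  · rintro ⟨c, hc, rfl⟩
    exact hc
  · intro hx
    obtain ⟨c, rfl⟩ := hs x
    exact ⟨c, hx, rfl⟩

end sh

section pen

variable {A k k' : Type} [CommRing A] [IsDomain A] [Infinite A] [Algebra.FiniteType ℤ A]
  [Field k] [Algebra A k] [IsFractionRing A k] [Field k'] [Algebra k k'] [Algebra A k']
  [IsScalarTower A k k'] [FiniteDimensional k k'] [Algebra.IsSeparable k k']
  {ℓ : ℕ} (hℓ : ℓ.Prime) {ζ : k'} (hζ : IsPrimitiveRoot ζ ℓ)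

/-- the obstructions for pencils: irreducible, respectively of type `1, m` -/
def ObsP (m : ℕ) (b : Bool) (F : Type) [Field F] (r : F) : Set (Fin (m + 2) → F) :=
  match b with
  | true => {d | (pol (sh r d)).natDegree = m + 1 ∧ Irreducible (pol (sh r d))}
  | false => {d | 2 ≤ m → ∃ (s : F) (g : F[X]), pol (sh r d) = (X - C s) * g ∧
      g.natDegree = m ∧ Irreducible g}

theorem card_ObsP (m : ℕ) (b : Bool) (F : Type) [Field F] [Fintype F] (r : F) :
    (1 / (4 * ((m + 1 : ℕ) : ℝ))) * (Fintype.card F : ℝ) ^ Fintype.card (Fin (m + 2)) ≤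
      (((ObsP m b F r).ncard : ℕ) : ℝ) := by
  rw [Fintype.card_fin]
  rcases b with _ | _
  · by_cases hm : 2 ≤ m
    · have h1 := card_fac1 F hm
      have h2 := card_sh r {d : Fin (m + 2) → F | ∃ (s : F) (g : F[X]), pol d = (X - C s) * g ∧
        g.natDegree = m ∧ Irreducible g}
      have h3 : {d | sh r d ∈ {d : Fin (m + 2) → F | ∃ (s : F) (g : F[X]),
          pol d = (X - C s) * g ∧ g.natDegree = m ∧ Irreducible g}} = ObsP m false F r := by
        ext d
        exact ⟨fun h _ => h, fun h => h hm⟩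
      rw [h3] at h2
      rw [h2]
      refine le_trans (mul_le_mul_of_nonneg_right ?_ (by positivity)) h1
      apply one_div_le_one_div_of_le
      · have : (0 : ℝ) < m := by exact_mod_cast (by omega : 0 < m)
        linarith
      · push_cast
        linarith
    · have h1 : ObsP m false F r = Set.univ := by
        ext d
        exact ⟨fun _ => trivial, fun _ h => absurd h hm⟩
      rw [h1, Set.ncard_univ, Nat.card_eq_fintype_card, Fintype.card_fun, Fintype.card_fin,
        Nat.cast_pow]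
      have h0 : (0 : ℝ) ≤ (Fintype.card F : ℝ) ^ (m + 2) := by positivity
      have h2 : (1 : ℝ) / (4 * ((m + 1 : ℕ) : ℝ)) ≤ 1 := by
        rw [div_le_one (by positivity)]
        push_cast
        have : (0 : ℝ) ≤ m := Nat.cast_nonneg _
        linarith
      calc _ ≤ 1 * (Fintype.card F : ℝ) ^ (m + 2) := mul_le_mul_of_nonneg_right h2 h0
        _ = _ := one_mul _
  · have h1 := card_irr1 F (n := m + 1) (by omega)
    have h2 := card_sh r {d : Fin (m + 2) → F | (pol d).natDegree = m + 1 ∧ Irreducible (pol d)}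
    have h3 : {d | sh r d ∈ {d : Fin (m + 2) → F | (pol d).natDegree = m + 1 ∧
        Irreducible (pol d)}} = ObsP m true F r := rfl
    rw [h3] at h2
    rw [h2]
    exact h1

/-- the properties of a polynomial with all obstructions -/
theorem pencil_data {A' k' : Type} [CommRing A'] [IsDomain A'] [Field k'] [Algebra A' k']
    [IsFractionRing A' k'] {ℓ : ℕ} (hℓ : ℓ.Prime) {ζ : k'} (hζ : IsPrimitiveRoot ζ ℓ) {m : ℕ}
    (hm : ℓ ∣ m + 1 → 2 ≤ m) (r : A') (d : Fin (m + 2) → A')
    (hall : ∀ b : Bool, ∃ (F : Type) (_ : Field F) (ρ : A' →+* F),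
      Liftable ρ ∧ (fun q => ρ (d q)) ∈ ObsP m b F (ρ r)) :
    Irreducible ((pol fun j => algebraMap A' k' (d j)) - C (algebraMap A' k' r)) ∧
      ((pol fun j => algebraMap A' k' (d j)) - C (algebraMap A' k' r)).natDegree = m + 1 ∧
      ∀ b : k', (∃ a : k'[X], (pol fun j => algebraMap A' k' (d j)) - C (algebraMap A' k' r) ∣
        C b - a ^ ℓ) → ∃ b' : k', b = b' ^ ℓ := by
  have hinj : Function.Injective (algebraMap A' k') := IsFractionRing.injective A' k'
  have hsub : (pol fun j => algebraMap A' k' (d j)) - C (algebraMap A' k' r) =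
      pol fun j => algebraMap A' k' (sh r d j) := by
    rw [sh_map, pol_sh]
  rw [hsub]
  obtain ⟨F, _, _, ⟨O, _, _, _, π, σ, hπ, hσ, rfl⟩, hirr⟩ := hall true
  have hirr' : (pol fun j => π.comp σ (sh r d j)).natDegree = m + 1 ∧
      Irreducible (pol fun j => π.comp σ (sh r d j)) := by
    rw [sh_map]
    exact hirr
  have hI : Irreducible (pol fun j => algebraMap A' k' (sh r d j)) :=
    irr_of_redn hπ σ hσ (by omega) (sh r d) hirr'.1 hirr'.2
  have hdeg : (pol fun j => algebraMap A' k' (sh r d j)).natDegree = m + 1 := by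
    refine le_antisymm (pol_degree _) ?_
    have h3 : ((pol fun j => sh r d j).map (π.comp σ)).natDegree = m + 1 := by
      rw [pol_map]; exact hirr'.1
    have h4 : ((pol fun j => sh r d j).map (π.comp σ)).natDegree ≤
        (pol fun j => sh r d j).natDegree := natDegree_map_le
    have h5 : (pol fun j => algebraMap A' k' (sh r d j)) =
        (pol fun j => sh r d j).map (algebraMap A' k') := by rw [pol_map]
    rw [h5, natDegree_map_eq_of_injective hinj]
    omega
  refine ⟨hI, hdeg, fun b hb => ?_⟩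
  by_cases hdvd : ℓ ∣ m + 1
  swap
  · exact SE.const_stable hℓ hI (by rw [hdeg]; exact hdvd) hb
  have hm2 := hm hdvd
  obtain ⟨F, _, _, ⟨O, _, _, _, π, σ, hπ, hσ, rfl⟩, hfac⟩ := hall false
  obtain ⟨s, g, hg1, hg2, hg3⟩ := hfac hm2
  have h3 : (pol fun j => σ (sh r d j)).map π = (X - C s) * g := by
    rw [pol_red, sh_map]
    exact hg1
  let L := FractionRing O
  obtain ⟨ρ, G, hG1, hG2, hG3⟩ := fac_ps hπ L (f := pol fun j => σ (sh r d j)) (m := m)
    (pol_degree _) s g hg3 hg2 (by omega) h3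
  refine const_of_facG hℓ (extn k' L σ hσ) (hζ.map_of_injective (extn k' L σ hσ).injective) hdeg
    hm2 hG1 hG2 (ρ := ρ) ?_ hb
  rw [← hG3, pol_ext]

include k hℓ hζ in
/-- **Almost all pullbacks of a pencil.** -/
theorem pencil_equiE {h : k'[X]} (hs : h.Splits) (hsep : h.Separable)
    (h2 : 2 ≤ h.natDegree) (hn : ¬ ℓ ∣ h.natDegree + 1) {m : ℕ} (hm : ℓ ∣ m + 1 → 2 ≤ m)
    {S : ℕ → Finset (Fin (m + 2) → A)} (hS : Equi S) :
    AlmostAll S fun c => Jac.ShaPrimaryTrivial ℓ
      (SE.pencil (RatFunc k') h (pol fun q => algebraMap A k' (c q))) k'[X] := by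
  obtain ⟨A', hf1, hf2, hT⟩ := exists_big A k k' h.roots.toFinset
  haveI := hf1
  haveI := hf2
  refine almostAll_of hS fun η hη => ?_
  have hd0 : (0 : ℝ) < 1 / (4 * ((m + 1 : ℕ) : ℝ)) := by positivity
  have hd1 : (1 : ℝ) / (4 * ((m + 1 : ℕ) : ℝ)) ≤ 1 := by
    rw [div_le_one (by positivity)]
    push_cast
    have : (0 : ℝ) ≤ m := Nat.cast_nonneg _
    linarith
  obtain ⟨𝔞, h1, Z, h3, h4⟩ := densE (A := A) (A' := A') (I := Fin (m + 2))
    (richE A A' k k' hℓ hζ) (Λ := h.roots.toFinset × Bool)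
    (fun S F _ ρ => ObsP m S.2 F (ρ ⟨S.1, hT _ S.1.2⟩)) hd0 hd1 0
    (fun S F _ _ ρ _ _ => card_ObsP m S.2 F _) η hη
  refine ⟨𝔞, h1, Z, h3, fun c hc => h4 c fun hall => hc ?_⟩
  have key : ∀ r, h.IsRoot r → Irreducible ((pol fun q => algebraMap A k' (c q)) - C r) ∧
      ((pol fun q => algebraMap A k' (c q)) - C r).natDegree = m + 1 ∧
      ∀ b : k', (∃ a : k'[X], (pol fun q => algebraMap A k' (c q)) - C r ∣ C b - a ^ ℓ) →
        ∃ b' : k', b = b' ^ ℓ := by
    intro r hr
    have hmem : r ∈ h.roots.toFinset :=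
      Multiset.mem_toFinset.2 ((mem_roots hsep.ne_zero).2 hr)
    exact pencil_data (A' := A') (k' := k') hℓ hζ hm ⟨r, hT r hmem⟩
      (fun q => algebraMap A A' (c q)) fun b => hall (⟨r, hmem⟩, b)
  have hpos : 0 < (pol fun q => algebraMap A k' (c q)).natDegree := by
    have hcard : 0 < h.roots.toFinset.card := by
      rw [Multiset.toFinset_card_of_nodup (nodup_roots hsep), ← hs.natDegree_eq_card_roots]
      omega
    obtain ⟨r, hr⟩ := Finset.card_pos.1 hcard
    have h5 := (key r ((mem_roots hsep.ne_zero).1 (Multiset.mem_toFinset.1 hr))).2.1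
    rw [natDegree_sub_C] at h5
    omega
  exact pencil_primary' (RatFunc k') hℓ (ell_ne_zero hℓ hζ) hζ hs hsep h2 hn hpos
    (fun r hr => (key r hr).1) fun r hr => (key r hr).2.2

end pen

end Pool.Agent.L5helper72.SG
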