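import Pool.Agent.R431.SG.MainS

/-!
# Counting polynomials and tuples of polynomials over a finite field
-/

set_option autoImplicit false
set_option linter.all false

open scoped Classical

namespace Pool.Agent.L5helper72.SG

open Polynomial Finset Pool.Agent.R431.SG

/-- many polynomials are irreducible -/
theorem card_irrG (F : Type) [Field F] [Fintype F] {n : ℕ} (hn : 3 ≤ n) :
    (1 / (4 * n : ℝ)) * (Fintype.card F : ℝ) ^ (n + 1) ≤
      (({c : Fin (n + 1) → F | (pol c).natDegree = n ∧ Irreducible (pol c)}.ncard : ℕ) :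
        ℝ) := by
  have hn0 : n ≠ 0 := by omega
  obtain ⟨p0, hp0⟩ := CharP.exists F
  haveI := hp0
  haveI : Fact p0.Prime := ⟨CharP.char_is_prime F p0⟩
  haveI : NeZero n := ⟨hn0⟩
  set p := Fintype.card F with hp
  have hp2 : 2 ≤ p := Fintype.one_lt_card
  let E := FiniteField.Extension F p0 n
  haveI : Fintype E := Fintype.ofFinite _
  have hE : Module.finrank F E = n := FiniteField.finrank_extension F p0 n
  have hcE : Fintype.card E = p ^ n := by
    rw [← Nat.card_eq_fintype_card, FiniteField.natCard_extension F p0 n,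
      Nat.card_eq_fintype_card]
  set Gd : Finset E := univ.filter fun x => (minpoly F x).natDegree = n with hGd
  have h1 : (univ.filter fun x : E => (minpoly F x).natDegree ≠ n).card ≤
      p ^ (n / 2 + 1) := by
    have := Pool.Agent.R939.FF.card_small (F := F) (E := E)
    rwa [hE] at this
  have h2 : Gd.card + (univ.filter fun x : E => ¬ (minpoly F x).natDegree = n).card =
      p ^ n := by
    rw [hGd, Finset.card_filter_add_card_filter_not, card_univ, hcE]
  have h3 : p ^ (n / 2 + 1) ≤ p ^ (n - 1) := Nat.pow_le_pow_right (by omega) (by omega)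
  have h4 : p ^ n = p ^ (n - 1) * p := by
    rw [← pow_succ]
    congr 1
    omega
  have hG : (p : ℝ) ^ n ≤ 2 * Gd.card := by
    have h5 : 2 * p ^ (n - 1) ≤ p ^ n := by
      rw [h4, Nat.mul_comm]
      exact Nat.mul_le_mul_left _ hp2
    have h6 : p ^ n ≤ 2 * Gd.card := by
      have h1' : (univ.filter fun x : E => ¬ (minpoly F x).natDegree = n).card ≤
        p ^ (n / 2 + 1) := h1
      omega
    exact_mod_cast h6
  let s : Finset (F × E) := (univ.erase 0) ×ˢ Gd
  let f : F × E → (Fin (n + 1) → F) := fun q j =>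
    (C q.1 * minpoly F q.2).coeff j
  have hint : ∀ x : E, IsIntegral F x := fun x => Algebra.IsIntegral.isIntegral x
  have hdeg : ∀ q ∈ s, (C q.1 * minpoly F q.2).natDegree = n := by
    intro q hq
    rw [mem_product, mem_erase] at hq
    rw [natDegree_C_mul hq.1.1]
    have := hq.2
    rw [hGd, mem_filter] at this
    exact this.2
  have hpol : ∀ q ∈ s, pol (f q) = C q.1 * minpoly F q.2 := fun q hq =>
    pol_of (hdeg q hq).le
  have hfib : ∀ b ∈ s.image f, (s.filter fun q => f q = b).card ≤ n := by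
    intro b hb
    obtain ⟨q0, hq0, rfl⟩ := mem_image.1 hb
    set P := C q0.1 * minpoly F q0.2 with hP
    have hPd : P.natDegree = n := hdeg q0 hq0
    have hP0 : P ≠ 0 := by
      intro h
      rw [h, natDegree_zero] at hPd
      omega
    have hsub : (s.filter fun q => f q = f q0).card ≤ (P.aroots E).toFinset.card := by
      refine Finset.card_le_card_of_injOn (fun q => q.2) ?_ ?_
      · intro q hq
        rw [Finset.mem_coe, mem_filter] at hq
        rw [Finset.mem_coe, Multiset.mem_toFinset, mem_aroots]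
        refine ⟨hP0, ?_⟩
        have h5 : P = C q.1 * minpoly F q.2 := by
          rw [← hpol q hq.1, hq.2, hpol q0 hq0]
        rw [h5, map_mul, minpoly.aeval, mul_zero]
      · intro q hq q' hq' hqq
        rw [Finset.mem_coe, mem_filter] at hq hq'
        have h5 : C q.1 * minpoly F q.2 = C q'.1 * minpoly F q'.2 := by
          rw [← hpol q hq.1, hq.2, ← hq'.2, hpol q' hq'.1]
        have h6 := congrArg leadingCoeff h5
        rw [leadingCoeff_mul, leadingCoeff_mul, leadingCoeff_C, leadingCoeff_C,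
          (minpoly.monic (hint _)).leadingCoeff, (minpoly.monic (hint _)).leadingCoeff, mul_one,
          mul_one] at h6
        exact Prod.ext h6 hqq
    refine hsub.trans ((Multiset.toFinset_card_le _).trans ?_)
    rw [aroots]
    refine (card_roots' _).trans ?_
    rw [natDegree_map, hPd]
  have h7 := Finset.card_le_mul_card_image s n hfib
  have h8 : (s.image f).card ≤
      {c : Fin (n + 1) → F | (pol c).natDegree = n ∧ Irreducible (pol c)}.ncard := by
    rw [← Set.ncard_coe_finset]
    refine Set.ncard_le_ncard ?_ (Set.toFinite _)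
    intro c hc
    rw [Finset.mem_coe, mem_image] at hc
    obtain ⟨q, hq, rfl⟩ := hc
    rw [Set.mem_setOf_eq, hpol q hq]
    refine ⟨hdeg q hq, ?_⟩
    rw [mem_product, mem_erase] at hq
    exact (irreducible_isUnit_mul (isUnit_C.2 (isUnit_iff_ne_zero.2 hq.1.1))).2
      (minpoly.irreducible (hint _))
  have h9 : s.card = (p - 1) * Gd.card := by
    rw [card_product, card_erase_of_mem (mem_univ _), card_univ]
  have h10 : ((p : ℝ) - 1) * Gd.card ≤ n *
      ({c : Fin (n + 1) → F | (pol c).natDegree = n ∧ Irreducible (pol c)}.ncard : ℕ) := by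
    have h11 : (p - 1) * Gd.card ≤ n * {c : Fin (n + 1) → F | (pol c).natDegree = n ∧
        Irreducible (pol c)}.ncard := by
      rw [← h9]
      exact h7.trans (Nat.mul_le_mul_left _ h8)
    have h12 : (((p - 1) * Gd.card : ℕ) : ℝ) ≤ ((n * {c : Fin (n + 1) → F |
        (pol c).natDegree = n ∧ Irreducible (pol c)}.ncard : ℕ) : ℝ) := by exact_mod_cast h11
    rw [Nat.cast_mul, Nat.cast_mul, Nat.cast_sub (by omega), Nat.cast_one] at h12
    exact h12
  have hp1 : (p : ℝ) / 2 ≤ (p : ℝ) - 1 := by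
    have : (2 : ℝ) ≤ p := by exact_mod_cast hp2
    linarith
  have hnpos : (0 : ℝ) < n := by exact_mod_cast (by omega : 0 < n)
  have h13 : (p : ℝ) / 2 * ((p : ℝ) ^ n / 2) ≤ ((p : ℝ) - 1) * Gd.card :=
    mul_le_mul hp1 (by linarith) (by positivity) (by linarith [show (0 : ℝ) ≤ p from Nat.cast_nonneg _])
  rw [div_mul_eq_mul_div, one_mul, div_le_iff₀ (by positivity)]
  calc (p : ℝ) ^ (n + 1) = 4 * ((p : ℝ) / 2 * ((p : ℝ) ^ n / 2)) := by ring
    _ ≤ 4 * (n * ({c : Fin (n + 1) → F | (pol c).natDegree = n ∧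
        Irreducible (pol c)}.ncard : ℕ)) := by linarith
    _ = _ := by ring

/-- many polynomials have the factorisation type `1, n - 1` -/
theorem card_facG (F : Type) [Field F] [Fintype F] {m : ℕ} (hm : 3 ≤ m) :
    (1 / (4 * m : ℝ)) * (Fintype.card F : ℝ) ^ (m + 2) ≤
      (({c : Fin (m + 2) → F | ∃ (r : F) (g : F[X]), pol c = (X - C r) * g ∧
        g.natDegree = m ∧ Irreducible g}.ncard : ℕ) : ℝ) := by
  set S : Set (Fin (m + 1) → F) := {c | (pol c).natDegree = m ∧ Irreducible (pol c)} with hS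
  let ψ : F × (Fin (m + 1) → F) → (Fin (m + 2) → F) := fun z j =>
    ((X - C z.1) * pol z.2).coeff j
  have hψ : ∀ z, pol (ψ z) = (X - C z.1) * pol z.2 := by
    intro z
    refine pol_of (n := m + 1) ?_
    refine natDegree_mul_le.trans ?_
    have h1 : (X - C z.1 : F[X]).natDegree ≤ 1 := natDegree_X_sub_C_le _
    have h2 := pol_degree z.2
    omega
  have hinj : Set.InjOn ψ ((Set.univ : Set F) ×ˢ S) := by
    intro z hz w hw hzw
    have h1 : (X - C z.1) * pol z.2 = (X - C w.1) * pol w.2 := by rw [← hψ, ← hψ, hzw]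
    have h2 : z.1 = w.1 := by
      by_contra hne
      have h3 := congrArg (fun g : F[X] => g.eval z.1) h1
      simp only [eval_mul, eval_sub, eval_X, eval_C, sub_self, zero_mul] at h3
      have h4 : (pol w.2).eval z.1 = 0 := by
        rcases mul_eq_zero.1 h3.symm with h | h
        · exact absurd (sub_eq_zero.1 h) hne
        · exact h
      obtain ⟨q, hq⟩ := dvd_iff_isRoot.2 h4
      obtain ⟨hd, hi⟩ := hw.2
      rcases hi.isUnit_or_isUnit hq with h5 | h5
      · exact not_isUnit_X_sub_C z.1 h5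
      · have h6 : (pol w.2).natDegree = 1 := by
          rw [hq, natDegree_mul (X_sub_C_ne_zero _) h5.ne_zero, natDegree_X_sub_C,
            natDegree_eq_zero_of_isUnit h5]
        omega
    rw [h2] at h1
    exact Prod.ext h2 (pol_injective (mul_left_cancel₀ (X_sub_C_ne_zero _) h1))
  have h1 : (ψ '' ((Set.univ : Set F) ×ˢ S)).ncard ≤
      {c : Fin (m + 2) → F | ∃ (r : F) (g : F[X]), pol c = (X - C r) * g ∧
        g.natDegree = m ∧ Irreducible g}.ncard := by
    refine Set.ncard_le_ncard ?_ (Set.toFinite _)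
    rintro _ ⟨z, hz, rfl⟩
    exact ⟨z.1, pol z.2, hψ z, hz.2.1, hz.2.2⟩
  rw [Set.ncard_image_of_injOn hinj, Set.ncard_prod, Set.ncard_univ, Nat.card_eq_fintype_card]
    at h1
  have h2 := card_irrG F hm
  have h3 : ((Fintype.card F * S.ncard : ℕ) : ℝ) ≤
      (({c : Fin (m + 2) → F | ∃ (r : F) (g : F[X]), pol c = (X - C r) * g ∧
        g.natDegree = m ∧ Irreducible g}.ncard : ℕ) : ℝ) := by exact_mod_cast h1
  refine le_trans ?_ h3
  rw [Nat.cast_mul]
  calc (1 / (4 * m : ℝ)) * (Fintype.card F : ℝ) ^ (m + 2) =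
      Fintype.card F * ((1 / (4 * m : ℝ)) * (Fintype.card F : ℝ) ^ (m + 1)) := by
        ring
    _ ≤ _ := mul_le_mul_of_nonneg_left h2 (Nat.cast_nonneg _)

section count

variable {F : Type} [Field F] [Fintype F]

lemma card_zero_atG (m : ℕ) (r : F) :
    (univ.filter fun q : Fin (m + 1) → F => (pol q).eval r = 0).card ≤ Fintype.card F ^ m := by
  have h1 : Fintype.card (Fin m → F) = Fintype.card F ^ m := by
    rw [Fintype.card_fun, Fintype.card_fin]
  rw [← h1, ← Finset.card_univ]
  refine Finset.card_le_card_of_injOn (fun q j => q j.succ) (fun q _ => by simp) ?_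
  intro q hq q' hq' hqq
  rw [Finset.mem_coe, mem_filter, pol_eval, Fin.sum_univ_succ] at hq hq'
  have h2 : ∀ j : Fin m, q j.succ = q' j.succ := fun j => congrFun hqq j
  funext j
  refine Fin.cases ?_ h2 j
  have h3 := hq.2
  have h4 := hq'.2
  simp only [Fin.val_zero, pow_zero, mul_one, h2] at h3 h4
  linear_combination h3 - h4

/-- polynomials with two simple roots from a set of pairs -/
theorem card_from_pairs (hp4 : 4 ≤ Fintype.card F) (A : Finset (F × F))
    (hA : ∀ x ∈ A, x.1 ≠ x.2) (m : ℕ) :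
    (A.card : ℝ) * (Fintype.card F : ℝ) ^ (m + 1) ≤ 2 * (m + 2) ^ 2 *
      (({c : Fin (m + 3) → F | ∃ x ∈ A, (pol c).eval x.1 = 0 ∧ (pol c).eval x.2 = 0 ∧
        (derivative (pol c)).eval x.1 ≠ 0 ∧ (derivative (pol c)).eval x.2 ≠ 0}.ncard : ℕ) : ℝ) := by
  set p := Fintype.card F with hp
  let R : (F × F) → (Fin (m + 1) → F) → Prop := fun x q =>
    (pol q).eval x.1 ≠ 0 ∧ (pol q).eval x.2 ≠ 0
  have hR : ∀ x ∈ A, p ^ (m + 1) - 2 * p ^ m ≤ (univ.filter (R x)).card := by
    intro x _
    have h1 := card_zero_atG m x.1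
    have h2 := card_zero_atG m x.2
    have h3 : (univ : Finset (Fin (m + 1) → F)) ⊆ (univ.filter (R x)) ∪
        ((univ.filter fun q : Fin (m + 1) → F => (pol q).eval x.1 = 0) ∪
          (univ.filter fun q : Fin (m + 1) → F => (pol q).eval x.2 = 0)) := by
      intro q _
      rw [mem_union, mem_union, mem_filter, mem_filter, mem_filter]
      by_cases h4 : (pol q).eval x.1 = 0
      · exact Or.inr (Or.inl ⟨mem_univ _, h4⟩)
      · by_cases h5 : (pol q).eval x.2 = 0
        · exact Or.inr (Or.inr ⟨mem_univ _, h5⟩)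
        · exact Or.inl ⟨mem_univ _, h4, h5⟩
    have h6 := Finset.card_le_card h3
    have h7 := h6.trans (Finset.card_union_le _ _)
    have h8 := Finset.card_union_le
      (univ.filter fun q : Fin (m + 1) → F => (pol q).eval x.1 = 0)
      (univ.filter fun q : Fin (m + 1) → F => (pol q).eval x.2 = 0)
    rw [card_univ, Fintype.card_fun, Fintype.card_fin, ← hp] at h7
    rw [← hp] at h1 h2
    omega
  set T := (A ×ˢ (univ : Finset (Fin (m + 1) → F))).filter
    (fun z : (F × F) × (Fin (m + 1) → F) => R z.1 z.2) with hT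
  have hTc : A.card * (p ^ (m + 1) - 2 * p ^ m) ≤ T.card := by
    have := card_pair0 A R (p ^ (m + 1) - 2 * p ^ m) (fun x hx => by
      convert hR x hx)
    convert this
  let P : (F × F) × (Fin (m + 1) → F) → F[X] := fun z =>
    (X - C z.1.1) * ((X - C z.1.2) * pol z.2)
  have hPd : ∀ z, (P z).natDegree ≤ m + 2 := by
    intro z
    refine natDegree_mul_le.trans ?_
    have h1 : ((X - C z.1.2) * pol z.2).natDegree ≤ 1 + m := by
      refine natDegree_mul_le.trans ?_
      exact Nat.add_le_add (natDegree_X_sub_C_le _) (pol_degree _)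
    have h2 : (X - C z.1.1 : F[X]).natDegree ≤ 1 := natDegree_X_sub_C_le _
    omega
  let φ : (F × F) × (Fin (m + 1) → F) → (Fin (m + 3) → F) := fun z j =>
    (P z).coeff j
  have hφ : ∀ z, pol (φ z) = P z := fun z => pol_of (hPd z)
  have hT' : ∀ z ∈ T, z.1 ∈ A ∧
      (pol z.2).eval z.1.1 ≠ 0 ∧ (pol z.2).eval z.1.2 ≠ 0 ∧ z.1.1 ≠ z.1.2 := by
    intro z hz
    rw [hT, mem_filter, mem_product] at hz
    exact ⟨hz.1.1, hz.2.1, hz.2.2, hA _ hz.1.1⟩
  have hP0 : ∀ z ∈ T, P z ≠ 0 := by
    intro z hz h0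
    obtain ⟨-, h1, -, -⟩ := hT' z hz
    have h2 : pol z.2 = 0 := by
      rcases mul_eq_zero.1 h0 with h | h
      · exact absurd h (X_sub_C_ne_zero _)
      · rcases mul_eq_zero.1 h with h | h
        · exact absurd h (X_sub_C_ne_zero _)
        · exact h
    rw [h2, eval_zero] at h1
    exact h1 rfl
  have hfib : ∀ b ∈ T.image φ, (T.filter fun z => φ z = b).card ≤ (m + 2) ^ 2 := by
    intro b hb
    obtain ⟨z0, hz0, rfl⟩ := mem_image.1 hb
    set Q := P z0 with hQ
    have hQ0 : Q ≠ 0 := hP0 z0 hz0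
    have h1 : (T.filter fun z => φ z = φ z0).card ≤
        (Q.roots.toFinset ×ˢ Q.roots.toFinset).card := by
      refine Finset.card_le_card_of_injOn (fun z => z.1) ?_ ?_
      · intro z hz
        rw [Finset.mem_coe, mem_filter] at hz
        have h5 : P z = Q := by rw [← hφ, hz.2, hφ]
        rw [Finset.mem_coe, mem_product, Multiset.mem_toFinset, Multiset.mem_toFinset,
          mem_roots hQ0, mem_roots hQ0, ← h5]
        constructor
        · show (P z).eval z.1.1 = 0
          simp [P]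
        · show (P z).eval z.1.2 = 0
          simp [P]
      · intro z hz z' hz' hzz
        rw [Finset.mem_coe, mem_filter] at hz hz'
        have h5 : P z = P z' := by rw [← hφ, hz.2, ← hz'.2, hφ]
        have h6 : z.1 = z'.1 := hzz
        have h7 : pol z.2 = pol z'.2 := by
          have h8 : (X - C z.1.1) * ((X - C z.1.2) * pol z.2) =
              (X - C z.1.1) * ((X - C z.1.2) * pol z'.2) := by
            have h9 : P z' = (X - C z.1.1) * ((X - C z.1.2) * pol z'.2) := by
              simp only [P, h6]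
            rw [← h9]
            exact h5
          exact mul_left_cancel₀ (X_sub_C_ne_zero _) (mul_left_cancel₀ (X_sub_C_ne_zero _) h8)
        exact Prod.ext h6 (pol_injective h7)
    refine h1.trans ?_
    rw [card_product, sq]
    have h2 : Q.roots.toFinset.card ≤ m + 2 :=
      (Multiset.toFinset_card_le _).trans ((card_roots' _).trans (hPd z0))
    exact Nat.mul_le_mul h2 h2
  have h7 := Finset.card_le_mul_card_image T _ hfib
  set Ω : Set (Fin (m + 3) → F) := {c : Fin (m + 3) → F | ∃ x ∈ A, (pol c).eval x.1 = 0 ∧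
    (pol c).eval x.2 = 0 ∧ (derivative (pol c)).eval x.1 ≠ 0 ∧
    (derivative (pol c)).eval x.2 ≠ 0} with hΩ
  have h8 : (T.image φ).card ≤ Ω.ncard := by
    rw [← Set.ncard_coe_finset]
    refine Set.ncard_le_ncard ?_ (Set.toFinite _)
    intro c hc
    rw [Finset.mem_coe, mem_image] at hc
    obtain ⟨z, hz, rfl⟩ := hc
    obtain ⟨h1, h3, h4, h5⟩ := hT' z hz
    refine ⟨z.1, h1, ?_, ?_, ?_, ?_⟩
    · rw [hφ]; simp [P]
    · rw [hφ]; simp [P]
    · rw [hφ]
      simp only [P, derivative_mul, derivative_sub, derivative_X, derivative_C, sub_zero, one_mul,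
        eval_add, eval_mul, eval_sub, eval_X, eval_C, sub_self, zero_mul, add_zero]
      exact mul_ne_zero (sub_ne_zero.2 h5) h3
    · rw [hφ]
      simp only [P, derivative_mul, derivative_sub, derivative_X, derivative_C, sub_zero, one_mul,
        eval_add, eval_mul, eval_sub, eval_X, eval_C, sub_self, zero_mul, add_zero, zero_add]
      exact mul_ne_zero (sub_ne_zero.2 (Ne.symm h5)) h4
  -- the arithmetic
  have h9 : (A.card : ℝ) * ((p : ℝ) ^ (m + 1) / 2) ≤ T.card := by
    have h10 : (p : ℝ) ^ (m + 1) / 2 ≤ ((p ^ (m + 1) - 2 * p ^ m : ℕ) : ℝ) := by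
      have h11 : 2 * p ^ m ≤ p ^ (m + 1) := by
        rw [pow_succ, Nat.mul_comm]
        exact Nat.mul_le_mul_left _ (by omega)
      rw [Nat.cast_sub h11]
      push_cast
      have h12 : (4 : ℝ) ≤ p := by exact_mod_cast hp4
      have h13 : (0 : ℝ) ≤ (p : ℝ) ^ m := by positivity
      rw [pow_succ]
      nlinarith
    calc (A.card : ℝ) * ((p : ℝ) ^ (m + 1) / 2)
        ≤ (A.card : ℝ) * ((p ^ (m + 1) - 2 * p ^ m : ℕ) : ℝ) :=
          mul_le_mul_of_nonneg_left h10 (by positivity)
      _ ≤ T.card := by exact_mod_cast hTc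
  have h10 : (T.card : ℝ) ≤ (m + 2) ^ 2 * ((Ω.ncard : ℕ) : ℝ) := by
    have h11 : T.card ≤ (m + 2) ^ 2 * Ω.ncard :=
      h7.trans (Nat.mul_le_mul_left _ h8)
    exact_mod_cast h11
  linarith

/-- many polynomials have two distinct simple roots -/
lemma card_twoG (hp : 4 ≤ Fintype.card F) (m : ℕ) :
    (1 / (32 * (m + 2) ^ 2 : ℝ)) * (Fintype.card F : ℝ) ^ (m + 3) ≤
      ((Finset.univ.filter fun c : Fin (m + 3) → F => ∃ r r' : F, r ≠ r' ∧
        (pol c).eval r = 0 ∧ (pol c).eval r' = 0 ∧ (derivative (pol c)).eval r ≠ 0 ∧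
        (derivative (pol c)).eval r' ≠ 0).card : ℝ) := by
  have h1 := card_from_pairs hp (univ : Finset F).offDiag (fun x hx => (mem_offDiag.1 hx).2.2) m
  set p := Fintype.card F with hpd
  have h2 : (((univ : Finset F).offDiag.card : ℕ) : ℝ) = (p : ℝ) * p - p := by
    rw [offDiag_card, card_univ, ← hpd, Nat.cast_sub (Nat.le_mul_self p), Nat.cast_mul]
  rw [h2] at h1
  have h3 : (({c : Fin (m + 3) → F | ∃ x ∈ (univ : Finset F).offDiag, (pol c).eval x.1 = 0 ∧
      (pol c).eval x.2 = 0 ∧ (derivative (pol c)).eval x.1 ≠ 0 ∧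
      (derivative (pol c)).eval x.2 ≠ 0}.ncard : ℕ) : ℝ) ≤
      ((Finset.univ.filter fun c : Fin (m + 3) → F => ∃ r r' : F, r ≠ r' ∧
        (pol c).eval r = 0 ∧ (pol c).eval r' = 0 ∧ (derivative (pol c)).eval r ≠ 0 ∧
        (derivative (pol c)).eval r' ≠ 0).card : ℝ) := by
    rw [← Set.ncard_coe_finset]
    refine Nat.cast_le.2 (Set.ncard_le_ncard ?_ (Set.toFinite _))
    rintro c ⟨x, hx, h⟩
    rw [Finset.mem_coe, Finset.mem_filter]
    exact ⟨Finset.mem_univ _, x.1, x.2, (mem_offDiag.1 hx).2.2, h⟩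
  set Z := (Finset.univ.filter fun c : Fin (m + 3) → F => ∃ r r' : F, r ≠ r' ∧
        (pol c).eval r = 0 ∧ (pol c).eval r' = 0 ∧ (derivative (pol c)).eval r ≠ 0 ∧
        (derivative (pol c)).eval r' ≠ 0).card with hZ
  have hm : (0 : ℝ) < 2 * (m + 2) ^ 2 := by positivity
  have h4 := h1.trans (mul_le_mul_of_nonneg_left h3 hm.le)
  rw [div_mul_eq_mul_div, one_mul, div_le_iff₀ (by positivity)]
  have hp4 : (4 : ℝ) ≤ p := by exact_mod_cast hp
  have h5 : (0 : ℝ) ≤ (p : ℝ) ^ (m + 1) := by positivity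
  have h6 : (p : ℝ) * p / 2 ≤ (p : ℝ) * p - p := by nlinarith
  have h7 : (p : ℝ) ^ (m + 3) = ((p : ℝ) * p / 2) * (p : ℝ) ^ (m + 1) * 2 := by ring
  have h8 : (0 : ℝ) ≤ (m + 2 : ℝ) ^ 2 * (Z : ℝ) := by positivity
  have h9 := mul_le_mul_of_nonneg_right h6 h5
  rw [h7]
  nlinarith

/-- the values at two points -/
noncomputable def ev2G (N m : ℕ) (r r' : F) :
    (Fin N × Fin (m + 3) → F) →+ (Fin N → F) × (Fin N → F) where
  toFun c := (fun i => (pol fun j => c (i, j)).eval r, fun i => (pol fun j => c (i, j)).eval r')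
  map_zero' := by
    refine Prod.ext ?_ ?_ <;> funext i <;> simp [pol_eval]
  map_add' c d := by
    refine Prod.ext ?_ ?_ <;> funext i <;> simp [pol_eval, add_mul, Finset.sum_add_distrib]

lemma ev2G_surj {N m : ℕ} {r r' : F} (hr : r ≠ r') : Function.Surjective (ev2G N m r r') := by
  rintro ⟨u, w⟩
  let g : Fin N → F[X] := fun i =>
    C ((u i - w i) / (r - r')) * (X - C r) + C (u i)
  have hg : ∀ i, (g i).natDegree ≤ m + 2 := by
    intro i
    refine (natDegree_add_le _ _).trans (max_le ?_ ?_)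
    · refine natDegree_mul_le.trans ?_
      rw [natDegree_C, zero_add]
      refine (natDegree_X_sub_C_le _).trans (by omega)
    · rw [natDegree_C]
      omega
  refine ⟨fun q => (g q.1).coeff q.2, ?_⟩
  have h1 : ∀ i, pol (fun j : Fin (m + 3) => (g i).coeff j) = g i := fun i => pol_of (hg i)
  have hrr : r - r' ≠ 0 := sub_ne_zero.2 hr
  refine Prod.ext ?_ ?_
  · funext i
    show (pol fun j : Fin (m + 3) => (g i).coeff j).eval r = u i
    rw [h1]
    simp [g]
  · funext i
    show (pol fun j : Fin (m + 3) => (g i).coeff j).eval r' = w i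
    rw [h1]
    simp only [g, eval_add, eval_mul, eval_sub, eval_C, eval_X]
    field_simp
    ring

end count

end Pool.Agent.L5helper72.SG
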