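import Mathlib

/-!
# Algebraically independent elements with given residues
-/

set_option autoImplicit false
set_option linter.all false

open scoped Classical

namespace Pool.Agent.L5helper72.SG

open Cardinal

/-- an uncountable domain has an infinite transcendence basis over a countable subring -/
theorem infinite_basis {B O : Type} [CommRing B] [IsDomain B] [Countable B] [CommRing O]
    [IsDomain O] [Uncountable O] [Algebra B O] {s : Set O}
    (hs : IsTranscendenceBasis B ((↑) : s → O)) : s.Infinite := by
  intro hfin
  haveI : Finite s := hfin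
  haveI := hs.isAlgebraic
  have h1 := Algebra.IsAlgebraic.cardinalMk_le_max
    (Algebra.adjoin B (Set.range ((↑) : s → O))) O
  have h2 : #(Algebra.adjoin B (Set.range ((↑) : s → O))) = #(MvPolynomial s B) :=
    (Cardinal.eq.2 ⟨hs.1.aevalEquiv.toEquiv⟩).symm
  have h3 : #(MvPolynomial s B) ≤ ℵ₀ := by
    refine MvPolynomial.cardinalMk_le_max.trans ?_
    refine max_le (max_le ?_ ?_) le_rfl
    · exact Cardinal.mk_le_aleph0
    · exact Cardinal.mk_le_aleph0
  have h4 : #O ≤ ℵ₀ := h1.trans (max_le (h2.le.trans h3) le_rfl)
  exact not_countable (Cardinal.mk_le_aleph0_iff.1 h4)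

/-- lifts of a point with coordinates in `B` which are algebraically independent over `B` -/
theorem exists_indep {B O F : Type} [CommRing B] [IsDomain B] [Countable B] [CommRing O]
    [IsDomain O] [Uncountable O] [Field F] (θ : B →+* O) (hθ : Function.Injective θ)
    {τ : Type} [Finite τ] (b : τ → B) {P : B} (hP : P ≠ 0) (π : O →+* F)
    (hπ : π (θ P) = 0) :
    ∃ ψ : MvPolynomial τ B →+* O, Function.Injective ψ ∧ (∀ x, ψ (MvPolynomial.C x) = θ x) ∧
      ∀ i, π (ψ (MvPolynomial.X i)) = π (θ (b i)) := by
  letI : Algebra B O := θ.toAlgebra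
  have hal : ∀ x : B, algebraMap B O x = θ x := fun x => rfl
  haveI : FaithfulSMul B O := (faithfulSMul_iff_algebraMap_injective B O).2 hθ
  obtain ⟨s, hs⟩ := exists_isTranscendenceBasis B O
  have hinf := infinite_basis hs
  haveI : Infinite s := hinf.to_subtype
  obtain ⟨n, ⟨e⟩⟩ := Finite.exists_equiv_fin τ
  let g : τ → s := fun i => Infinite.natEmbedding s (e i)
  have hg : Function.Injective g := by
    intro i j hij
    exact e.injective (Fin.ext ((Infinite.natEmbedding s).injective hij))
  have hx : AlgebraicIndependent B (fun i : τ => (g i : O)) := hs.1.comp g hg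
  let f : τ → Polynomial B := fun i => Polynomial.C P * Polynomial.X + Polynomial.C (b i)
  have hf : ∀ i, Transcendental B (f i) := by
    intro i
    refine Polynomial.transcendental (f i) ?_ ?_
    · show (Polynomial.C P * Polynomial.X + Polynomial.C (b i)).natDegree ≠ 0
      rw [Polynomial.natDegree_linear hP]
      exact one_ne_zero
    · rw [mem_nonZeroDivisors_iff_ne_zero]
      show (Polynomial.C P * Polynomial.X + Polynomial.C (b i)).leadingCoeff ≠ 0
      rw [Polynomial.leadingCoeff_linear hP]
      exact hP
  have hy := hx.polynomial_aeval_of_transcendental hf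
  refine ⟨(MvPolynomial.aeval fun i => Polynomial.aeval (g i : O) (f i) :
    MvPolynomial τ B →ₐ[B] O).toRingHom, hy, ?_, ?_⟩
  · intro x
    exact (MvPolynomial.aeval _ : MvPolynomial τ B →ₐ[B] O).commutes x
  · intro i
    have h1 : (MvPolynomial.aeval fun i => Polynomial.aeval (g i : O) (f i) :
        MvPolynomial τ B →ₐ[B] O) (MvPolynomial.X i) = θ P * (g i : O) + θ (b i) := by
      rw [MvPolynomial.aeval_X]
      simp only [f, map_add, map_mul, Polynomial.aeval_C, Polynomial.aeval_X, hal]
    show π ((MvPolynomial.aeval fun i => Polynomial.aeval (g i : O) (f i) :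
        MvPolynomial τ B →ₐ[B] O) (MvPolynomial.X i)) = _
    rw [h1, map_add, map_mul, hπ, zero_mul, zero_add]

end Pool.Agent.L5helper72.SG
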