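import Pool.Agent.L5helper72.SG.Loc

/-!
# Primes modulo which a polynomial has a root; the completions
-/

set_option autoImplicit false
set_option linter.all false

open scoped Classical

namespace Pool.Agent.L5helper72.SG

open Polynomial

/-- there are infinitely many primes modulo which a given polynomial has a root -/
theorem schur {B : Type} [CommRing B] [IsDomain B] [UniqueFactorizationMonoid B] [Infinite B]
    [Finite Bˣ] (g : B[X]) (hg : 1 ≤ g.natDegree) (c : B) (hc : c ≠ 0) :
    ∃ P : B, Prime P ∧ ¬ P ∣ c ∧ ∃ x : B, P ∣ g.eval x := by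
  have hfin : ∀ (G : B[X]), 1 ≤ G.natDegree → ∀ v : B, {z : B | G.eval z = v}.Finite := by
    intro G hG v
    have h0 : G - C v ≠ 0 := by
      intro h
      have h1 := congrArg natDegree h
      rw [natDegree_sub_C, natDegree_zero] at h1
      omega
    refine (G - C v).roots.toFinset.finite_toSet.subset ?_
    intro z hz
    rw [Finset.mem_coe, Multiset.mem_toFinset, mem_roots h0]
    show (G - C v).eval z = 0
    rw [eval_sub, eval_C, sub_eq_zero]
    exact hz
  obtain ⟨x0, hx0⟩ : ∃ x0 : B, g.eval x0 ≠ 0 := by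
    by_contra hcon
    push Not at hcon
    exact Set.infinite_univ ((hfin g hg 0).subset fun z _ => hcon z)
  set a := g.eval x0 with ha
  set l : B[X] := C (a * c) * X + C x0 with hl
  have hac : a * c ≠ 0 := mul_ne_zero hx0 hc
  have hle : ∀ z : B, l.eval z = a * c * z + x0 := by
    intro z
    simp [hl]
  set G := g.comp l with hG
  have hGd : 1 ≤ G.natDegree := by
    rw [hG, natDegree_comp, hl, natDegree_linear hac, mul_one]
    exact hg
  have hGe : ∀ z, G.eval z = g.eval (a * c * z + x0) := by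
    intro z
    rw [hG, eval_comp, hle]
  -- the exceptional parameters
  have hbad : ({z : B | G.eval z = 0} ∪ ⋃ u : Bˣ, {z : B | G.eval z = a * u}).Finite :=
    (hfin G hGd 0).union (Set.finite_iUnion fun u => hfin G hGd _)
  obtain ⟨z, hz⟩ : ∃ z : B, z ∉ ({z : B | G.eval z = 0} ∪ ⋃ u : Bˣ, {z : B | G.eval z = a * u}) := by
    by_contra hcon
    push Not at hcon
    exact Set.infinite_univ (hbad.subset fun z _ => hcon z)
  rw [Set.mem_union, not_or, Set.mem_iUnion, not_exists] at hz
  obtain ⟨hz0, hzu⟩ := hz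
  obtain ⟨s, hs⟩ : a * c * z ∣ g.eval (a * c * z + x0) - a := by
    have h1 := Polynomial.sub_dvd_eval_sub (a * c * z + x0) x0 g
    rwa [add_sub_cancel_right, ← ha] at h1
  have hfac : G.eval z = a * (1 + c * (z * s)) := by
    rw [hGe, sub_eq_iff_eq_add.1 hs]
    ring
  set q := 1 + c * (z * s) with hq
  have hq0 : q ≠ 0 := by
    intro h
    apply hz0
    show G.eval z = 0
    rw [hfac, h, mul_zero]
  have hqu : ¬ IsUnit q := by
    rintro ⟨u, hu⟩
    apply hzu u
    show G.eval z = a * u
    rw [hfac, hu]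
  obtain ⟨P, hP, hPq⟩ := WfDvdMonoid.exists_irreducible_factor hqu hq0
  have hPp : Prime P := UniqueFactorizationMonoid.irreducible_iff_prime.1 hP
  refine ⟨P, hPp, ?_, a * c * z + x0, ?_⟩
  · intro hPc
    apply hP.not_isUnit
    apply isUnit_of_dvd_one
    have h1 : P ∣ q - c * (z * s) := dvd_sub hPq (hPc.mul_right _)
    rwa [hq, add_sub_cancel_right] at h1
  · rw [← hGe, hfac]
    exact hPq.mul_left _

section cpl

/-- the ring `B` of integers or of polynomials over a finite field: completions -/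
structure Cpl (B : Type) [CommRing B] (P : B) where
  O : Type
  F : Type
  [ring : CommRing O]
  [dom : IsDomain O]
  [ic : IsIntegrallyClosed O]
  [unc : Uncountable O]
  [fld : Field F]
  [fin : Finite F]
  π : O →+* F
  hr : HR π
  θ : B →+* O
  inj : Function.Injective θ
  surj : ∀ y : F, ∃ x : B, π (θ x) = y
  ker : ∀ x : B, π (θ x) = 0 ↔ P ∣ x

attribute [instance] Cpl.ring Cpl.dom Cpl.ic Cpl.unc Cpl.fld Cpl.fin

theorem uncountable_padic (p : ℕ) [Fact p.Prime] : Uncountable ℤ_[p] := by
  rw [← not_countable_iff]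
  intro hc
  have h1 : Countable ℚ_[p] := by
    have hs : Function.Surjective (fun z : ℤ_[p] × ℤ_[p] => (z.1 : ℚ_[p]) / (z.2 : ℚ_[p])) := by
      intro x
      obtain ⟨a, b, hb, rfl⟩ := IsFractionRing.div_surjective (A := ℤ_[p]) x
      exact ⟨(a, b), rfl⟩
    exact hs.countable
  have h2 := continuum_le_cardinal_of_nontriviallyNormedField ℚ_[p]
  have h3 : Cardinal.mk ℚ_[p] ≤ Cardinal.aleph0 := Cardinal.mk_le_aleph0
  exact absurd (h2.trans h3) (not_le.2 Cardinal.aleph0_lt_continuum)

theorem uncountable_ps (F : Type) [Field F] : Uncountable (PowerSeries F) := by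
  rw [← not_countable_iff]
  intro hc
  let f : Set ℕ → PowerSeries F := fun s => PowerSeries.mk fun n => if n ∈ s then 1 else 0
  have hf : Function.Injective f := by
    intro s t hst
    ext n
    have h1 := congrArg (PowerSeries.coeff n) hst
    simp only [f, PowerSeries.coeff_mk] at h1
    by_cases hs : n ∈ s <;> by_cases ht : n ∈ t <;> simp_all
  have h1 : Countable (Set ℕ) := hf.countable
  have h2 : Cardinal.mk (Set ℕ) ≤ Cardinal.aleph0 := Cardinal.mk_le_aleph0
  rw [Cardinal.mk_set, Cardinal.mk_nat] at h2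
  exact absurd h2 (not_le.2 (Cardinal.cantor _))

/-- the integers -/
theorem cpl_int (P : ℤ) (hP : Prime P) : ∃ c : Cpl ℤ P, Nat.card c.F = P.natAbs := by
  have hp : P.natAbs.Prime := Int.prime_iff_natAbs_prime.1 hP
  haveI : Fact P.natAbs.Prime := ⟨hp⟩
  haveI := uncountable_padic P.natAbs
  refine ⟨{ O := ℤ_[P.natAbs], F := ZMod P.natAbs, π := PadicInt.toZMod, hr := hr_padic _,
            θ := Int.castRingHom _, inj := ?_, surj := ?_, ker := ?_ }, ?_⟩
  · intro x y h
    exact Int.cast_injective (α := ℤ_[P.natAbs]) h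
  · intro y
    obtain ⟨x, rfl⟩ := ZMod.intCast_surjective y
    exact ⟨x, by simp⟩
  · intro x
    have h1 : (PadicInt.toZMod ((Int.castRingHom ℤ_[P.natAbs]) x) : ZMod P.natAbs) = (x : ZMod _) := by
      simp
    rw [h1, ZMod.intCast_zmod_eq_zero_iff_dvd, Int.natAbs_dvd]
  · exact Nat.card_zmod _

/-- polynomials over a finite field -/
theorem cpl_poly {κ : Type} [Field κ] [Finite κ] (P : κ[X]) (hP : Prime P) :
    ∃ c : Cpl κ[X] P, Nat.card c.F = Nat.card κ ^ P.natDegree ∧
      (∀ y : c.F, ∃ x : κ[X], c.π (c.θ x) = y) := by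
  haveI : Fact (Irreducible P) := ⟨hP.irreducible⟩
  let F := AdjoinRoot P
  have hP0 : P ≠ 0 := hP.ne_zero
  let pb := AdjoinRoot.powerBasis hP0
  haveI : Module.Finite κ F := pb.finite
  haveI : Finite F := Module.finite_of_finite κ
  haveI := uncountable_ps F
  let r : F := AdjoinRoot.root P
  let θ : κ[X] →+* PowerSeries F :=
    (Polynomial.coeToPowerSeries.ringHom (R := F)).comp
      ((compRingHom (X + C r)).comp (mapRingHom (AdjoinRoot.of P)))
  have hθ : ∀ x : κ[X], θ x = (((x.map (AdjoinRoot.of P)).comp (X + C r) : F[X]) :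
      PowerSeries F) := fun x => rfl
  have hπθ : ∀ x : κ[X], PowerSeries.constantCoeff (θ x) = AdjoinRoot.mk P x := by
    intro x
    rw [hθ, Polynomial.constantCoeff_coe, coeff_zero_eq_eval_zero, eval_comp]
    simp only [eval_add, eval_X, eval_C, zero_add]
    rw [eval_map, ← AdjoinRoot.aeval_eq]
    rfl
  have hsurj : ∀ y : F, ∃ x : κ[X], PowerSeries.constantCoeff (θ x) = y := by
    intro y
    obtain ⟨x, rfl⟩ := AdjoinRoot.mk_surjective y
    exact ⟨x, hπθ x⟩
  refine ⟨{ O := PowerSeries F, F := F, π := PowerSeries.constantCoeff, hr := hr_ps F,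
            θ := θ, inj := ?_, surj := hsurj, ker := ?_ }, ?_, hsurj⟩
  · intro x y h
    rw [hθ, hθ] at h
    have h1 := Polynomial.coe_injective F h
    have h2 := congrArg (fun q : F[X] => q.comp (X - C r)) h1
    simp only [comp_assoc, add_comp, X_comp, C_comp, sub_add_cancel, comp_X] at h2
    exact Polynomial.map_injective _ (AdjoinRoot.of P).injective h2
  · intro x
    rw [hπθ, AdjoinRoot.mk_eq_zero]
  · show Nat.card F = _
    rw [Module.natCard_eq_pow_finrank (K := κ), pb.finrank, AdjoinRoot.powerBasis_dim]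

end cpl

end Pool.Agent.L5helper72.SG
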