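import Pool.Agent.L5helper72.SG.EmbG
import Pool.Agent.L5helper72.SG.Ind
import Pool.Agent.L5helper72.SG.Sch

/-!
# Embeddings of finitely generated fields
-/

set_option autoImplicit false
set_option linter.all false

open scoped Classical

namespace Pool.Agent.L5helper72.SG

open Polynomial

theorem comb {B k τ : Type} [CommRing B] [IsDomain B] [UniqueFactorizationMonoid B] [Infinite B]
    [Countable B] [Finite Bˣ] [Finite τ] [Field k] [Algebra (MvPolynomial τ B) k]
    (K0 : Type) [Field K0] [Algebra (MvPolynomial τ B) K0]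
    [IsFractionRing (MvPolynomial τ B) K0] [Algebra K0 k]
    [IsScalarTower (MvPolynomial τ B) K0 k] [FiniteDimensional K0 k] [Algebra.IsSeparable K0 k]
    (size : B → ℕ) (cpl : ∀ P : B, Prime P → ∃ c : Cpl B P, Nat.card c.F = size P)
    (E : Finset k) (hE : ∀ e ∈ E, e ≠ 0) (c0 : B) (hc0 : c0 ≠ 0) :
    ∃ (P : B) (_ : Prime P) (_ : ¬ P ∣ c0) (c : Cpl B P) (_ : Nat.card c.F = size P)
      (σ : k →+* FractionRing c.O),
      (∀ x : B, σ (algebraMap (MvPolynomial τ B) k (MvPolynomial.C x)) =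
        algebraMap c.O (FractionRing c.O) (c.θ x)) ∧
      ∀ e ∈ E, ∃ u : c.Oˣ, σ e = algebraMap c.O (FractionRing c.O) u := by
  obtain ⟨f, h, hh, hfd, ⟨w, hw⟩, H⟩ := emb (D := MvPolynomial τ B) K0 E hE
  obtain ⟨b, hb⟩ : ∃ b : τ → B, MvPolynomial.eval b h ≠ 0 := by
    by_contra hcon
    push Not at hcon
    exact hh (MvPolynomial.funext fun b => by rw [hcon b, map_zero])
  have hlc : MvPolynomial.eval b f.leadingCoeff ≠ 0 := by
    intro h0
    apply hb
    rw [hw, map_mul, h0, zero_mul]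
  set g : B[X] := f.map (MvPolynomial.eval b) with hg
  have hgd : 1 ≤ g.natDegree := by
    rw [hg, natDegree_map_of_leadingCoeff_ne_zero _ hlc]
    exact hfd
  obtain ⟨P, hP, hPc, x, hx⟩ := schur g hgd (MvPolynomial.eval b h * c0) (mul_ne_zero hb hc0)
  have hPh : ¬ P ∣ MvPolynomial.eval b h := fun hd => hPc (hd.mul_right _)
  have hPc0 : ¬ P ∣ c0 := fun hd => hPc (hd.mul_left _)
  obtain ⟨c, hc⟩ := cpl P hP
  obtain ⟨ψ, hψ, hψC, hψX⟩ := exists_indep c.θ c.inj b hP.ne_zero c.π ((c.ker P).2 dvd_rfl)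
  have hcomp : c.π.comp ψ = (c.π.comp c.θ).comp (MvPolynomial.eval b) := by
    refine MvPolynomial.ringHom_ext ?_ ?_
    · intro r
      simp only [RingHom.comp_apply, hψC, MvPolynomial.eval_C]
    · intro i
      simp only [RingHom.comp_apply, hψX, MvPolynomial.eval_X]
  have h1 : c.π (ψ h) ≠ 0 := by
    have e1 : c.π (ψ h) = c.π (c.θ (MvPolynomial.eval b h)) := RingHom.congr_fun hcomp h
    rw [e1, Ne, c.ker]
    exact hPh
  have h2 : (f.map (c.π.comp ψ)).eval (c.π (c.θ x)) = 0 := by
    have e1 : f.map (c.π.comp ψ) = g.map (c.π.comp c.θ) := by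
      rw [hg, Polynomial.map_map, hcomp]
    have e2 : c.π (c.θ x) = (c.π.comp c.θ) x := rfl
    rw [e1, e2, eval_map, eval₂_hom]
    exact (c.ker _).2 hx
  obtain ⟨σ, hσ, hσE⟩ := H c.O c.F (FractionRing c.O) c.π c.hr ψ hψ h1 _ h2
  refine ⟨P, hP, hPc0, c, hc, σ, ?_, hσE⟩
  intro y
  rw [hσ, hψC]

/-- a finitely generated algebraic extension is finite -/
theorem finiteDimensional_of_fg (K0 k : Type) [Field K0] [Field k] [Algebra K0 k]
    [Algebra.IsAlgebraic K0 k] [Algebra.EssFiniteType K0 k] : FiniteDimensional K0 k := by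
  obtain ⟨s, hs⟩ := IntermediateField.fg_top K0 k
  haveI : FiniteDimensional K0 (IntermediateField.adjoin K0 (s : Set k)) :=
    IntermediateField.finiteDimensional_adjoin fun x _ => Algebra.IsIntegral.isIntegral x
  rw [hs] at this
  exact IntermediateField.topEquiv.toLinearEquiv.finiteDimensional

/-- the field generated by a transcendence basis -/
theorem isFractionRing_adjoin {κ0 k D : Type} [Field κ0] [Field k] [Algebra κ0 k] [CommRing D]
    (s : Set k) (j : D →+* k) (hj : Function.Injective j)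
    (hr : ∀ x, j x ∈ IntermediateField.adjoin κ0 s)
    (hs : ∀ z ∈ Algebra.adjoin κ0 s, ∃ x y : D, j y ≠ 0 ∧ z = j x / j y) :
    letI : Algebra D (IntermediateField.adjoin κ0 s) := (j.codRestrict _ hr).toAlgebra
    IsFractionRing D (IntermediateField.adjoin κ0 s) := by
  letI : Algebra D (IntermediateField.adjoin κ0 s) := (j.codRestrict _ hr).toAlgebra
  have hal : ∀ x : D, ((algebraMap D (IntermediateField.adjoin κ0 s) x :
      IntermediateField.adjoin κ0 s) : k) = j x := fun x => rfl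
  haveI : FaithfulSMul D (IntermediateField.adjoin κ0 s) := by
    rw [faithfulSMul_iff_algebraMap_injective]
    intro x y hxy
    apply hj
    rw [← hal, ← hal, hxy]
  refine IsFractionRing.of_field _ _ fun z => ?_
  obtain ⟨a, ha, b, hb, hab⟩ := IntermediateField.mem_adjoin_iff_div.1 z.2
  obtain ⟨x, y, hy, hxy⟩ := hs a ha
  obtain ⟨x', y', hy', hxy'⟩ := hs b hb
  refine ⟨x * y', y * x', ?_⟩
  apply Subtype.ext
  have h1 : (((algebraMap D (IntermediateField.adjoin κ0 s) (x * y') /
      algebraMap D (IntermediateField.adjoin κ0 s) (y * x') :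
      IntermediateField.adjoin κ0 s)) : k) = j (x * y') / j (y * x') := rfl
  rw [h1, hab, hxy, hxy', map_mul, map_mul]
  by_cases hx' : j x' = 0
  · rw [hx', zero_div, div_zero, mul_zero, div_zero]
  · field_simp

end Pool.Agent.L5helper72.SG
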