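import Pool.Agent.L5helper72.SG.Obs

/-!
# The density principle
-/

set_option autoImplicit false
set_option linter.all false

open scoped Classical

namespace Pool.Agent.L5helper72.SG

open Pool.Agent.R431.SG Filter Topology

/-- a surjective homomorphism to a finite field which lifts to a henselian ring -/
structure Pt (A : Type) [CommRing A] (ℓ : ℕ) where
  F : Type
  [fld : Field F]
  [fin : Fintype F]
  ρ : A →+* F
  surj : Function.Surjective ρ
  lift : Liftable ρ
  np : ∃ γ : F, NP ℓ γ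

attribute [instance] Pt.fld Pt.fin

/-- there are such homomorphisms to arbitrarily large fields; to prime fields in characteristic
zero -/
def Rich (A : Type) [CommRing A] (ℓ : ℕ) : Prop := ∀ B : ℕ, ∃ P : Pt A ℓ, B ≤ Fintype.card P.F ∧
  (CharZero A → (Fintype.card P.F).Prime)

/-- the ideal has finite index, and a cyclic quotient in characteristic zero -/
def Adm {A : Type} [CommRing A] (𝔞 : Ideal A) : Prop :=
  Finite (A ⧸ 𝔞) ∧ (CharZero A → ∀ x : A ⧸ 𝔞, ∃ n : ℤ, (n : A ⧸ 𝔞) = x)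

/-- the finite sets `S M` of tuples are equidistributed modulo all these ideals -/
def Equi {A I : Type} [CommRing A] [Fintype I] (S : ℕ → Finset (I → A)) : Prop :=
  ∀ 𝔞 : Ideal A, Adm 𝔞 → ∀ x : I → A,
    Tendsto (fun M => ((((S M).filter fun c => ∀ i, c i - x i ∈ 𝔞).card : ℕ) : ℝ) /
      ((S M).card : ℝ)) atTop (𝓝 (1 / (Nat.card (A ⧸ 𝔞) : ℝ) ^ Fintype.card I))

section dens

variable {A I : Type} [CommRing A] [Fintype I]

theorem equi_tendsto {S : ℕ → Finset (I → A)} (hS : Equi S) {bad : (I → A) → Prop}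
    (h : ∀ η : ℝ, 0 < η → ∃ 𝔞 : Ideal A, Adm 𝔞 ∧ ∃ Z : Set (I → A ⧸ 𝔞),
      (Z.ncard : ℝ) ≤ η * (Nat.card (A ⧸ 𝔞) : ℝ) ^ Fintype.card I ∧
        ∀ c : I → A, bad c → (fun i => Ideal.Quotient.mk 𝔞 (c i)) ∈ Z) :
    Tendsto (fun M => ((((S M).filter fun c => bad c).card : ℕ) : ℝ) /
      ((S M).card : ℝ)) atTop (𝓝 0) := by
  rw [Metric.tendsto_atTop]
  intro ε hε
  obtain ⟨𝔞, hfin, Z, hZ, hbad⟩ := h (ε / 2) (by positivity)
  haveI := hfin.1
  haveI : Fintype (A ⧸ 𝔞) := Fintype.ofFinite _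
  have hpos : (0 : ℝ) < (Nat.card (A ⧸ 𝔞) : ℝ) ^ Fintype.card I := by
    have : 0 < Nat.card (A ⧸ 𝔞) := Nat.card_pos
    positivity
  have hsur : Function.Surjective (Ideal.Quotient.mk 𝔞) := Ideal.Quotient.mk_surjective
  have hZf : Z.Finite := Set.toFinite Z
  set ZF := hZf.toFinset with hZF
  have hcard : ZF.card = Z.ncard := (Set.ncard_eq_toFinset_card Z hZf).symm
  have hrep : ∀ z : I → A ⧸ 𝔞, ∃ x : I → A, (fun i => Ideal.Quotient.mk 𝔞 (x i)) = z := by
    intro z
    choose x hx using fun i => hsur (z i)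
    exact ⟨x, funext hx⟩
  choose x hx using hrep
  have hlim : Tendsto (fun M => ∑ z ∈ ZF, ((((S M).filter fun c => ∀ i, c i - x z i ∈ 𝔞).card :
      ℕ) : ℝ) / ((S M).card : ℝ)) atTop
      (𝓝 (∑ z ∈ ZF, 1 / (Nat.card (A ⧸ 𝔞) : ℝ) ^ Fintype.card I)) :=
    tendsto_finset_sum _ fun z _ => hS 𝔞 hfin (x z)
  rw [Finset.sum_const, nsmul_eq_mul, hcard, mul_one_div] at hlim
  have hle : (Z.ncard : ℝ) / (Nat.card (A ⧸ 𝔞) : ℝ) ^ Fintype.card I ≤ ε / 2 := by
    rw [div_le_iff₀ hpos]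
    exact hZ
  have hev : ∀ᶠ M in atTop, ∑ z ∈ ZF, ((((S M).filter fun c => ∀ i, c i - x z i ∈ 𝔞).card :
      ℕ) : ℝ) / ((S M).card : ℝ) < ε := hlim.eventually_lt_const (by linarith)
  obtain ⟨M0, hM0⟩ := eventually_atTop.1 hev
  refine ⟨M0, fun M hM => ?_⟩
  have h0 : (0 : ℝ) ≤ ((((S M).filter fun c => bad c).card : ℕ) : ℝ) / ((S M).card : ℝ) := by
    positivity
  rw [Real.dist_eq, sub_zero, abs_of_nonneg h0]
  refine lt_of_le_of_lt ?_ (hM0 M hM)
  rw [← Finset.sum_div]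
  refine div_le_div_of_nonneg_right ?_ (Nat.cast_nonneg _)
  rw [← Nat.cast_sum]
  refine Nat.cast_le.2 ?_
  have hsub : ((S M).filter fun c => bad c) ⊆ ZF.biUnion fun z =>
      (S M).filter fun c => ∀ i, c i - x z i ∈ 𝔞 := by
    intro c hc
    rw [Finset.mem_filter] at hc
    rw [Finset.mem_biUnion]
    refine ⟨fun i => Ideal.Quotient.mk 𝔞 (c i), hZf.mem_toFinset.2 (hbad c hc.2), ?_⟩
    rw [Finset.mem_filter]
    refine ⟨hc.1, fun i => ?_⟩
    rw [← Ideal.Quotient.eq]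
    exact (congrFun (hx fun i => Ideal.Quotient.mk 𝔞 (c i)) i).symm
  exact (Finset.card_le_card hsub).trans Finset.card_biUnion_le

/-- the Chinese remainder theorem for finite fields of different sizes -/
theorem crt_fields {R : Type} [CommRing R] {J : ℕ} (F : Fin J → Type) [∀ j, Field (F j)]
    [∀ j, Fintype (F j)] (hF : ∀ i j, Fintype.card (F i) = Fintype.card (F j) → i = j)
    (ρ : ∀ j, R →+* F j) (hρ : ∀ j, Function.Surjective (ρ j)) (y : ∀ j, F j) :
    ∃ a : R, ∀ j, ρ j a = y j := by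
  let 𝔪 : Fin J → Ideal R := fun j => RingHom.ker (ρ j)
  have hmax : ∀ j, (𝔪 j).IsMaximal := fun j => RingHom.ker_isMaximal_of_surjective _ (hρ j)
  have hcop : Pairwise fun i j => IsCoprime (𝔪 i) (𝔪 j) := by
    intro i j hij
    rw [Ideal.isCoprime_iff_sup_eq]
    refine (hmax i).coprime_of_ne (hmax j) ?_
    intro he
    apply hij
    have e1 : (R ⧸ 𝔪 i) ≃+* F i := RingHom.quotientKerEquivOfSurjective (hρ i)
    have e2 : (R ⧸ 𝔪 j) ≃+* F j := RingHom.quotientKerEquivOfSurjective (hρ j)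
    have e3 : (R ⧸ 𝔪 i) ≃+* (R ⧸ 𝔪 j) := Ideal.quotEquivOfEq he
    exact hF i j (Fintype.card_congr ((e1.symm.trans (e3.trans e2)).toEquiv))
  choose g hg using fun j : Fin J => hρ j (y j)
  obtain ⟨a, ha⟩ := Ideal.exists_forall_sub_mem_ideal (I := 𝔪) hcop g
  refine ⟨a, fun j => ?_⟩
  have h2 : ρ j (a - g j) = 0 := ha j
  rw [map_sub, hg, sub_eq_zero] at h2
  exact h2

theorem int_surj_of_prime {F : Type} [Field F] [Fintype F] (h : (Fintype.card F).Prime) :
    Function.Surjective (Int.castRingHom F) := by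
  haveI : Fact (Nat.card F).Prime := ⟨by rw [Nat.card_eq_fintype_card]; exact h⟩
  have h1 := AddSubgroup.eq_bot_or_eq_top_of_prime_card ((Int.castRingHom F).toAddMonoidHom.range)
  rcases h1 with h1 | h1
  · exfalso
    have h2 : (1 : F) ∈ (Int.castRingHom F).toAddMonoidHom.range := ⟨1, by simp⟩
    rw [h1, AddSubgroup.mem_bot] at h2
    exact one_ne_zero h2
  · intro x
    have h2 : x ∈ (Int.castRingHom F).toAddMonoidHom.range := by rw [h1]; exact trivial
    exact h2

/-- **The density principle.** -/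
theorem dens {ℓ : ℕ} (hA : Rich A ℓ) {Λ : Type} [Fintype Λ]
    (Ω : Λ → (F : Type) → [Field F] → Set (I → F)) {δ : ℝ} (hδ0 : 0 < δ) (hδ1 : δ ≤ 1) (B0 : ℕ)
    (hΩ : ∀ (S : Λ) (F : Type) [Field F] [Fintype F], (∃ γ : F, NP ℓ γ) → B0 ≤ Fintype.card F →
      δ * (Fintype.card F : ℝ) ^ Fintype.card I ≤ ((Ω S F).ncard : ℝ))
    (η : ℝ) (hη : 0 < η) :
    ∃ 𝔞 : Ideal A, Adm 𝔞 ∧ ∃ Z : Set (I → A ⧸ 𝔞),
      (Z.ncard : ℝ) ≤ η * (Nat.card (A ⧸ 𝔞) : ℝ) ^ Fintype.card I ∧
        ∀ c : I → A, (¬ ∀ S : Λ, ∃ (F : Type) (_ : Field F) (ρ : A →+* F),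
          Liftable ρ ∧ (fun q => ρ (c q)) ∈ Ω S F) →
          (fun i => Ideal.Quotient.mk 𝔞 (c i)) ∈ Z := by
  -- the number of places
  obtain ⟨J, hJ⟩ : ∃ J : ℕ, (Fintype.card Λ : ℝ) * (1 - δ) ^ J ≤ η := by
    have h1 : Tendsto (fun J : ℕ => (Fintype.card Λ : ℝ) * (1 - δ) ^ J) atTop (𝓝 0) := by
      have := (tendsto_pow_atTop_nhds_zero_of_lt_one (r := 1 - δ) (by linarith)
        (by linarith)).const_mul (Fintype.card Λ : ℝ)
      rwa [mul_zero] at this
    obtain ⟨J, hJ⟩ := (h1.eventually_lt_const hη).exists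
    exact ⟨J, hJ.le⟩
  choose P hP hPp using hA
  obtain ⟨t, htB, htm, htp⟩ : ∃ t : ℕ → Pt A ℓ, (∀ j : ℕ, B0 ≤ Fintype.card (t j).F) ∧
      (StrictMono fun j : ℕ => Fintype.card (t j).F) ∧
      ∀ j, CharZero A → (Fintype.card (t j).F).Prime := by
    let cd : Pt A ℓ → ℕ := fun Q => Fintype.card Q.F
    have hcd : ∀ B, B ≤ cd (P B) := hP
    let t : ℕ → Pt A ℓ := fun j =>
      Nat.rec (motive := fun _ => Pt A ℓ) (P B0) (fun _ Q => P (cd Q + 1 + B0)) j
    have h1 : ∀ j : ℕ, t (j + 1) = P (cd (t j) + 1 + B0) := fun j => rfl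
    have h0 : t 0 = P B0 := rfl
    clear_value t
    refine ⟨t, ?_, strictMono_nat_of_lt_succ ?_, ?_⟩
    · intro j
      show B0 ≤ cd (t j)
      cases j with
      | zero => rw [h0]; exact hcd _
      | succ j =>
        rw [h1]
        have := hcd (cd (t j) + 1 + B0)
        omega
    · intro j
      show cd (t j) < cd (t (j + 1))
      rw [h1]
      have := hcd (cd (t j) + 1 + B0)
      omega
    · intro j hA0
      cases j with
      | zero => rw [h0]; exact hPp _ hA0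
      | succ j => rw [h1]; exact hPp _ hA0
  have hcardinj : ∀ i j : Fin J, Fintype.card (t i).F = Fintype.card (t j).F → i = j :=
    fun i j h => Fin.ext (htm.injective h)
  let 𝔪 : Fin J → Ideal A := fun j => RingHom.ker (t j).ρ
  set 𝔞 : Ideal A := ⨅ j, 𝔪 j with h𝔞
  have hker : ∀ (j : Fin J) (a : A), a ∈ 𝔞 → (t j).ρ a = 0 := by
    intro j a ha
    rw [h𝔞, Submodule.mem_iInf] at ha
    exact ha j
  let lf : (j : Fin J) → (A ⧸ 𝔞 →+* (t j).F) := fun j => Ideal.Quotient.lift 𝔞 (t j).ρ (hker j)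
  have hlf : ∀ (j : Fin J) (a : A), lf j (Ideal.Quotient.mk 𝔞 a) = (t j).ρ a := fun j a =>
    Ideal.Quotient.lift_mk _ _ _
  have hfin : Finite (A ⧸ 𝔞) := by
    refine Finite.of_injective (β := (j : Fin J) → (t j).F) (fun x j => lf j x) ?_
    intro x y hxy
    obtain ⟨a, rfl⟩ := Ideal.Quotient.mk_surjective x
    obtain ⟨b, rfl⟩ := Ideal.Quotient.mk_surjective y
    rw [Ideal.Quotient.eq, h𝔞, Submodule.mem_iInf]
    intro j
    have h1 := congrFun hxy j
    simp only [hlf] at h1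
    show (t j).ρ (a - b) = 0
    rw [map_sub, h1, sub_self]
  haveI : Fintype (A ⧸ 𝔞) := Fintype.ofFinite _
  have hlfi : ∀ x y : A ⧸ 𝔞, (∀ j, lf j x = lf j y) → x = y := by
    intro x y hxy
    obtain ⟨a, rfl⟩ := Ideal.Quotient.mk_surjective x
    obtain ⟨b, rfl⟩ := Ideal.Quotient.mk_surjective y
    rw [Ideal.Quotient.eq, h𝔞, Submodule.mem_iInf]
    intro j
    have h1 := hxy j
    simp only [hlf] at h1
    show (t j).ρ (a - b) = 0
    rw [map_sub, h1, sub_self]
  have hadm : Adm 𝔞 := by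
    refine ⟨hfin, fun hA0 x => ?_⟩
    obtain ⟨n, hn⟩ := crt_fields (R := ℤ) (fun j : Fin J => (t j).F) hcardinj
      (fun j => Int.castRingHom _) (fun j => int_surj_of_prime (htp j hA0)) (fun j => lf j x)
    refine ⟨n, hlfi _ _ fun j => ?_⟩
    rw [map_intCast]
    exact hn j
  let f : (I → A ⧸ 𝔞) →+ ((j : Fin J) → I → (t j).F) :=
    { toFun := fun x j i => lf j (x i)
      map_zero' := by funext j i; simp
      map_add' := by intro x y; funext j i; simp }
  have hf : Function.Surjective f := by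
    intro h
    have h1 : ∀ i : I, ∃ a : A, ∀ j : Fin J, (t j).ρ a = h j i := fun i =>
      crt_fields (fun j : Fin J => (t j).F) hcardinj (fun j => (t j).ρ) (fun j => (t j).surj)
        fun j => h j i
    choose a ha using h1
    refine ⟨fun i => Ideal.Quotient.mk 𝔞 (a i), ?_⟩
    funext j i
    show lf j (Ideal.Quotient.mk 𝔞 (a i)) = h j i
    rw [hlf, ha]
  refine ⟨𝔞, hadm, {x | ∃ S : Λ, ∀ j : Fin J, f x j ∉ Ω S (t j).F}, ?_, ?_⟩
  · -- the count
    set H := (j : Fin J) → I → (t j).F with hH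
    have hcH : (Fintype.card H : ℝ) = ∏ j : Fin J, (Fintype.card (t j).F : ℝ) ^ Fintype.card I := by
      rw [Fintype.card_pi, Nat.cast_prod]
      refine Finset.prod_congr rfl fun j _ => ?_
      rw [Fintype.card_fun, Nat.cast_pow]
    have hHpos : (0 : ℝ) < Fintype.card H := by
      haveI : Nonempty H := ⟨0⟩
      exact_mod_cast Fintype.card_pos
    have hone : ∀ S : Λ, ({x | ∀ j : Fin J, f x j ∉ Ω S (t j).F}.ncard : ℝ) ≤
        (1 - δ) ^ J * (Nat.card (A ⧸ 𝔞) : ℝ) ^ Fintype.card I := by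
      intro S
      set Z : Set H := {h | ∀ j : Fin J, h j ∉ Ω S (t j).F} with hZ
      have h1 := card_preim f hf Z
      have h2 : Z.ncard = ∏ j : Fin J, (Finset.univ.filter fun u : I → (t j).F =>
          u ∉ Ω S (t j).F).card := by
        have h3 : Z = ((Fintype.piFinset fun j : Fin J => Finset.univ.filter
            fun u : I → (t j).F => u ∉ Ω S (t j).F : Finset H) : Set H) := by
          ext h
          rw [Finset.mem_coe, Fintype.mem_piFinset, hZ, Set.mem_setOf_eq]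
          exact forall_congr' fun j => by rw [Finset.mem_filter]; simp
        rw [h3, Set.ncard_coe_finset, Fintype.card_piFinset]
      have h4 : (Z.ncard : ℝ) ≤ (1 - δ) ^ J * (Fintype.card H : ℝ) := by
        rw [h2, hcH, Nat.cast_prod]
        have h5 : (1 - δ) ^ J = ∏ _j : Fin J, (1 - δ) := by
          rw [Finset.prod_const, Finset.card_univ, Fintype.card_fin]
        rw [h5, ← Finset.prod_mul_distrib]
        refine Finset.prod_le_prod (fun j _ => Nat.cast_nonneg _) fun j _ => ?_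
        have h6 := hΩ S (t j).F (t j).np (htB j)
        have h7 : (Ω S (t j).F).ncard = (Finset.univ.filter fun u : I → (t j).F =>
            u ∈ Ω S (t j).F).card := by
          rw [← Set.ncard_coe_finset]
          congr 1
          ext u
          simp
        have h8 := Finset.card_filter_add_card_filter_not (s := (Finset.univ :
          Finset (I → (t j).F))) (fun u => u ∈ Ω S (t j).F)
        rw [Finset.card_univ, Fintype.card_fun] at h8
        have h9 : (((Finset.univ.filter fun u : I → (t j).F => u ∈ Ω S (t j).F).card : ℕ) : ℝ) +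
            (((Finset.univ.filter fun u : I → (t j).F => ¬ u ∈ Ω S (t j).F).card : ℕ) : ℝ) =
            (Fintype.card (t j).F : ℝ) ^ Fintype.card I := by
          exact_mod_cast h8
        rw [h7] at h6
        linarith
      have h10 : ({x | f x ∈ Z}.ncard : ℝ) * (Fintype.card H : ℝ) =
          (Z.ncard : ℝ) * (Fintype.card (I → A ⧸ 𝔞) : ℝ) := by exact_mod_cast h1
      have h11 : (Fintype.card (I → A ⧸ 𝔞) : ℝ) = (Nat.card (A ⧸ 𝔞) : ℝ) ^ Fintype.card I := by
        rw [Fintype.card_fun, Nat.cast_pow, Nat.card_eq_fintype_card]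
      have h12 : {x | ∀ j : Fin J, f x j ∉ Ω S (t j).F} = {x | f x ∈ Z} := rfl
      rw [h12]
      refine le_of_mul_le_mul_right ?_ hHpos
      rw [h10, h11]
      have h13 : (0 : ℝ) ≤ (Nat.card (A ⧸ 𝔞) : ℝ) ^ Fintype.card I := by positivity
      calc (Z.ncard : ℝ) * (Nat.card (A ⧸ 𝔞) : ℝ) ^ Fintype.card I
          ≤ ((1 - δ) ^ J * (Fintype.card H : ℝ)) * (Nat.card (A ⧸ 𝔞) : ℝ) ^ Fintype.card I :=
            mul_le_mul_of_nonneg_right h4 h13
        _ = _ := by ring
    have hun : {x : I → A ⧸ 𝔞 | ∃ S : Λ, ∀ j : Fin J, f x j ∉ Ω S (t j).F} =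
        ⋃ S ∈ (Finset.univ : Finset Λ), {x | ∀ j : Fin J, f x j ∉ Ω S (t j).F} := by
      ext x
      simp
    have h1 : ({x : I → A ⧸ 𝔞 | ∃ S : Λ, ∀ j : Fin J, f x j ∉ Ω S (t j).F}.ncard : ℝ) ≤
        ∑ S : Λ, ({x | ∀ j : Fin J, f x j ∉ Ω S (t j).F}.ncard : ℝ) := by
      rw [hun, ← Nat.cast_sum]
      exact_mod_cast Finset.set_ncard_biUnion_le _ _
    refine h1.trans ((Finset.sum_le_sum fun S _ => hone S).trans ?_)
    rw [Finset.sum_const, Finset.card_univ, nsmul_eq_mul, ← mul_assoc]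
    exact mul_le_mul_of_nonneg_right hJ (by positivity)
  · intro c hc
    push Not at hc
    obtain ⟨S, hS⟩ := hc
    refine ⟨S, fun j => ?_⟩
    have h1 : f (fun i => Ideal.Quotient.mk 𝔞 (c i)) j = fun q => (t j).ρ (c q) := by
      funext i
      exact hlf j (c i)
    rw [h1]
    exact hS (t j).F inferInstance (t j).ρ (t j).lift

end dens

end Pool.Agent.L5helper72.SG
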