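import Pool.Agent.L5helper72.SG.Loc

/-!
# Embeddings of a finite separable extension
-/

set_option autoImplicit false
set_option linter.all false

open scoped Classical

namespace Pool.Agent.L5helper72.SG

open Polynomial

/-- clearing denominators -/
lemma clearG {D K0 : Type} [CommRing D] [IsDomain D] [Field K0] [Algebra D K0]
    [IsFractionRing D K0] (f : K0[X]) : ∃ (g : D[X]) (d : D), d ≠ 0 ∧
    g.map (algebraMap D K0) = C (algebraMap D K0 d) * f := by
  obtain ⟨d, hd, hd'⟩ := IsLocalization.integerNormalization_spec (nonZeroDivisors D) f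
  refine ⟨IsLocalization.integerNormalization (nonZeroDivisors D) f, d,
    nonZeroDivisors.ne_zero hd, ?_⟩
  rw [hd']
  ext i
  rw [coeff_smul, coeff_C_mul, Algebra.smul_def]

theorem emb {D k : Type} [CommRing D] [IsDomain D] [Field k] [Algebra D k]
    (K0 : Type) [Field K0] [Algebra D K0] [IsFractionRing D K0] [Algebra K0 k]
    [IsScalarTower D K0 k] [FiniteDimensional K0 k] [Algebra.IsSeparable K0 k]
    (E : Finset k) (hE : ∀ e ∈ E, e ≠ 0) :
    ∃ (f : D[X]) (h : D), h ≠ 0 ∧ 1 ≤ f.natDegree ∧ f.leadingCoeff ∣ h ∧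
      ∀ (O F L : Type) [CommRing O] [IsDomain O] [Field F] [Field L] [Algebra O L]
        [IsFractionRing O L] (π : O →+* F), HR π → ∀ (ψ : D →+* O), Function.Injective ψ →
        π (ψ h) ≠ 0 → ∀ y0 : F, (f.map (π.comp ψ)).eval y0 = 0 →
        ∃ σ : k →+* L, (∀ x : D, σ (algebraMap D k x) = algebraMap O L (ψ x)) ∧
          ∀ e ∈ E, ∃ u : Oˣ, σ e = algebraMap O L u := by
  have hinj : Function.Injective (algebraMap D K0) := IsFractionRing.injective D K0
  let pb := Field.powerBasisOfFiniteOfSeparable K0 k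
  set f0 := minpoly K0 pb.gen with hf0
  have hint : IsIntegral K0 pb.gen := Algebra.IsIntegral.isIntegral _
  have hmon : f0.Monic := minpoly.monic hint
  have hsep : f0.Separable := Algebra.IsSeparable.isSeparable K0 pb.gen
  obtain ⟨f, d0, hd0, hf⟩ := clearG (D := D) f0
  obtain ⟨u, v, huv⟩ := hsep
  obtain ⟨U, du, hdu, hU⟩ := clearG (D := D) u
  obtain ⟨V, dv, hdv, hV⟩ := clearG (D := D) v
  have hd0' : algebraMap D K0 d0 ≠ 0 := by rwa [Ne, map_eq_zero_iff _ hinj]
  have key : C dv * U * f + C du * V * derivative f = C (d0 * du * dv) := by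
    apply Polynomial.map_injective _ hinj
    rw [Polynomial.map_add, Polynomial.map_mul, Polynomial.map_mul, Polynomial.map_mul,
      Polynomial.map_mul, map_C, map_C, map_C, ← derivative_map, hf, hU, hV, derivative_C_mul]
    simp only [map_mul]
    linear_combination (C (algebraMap D K0 d0) * C (algebraMap D K0 du) *
      C (algebraMap D K0 dv)) * huv
  have hfd : f.natDegree = f0.natDegree := by
    rw [← natDegree_map_eq_of_injective hinj, hf, natDegree_C_mul hd0']
  have hf00 : f ≠ 0 := by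
    rintro rfl
    rw [Polynomial.map_zero] at hf
    exact mul_ne_zero (C_ne_zero.2 hd0') hmon.ne_zero hf.symm
  have hex : ∀ e : k, ∃ (P : D[X]) (d : D), d ≠ 0 ∧
      algebraMap K0 k (algebraMap D K0 d) * e = aeval pb.gen (P.map (algebraMap D K0)) := by
    intro e
    obtain ⟨p, hp⟩ := pb.exists_eq_aeval' e
    obtain ⟨P, d, hd, hP⟩ := clearG (D := D) p
    refine ⟨P, d, hd, ?_⟩
    rw [hP, map_mul, aeval_C, ← hp]
  choose P dd hdd hP using hex
  set h : D := f.leadingCoeff * (d0 * du * dv) * ∏ e ∈ E, (dd e * dd e⁻¹) with hh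
  have hh0 : h ≠ 0 := mul_ne_zero (mul_ne_zero (leadingCoeff_ne_zero.2 hf00)
    (mul_ne_zero (mul_ne_zero hd0 hdu) hdv))
    (Finset.prod_ne_zero_iff.2 fun e _ => mul_ne_zero (hdd e) (hdd _))
  refine ⟨f, h, hh0, ?_, ⟨_, by rw [hh, mul_assoc]⟩, ?_⟩
  · rw [hfd]
    exact minpoly.natDegree_pos hint
  intro O F L _ _ _ _ _ _ π hπ ψ hψ hπh y0 hy0
  have hιinj : Function.Injective (algebraMap O L) := IsFractionRing.injective O L
  -- the factors of `h` are not in the kernel
  have hdvd : ∀ x : D, x ∣ h → π (ψ x) ≠ 0 := by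
    rintro x ⟨z, hz⟩ h0
    apply hπh
    rw [hz, map_mul, map_mul, h0, zero_mul]
  have hw : π (ψ (d0 * du * dv)) ≠ 0 := hdvd _ ⟨f.leadingCoeff * ∏ e ∈ E, (dd e * dd e⁻¹), by
    rw [hh]; ring⟩
  have hddE : ∀ e ∈ E, π (ψ (dd e)) ≠ 0 ∧ π (ψ (dd e⁻¹)) ≠ 0 := by
    intro e he
    have h1 : dd e * dd e⁻¹ ∣ h := by
      rw [hh]
      exact (Finset.dvd_prod_of_mem (fun e => dd e * dd e⁻¹) he).trans (dvd_mul_left _ _)
    exact ⟨hdvd _ ((dvd_mul_right _ _).trans h1), hdvd _ ((dvd_mul_left _ _).trans h1)⟩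
  -- the lift of the root
  have hder : (derivative (f.map (π.comp ψ))).eval y0 ≠ 0 := by
    intro h0
    have h1 := congrArg (fun q : D[X] => (q.map (π.comp ψ)).eval y0) key
    simp only [Polynomial.map_add, Polynomial.map_mul, map_C, eval_add, eval_mul, eval_C,
      ← derivative_map, hy0, h0, mul_zero, add_zero] at h1
    exact hw h1.symm
  have hmm : (f.map ψ).map π = f.map (π.comp ψ) := by rw [Polynomial.map_map]
  obtain ⟨yh, hyh, hyh0⟩ := hπ.lift (f.map ψ) y0 (by rw [hmm]; exact hy0)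
    (by rw [hmm]; exact hder)
  -- the embedding of the base
  let φ0 : K0 →+* L := IsFractionRing.lift (A := D) (K := K0) (L := L)
    (g := (algebraMap O L).comp ψ) (hιinj.comp hψ)
  have hφ0 : ∀ x : D, φ0 (algebraMap D K0 x) = algebraMap O L (ψ x) := by
    intro x
    show IsFractionRing.lift _ _ = _
    rw [IsFractionRing.lift_algebraMap]
    rfl
  letI : Algebra K0 L := φ0.toAlgebra
  have hφ0' : ∀ x : K0, algebraMap K0 L x = φ0 x := fun x => rfl
  -- evaluation of polynomials over `D`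
  have hev : ∀ Q : D[X], aeval (algebraMap O L yh) (Q.map (algebraMap D K0)) =
      algebraMap O L ((Q.map ψ).eval yh) := by
    intro Q
    rw [aeval_def, eval₂_map, eval_map, hom_eval₂]
    congr 1
    ext x
    exact hφ0 x
  have hroot : aeval (algebraMap O L yh) (minpoly K0 pb.gen) = 0 := by
    have h1 := hev f
    rw [hyh, map_zero, hf, map_mul, aeval_C, mul_eq_zero] at h1
    rcases h1 with h1 | h1
    · exact absurd h1 ((_root_.map_ne_zero _).2 hd0')
    · exact h1
  let σ : k →ₐ[K0] L := pb.lift (algebraMap O L yh) hroot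
  have hσg : σ pb.gen = algebraMap O L yh := pb.lift_gen _ _
  have hval : ∀ e : k, π (ψ (dd e)) ≠ 0 → ∃ a : O, σ e = algebraMap O L a := by
    intro e he
    obtain ⟨c, hc⟩ := hπ.unit _ he
    refine ⟨((c⁻¹ : Oˣ) : O) * ((P e).map ψ).eval yh, ?_⟩
    have h1 := congrArg σ (hP e)
    rw [map_mul, AlgHom.commutes, hφ0', hφ0, ← aeval_algHom_apply, hσg, hev, ← hc] at h1
    rw [map_mul, ← h1, ← mul_assoc, ← map_mul, Units.inv_mul, map_one, one_mul]
  refine ⟨σ.toRingHom, ?_, ?_⟩
  · intro x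
    show σ (algebraMap D k x) = _
    rw [IsScalarTower.algebraMap_apply D K0 k, AlgHom.commutes, hφ0', hφ0]
  · intro e he
    obtain ⟨h1, h2⟩ := hddE e he
    obtain ⟨a, ha⟩ := hval e h1
    obtain ⟨b, hb⟩ := hval e⁻¹ h2
    have hab : a * b = 1 := by
      apply hιinj
      rw [map_mul, ← ha, ← hb, map_one, ← map_mul, mul_inv_cancel₀ (hE e he), map_one]
    exact ⟨⟨a, b, hab, by rw [mul_comm]; exact hab⟩, ha⟩

end Pool.Agent.L5helper72.SG
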