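import Pool.Agent.L5helper72.SG.Dns

/-!
# Asymptotically invariant sequences of finite sets are equidistributed
-/

set_option autoImplicit false
set_option linter.all false

open scoped Classical

namespace Pool.Agent.L5helper72.SG

open Filter Topology

/-- the nonempty finite sets `S M` are asymptotically invariant under translations by `W` -/
def Invt {T : Type} [AddCommGroup T] (W : Set T) (S : ℕ → Finset T) : Prop :=
  (∀ᶠ M in atTop, (S M).Nonempty) ∧
  ∀ v ∈ W, Tendsto (fun M => ((((S M).filter fun c => c + v ∉ S M).card : ℕ) : ℝ) /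
    ((S M).card : ℝ)) atTop (𝓝 0)

section sub

variable {T : Type} [AddCommGroup T]

/-- the number of elements which leave the set -/
noncomputable def lv (S : Finset T) (v : T) : ℕ := (S.filter fun c => c + v ∉ S).card

theorem lv_add (S : Finset T) (v w : T) : lv S (v + w) ≤ lv S v + lv S w := by
  have h1 : (S.filter fun c => c + (v + w) ∉ S) ⊆ (S.filter fun c => c + v ∉ S) ∪
      ((S.filter fun c => c + w ∉ S).image fun c => c - v) := by
    intro c hc
    rw [Finset.mem_filter] at hc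
    rw [Finset.mem_union, Finset.mem_filter, Finset.mem_image]
    by_cases h : c + v ∈ S
    · right
      refine ⟨c + v, Finset.mem_filter.2 ⟨h, ?_⟩, add_sub_cancel_right c v⟩
      rw [add_assoc]
      exact hc.2
    · exact Or.inl ⟨hc.1, h⟩
  exact (Finset.card_le_card h1).trans ((Finset.card_union_le _ _).trans
    (Nat.add_le_add_left Finset.card_image_le _))

theorem lv_neg (S : Finset T) (v : T) : lv S (-v) = lv S v := by
  have h0 : ∀ w : T, (S.filter fun c => c + w ∈ S).card + lv S w = S.card := fun w =>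
    Finset.card_filter_add_card_filter_not (s := S) (fun c => c + w ∈ S)
  have h1 : ∀ w : T, (S.filter fun c => c + w ∈ S).card ≤
      (S.filter fun c => c + -w ∈ S).card := by
    intro w
    refine Finset.card_le_card_of_injOn (fun c => c + w) ?_ ?_
    · intro c hc
      rw [Finset.mem_coe, Finset.mem_filter] at hc
      rw [Finset.mem_coe, Finset.mem_filter]
      refine ⟨hc.2, ?_⟩
      show c + w + -w ∈ S
      rw [add_neg_cancel_right]
      exact hc.1
    · intro c _ d _ h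
      exact add_right_cancel h
  have h2 := h0 v
  have h3 := h0 (-v)
  have h4 := h1 v
  have h5 := h1 (-v)
  rw [neg_neg] at h5
  omega

theorem filter_le (S : Finset T) (P P' : T → Prop) [DecidablePred P] [DecidablePred P'] (v : T)
    (h : ∀ c, P c → P' (c + v)) : (S.filter P).card ≤ (S.filter P').card + lv S v := by
  have h1 : S.filter P ⊆ ((S.filter P').image fun c => c - v) ∪ (S.filter fun c => c + v ∉ S) := by
    intro c hc
    rw [Finset.mem_filter] at hc
    rw [Finset.mem_union, Finset.mem_filter, Finset.mem_image]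
    by_cases hv : c + v ∈ S
    · exact Or.inl ⟨c + v, Finset.mem_filter.2 ⟨hv, h c hc.2⟩, add_sub_cancel_right _ _⟩
    · exact Or.inr ⟨hc.1, hv⟩
  exact (Finset.card_le_card h1).trans ((Finset.card_union_le _ _).trans
    (Nat.add_le_add_right Finset.card_image_le _))

theorem lv_mul_le (S : Finset T) (v : T) (n : ℕ) (f : T × ℕ → T)
    (h1 : ∀ c ∈ S, c + v ∉ S → ∀ t < n, f (c, t) ∈ S)
    (h2 : ∀ c ∈ S, c + v ∉ S → ∀ c' ∈ S, c' + v ∉ S → ∀ t t', f (c, t) = f (c', t') →
      c = c' ∧ t = t') : lv S v * n ≤ S.card := by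
  have h3 : lv S v * n = ((S.filter fun c => c + v ∉ S) ×ˢ Finset.range n).card := by
    rw [Finset.card_product, Finset.card_range]
    rfl
  rw [h3]
  refine Finset.card_le_card_of_injOn f ?_ ?_
  · rintro ⟨c, t⟩ hq
    rw [Finset.mem_coe, Finset.mem_product, Finset.mem_filter, Finset.mem_range] at hq
    exact h1 c hq.1.1 hq.1.2 t hq.2
  · rintro ⟨c, t⟩ hq ⟨c', t'⟩ hq' h
    rw [Finset.mem_coe, Finset.mem_product, Finset.mem_filter, Finset.mem_range] at hq hq'
    obtain ⟨h4, h5⟩ := h2 c hq.1.1 hq.1.2 c' hq'.1.1 hq'.1.2 t t' h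
    rw [h4, h5]

theorem lv_eq_zero (S : Finset T) (v : T) (h : ∀ c ∈ S, c + v ∈ S) : lv S v = 0 := by
  unfold lv
  rw [Finset.card_eq_zero, Finset.filter_eq_empty_iff]
  intro c hc h'
  exact h' (h c hc)

theorem lv_zero (S : Finset T) : lv S 0 = 0 := by
  unfold lv
  rw [Finset.card_eq_zero, Finset.filter_eq_empty_iff]
  intro c hc h
  rw [add_zero] at h
  exact h hc

/-- the subgroup of almost periods -/
noncomputable def prd (S : ℕ → Finset T) : AddSubgroup T where
  carrier := {v | Tendsto (fun M => (lv (S M) v : ℝ) / ((S M).card : ℝ)) atTop (𝓝 0)}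
  zero_mem' := by
    simp only [Set.mem_setOf_eq, lv_zero, Nat.cast_zero, zero_div]
    exact tendsto_const_nhds
  add_mem' := by
    intro v w hv hw
    have h1 := Tendsto.add hv hw
    rw [add_zero] at h1
    refine squeeze_zero (fun M => by positivity) (fun M => ?_) h1
    rw [← add_div]
    refine div_le_div_of_nonneg_right ?_ (Nat.cast_nonneg _)
    exact_mod_cast lv_add (S M) v w
  neg_mem' := by
    intro v hv
    simp only [Set.mem_setOf_eq, lv_neg]
    exact hv

theorem invt_iff (W : Set T) (S : ℕ → Finset T) :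
    Invt W S ↔ (∀ᶠ M in atTop, (S M).Nonempty) ∧ W ⊆ prd S := Iff.rfl

end sub

section equi

variable {A I : Type} [CommRing A] [Fintype I]

theorem Invt.equi {V : AddSubgroup A} (hV : V = ⊤ ∨ (CharZero A ∧ (1 : A) ∈ V))
    {S : ℕ → Finset (I → A)} (hS : Invt {v | ∀ i, v i ∈ V} S) : Equi S := by
  intro 𝔞 hadm x0
  haveI := hadm.1
  haveI : Fintype (A ⧸ 𝔞) := Fintype.ofFinite _
  have hrep1 : ∀ z : A ⧸ 𝔞, ∃ y : A, y ∈ V ∧ Ideal.Quotient.mk 𝔞 y = z := by
    intro z
    rcases hV with hV | ⟨h0, h1⟩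
    · obtain ⟨y, rfl⟩ := Ideal.Quotient.mk_surjective z
      exact ⟨y, by rw [hV]; trivial, rfl⟩
    · obtain ⟨n, rfl⟩ := hadm.2 h0 z
      refine ⟨n • (1 : A), zsmul_mem h1 n, ?_⟩
      rw [zsmul_eq_mul, mul_one, map_intCast]
  have hrep : ∀ z : I → A ⧸ 𝔞, ∃ x : I → A, (∀ i, x i ∈ V) ∧
      (fun i => Ideal.Quotient.mk 𝔞 (x i)) = z := by
    intro z
    choose x hx hx' using fun i => hrep1 (z i)
    exact ⟨x, hx, funext hx'⟩
  choose r hrV hr using hrep
  obtain ⟨x, hxV, hxx⟩ : ∃ x : I → A, (∀ i, x i ∈ V) ∧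
      ∀ c : I → A, (∀ i, c i - x0 i ∈ 𝔞) ↔ ∀ i, c i - x i ∈ 𝔞 := by
    refine ⟨r fun i => Ideal.Quotient.mk 𝔞 (x0 i), hrV _, fun c => ?_⟩
    refine forall_congr' fun i => ?_
    rw [← Ideal.Quotient.eq, ← Ideal.Quotient.eq]
    have h3 : Ideal.Quotient.mk 𝔞 (r (fun i => Ideal.Quotient.mk 𝔞 (x0 i)) i) =
      Ideal.Quotient.mk 𝔞 (x0 i) := congrFun (hr fun i => Ideal.Quotient.mk 𝔞 (x0 i)) i
    rw [h3]
  have hconv : (fun M => ((((S M).filter fun c => ∀ i, c i - x0 i ∈ 𝔞).card : ℕ) : ℝ) /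
      ((S M).card : ℝ)) = fun M => ((((S M).filter fun c => ∀ i, c i - x i ∈ 𝔞).card : ℕ) : ℝ) /
      ((S M).card : ℝ) := by
    funext M
    rw [Finset.filter_congr fun c _ => hxx c]
  rw [hconv]
  set n : ℕ → (I → A) → ℕ := fun M y => ((S M).filter fun c => ∀ i, c i - y i ∈ 𝔞).card with hn
  set Q : ℝ := (Nat.card (A ⧸ 𝔞) : ℝ) ^ Fintype.card I with hQ
  have hQpos : 0 < Q := by
    have : 0 < Nat.card (A ⧸ 𝔞) := Nat.card_pos
    rw [hQ]; positivity
  have hle : ∀ M (y z : I → A), n M y ≤ n M z + lv (S M) (z - y) := by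
    intro M y z
    refine filter_le (S M) _ _ (z - y) fun c hc i => ?_
    have h2 : (c + (z - y)) i - z i = c i - y i := by
      simp only [Pi.add_apply, Pi.sub_apply]
      ring
    rw [h2]
    exact hc i
  have hsum : ∀ M, ∑ z : I → A ⧸ 𝔞, n M (r z) = (S M).card := by
    intro M
    have h1 : (S M).card = ∑ z : I → A ⧸ 𝔞, ((S M).filter fun c =>
        (fun i => Ideal.Quotient.mk 𝔞 (c i)) = z).card :=
      Finset.card_eq_sum_card_fiberwise (f := fun (c : I → A) =>
        (fun i => Ideal.Quotient.mk 𝔞 (c i))) (fun c _ => Finset.mem_coe.2 (Finset.mem_univ _))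
    rw [h1]
    refine Finset.sum_congr rfl fun z _ => ?_
    show ((S M).filter fun c => ∀ i, c i - r z i ∈ 𝔞).card = _
    congr 1
    ext c
    rw [Finset.mem_filter, Finset.mem_filter]
    refine and_congr_right fun _ => ?_
    constructor
    · intro h
      rw [← hr z]
      funext i
      exact Ideal.Quotient.eq.2 (h i)
    · intro h i
      rw [← hr z] at h
      exact Ideal.Quotient.eq.1 (congrFun h i)
  have hcQ : ((Finset.univ : Finset (I → A ⧸ 𝔞)).card : ℝ) = Q := by
    rw [Finset.card_univ, Fintype.card_fun, hQ, Nat.card_eq_fintype_card, Nat.cast_pow]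
  -- the error term
  set E : ℕ → ℝ := fun M => ∑ z : I → A ⧸ 𝔞, ((lv (S M) (r z - x) : ℝ) / ((S M).card : ℝ) +
    (lv (S M) (x - r z) : ℝ) / ((S M).card : ℝ)) with hE
  have hE0 : Tendsto E atTop (𝓝 0) := by
    have h1 : Tendsto E atTop (𝓝 (∑ z : I → A ⧸ 𝔞, ((0 : ℝ) + 0))) :=
      tendsto_finset_sum _ fun z _ => (hS.2 _ fun i => sub_mem (hrV z i) (hxV i)).add
        (hS.2 _ fun i => sub_mem (hxV i) (hrV z i))
    simpa using h1
  rw [tendsto_iff_dist_tendsto_zero]
  refine squeeze_zero' (Eventually.of_forall fun M => dist_nonneg) ?_ hE0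
  filter_upwards [hS.1] with M hM
  have hc : (0 : ℝ) < ((S M).card : ℝ) := by exact_mod_cast hM.card_pos
  have h1 : Q * (n M x : ℝ) ≤ ((S M).card : ℝ) + ∑ z : I → A ⧸ 𝔞, (lv (S M) (r z - x) : ℝ) := by
    have h2 : ∑ z : I → A ⧸ 𝔞, n M x ≤ ∑ z : I → A ⧸ 𝔞, (n M (r z) + lv (S M) (r z - x)) :=
      Finset.sum_le_sum fun z _ => hle M x (r z)
    rw [Finset.sum_add_distrib, hsum, Finset.sum_const, smul_eq_mul] at h2
    have h3 : ((((Finset.univ : Finset (I → A ⧸ 𝔞)).card * n M x : ℕ)) : ℝ) ≤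
        ((((S M).card + ∑ z : I → A ⧸ 𝔞, lv (S M) (r z - x) : ℕ)) : ℝ) := by exact_mod_cast h2
    rw [Nat.cast_mul, hcQ] at h3
    push_cast at h3
    exact h3
  have h2 : ((S M).card : ℝ) ≤ Q * (n M x : ℝ) + ∑ z : I → A ⧸ 𝔞, (lv (S M) (x - r z) : ℝ) := by
    have h2 : ∑ z : I → A ⧸ 𝔞, n M (r z) ≤ ∑ z : I → A ⧸ 𝔞, (n M x + lv (S M) (x - r z)) :=
      Finset.sum_le_sum fun z _ => hle M (r z) x
    rw [Finset.sum_add_distrib, hsum, Finset.sum_const, smul_eq_mul] at h2
    have h3 : (((S M).card : ℕ) : ℝ) ≤ ((((Finset.univ : Finset (I → A ⧸ 𝔞)).card * n M x +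
        ∑ z : I → A ⧸ 𝔞, lv (S M) (x - r z) : ℕ)) : ℝ) := by exact_mod_cast h2
    rw [Nat.cast_add, Nat.cast_mul, hcQ] at h3
    push_cast at h3
    exact h3
  have hEM : E M = (∑ z : I → A ⧸ 𝔞, (lv (S M) (r z - x) : ℝ)) / ((S M).card : ℝ) +
      (∑ z : I → A ⧸ 𝔞, (lv (S M) (x - r z) : ℝ)) / ((S M).card : ℝ) := by
    rw [hE]
    show ∑ z : I → A ⧸ 𝔞, _ = _
    rw [Finset.sum_add_distrib, Finset.sum_div, Finset.sum_div]
  set a : ℝ := ∑ z : I → A ⧸ 𝔞, (lv (S M) (r z - x) : ℝ) with ha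
  set b : ℝ := ∑ z : I → A ⧸ 𝔞, (lv (S M) (x - r z) : ℝ) with hb
  have ha0 : 0 ≤ a := Finset.sum_nonneg fun z _ => Nat.cast_nonneg _
  have hb0 : 0 ≤ b := Finset.sum_nonneg fun z _ => Nat.cast_nonneg _
  have hQ1 : 1 ≤ Q := by
    rw [hQ]
    refine one_le_pow₀ ?_
    have : 0 < Nat.card (A ⧸ 𝔞) := Nat.card_pos
    exact_mod_cast this
  show |(n M x : ℝ) / ((S M).card : ℝ) - 1 / Q| ≤ E M
  rw [hEM, ← add_div]
  have h5 : (n M x : ℝ) / ((S M).card : ℝ) - 1 / Q =
      (Q * (n M x : ℝ) - ((S M).card : ℝ)) / (Q * ((S M).card : ℝ)) := by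
    field_simp
  rw [h5, abs_div, abs_of_pos (mul_pos hQpos hc)]
  have h6 : |Q * (n M x : ℝ) - ((S M).card : ℝ)| ≤ a + b := by
    rw [abs_le]
    constructor <;> linarith
  calc |Q * (n M x : ℝ) - ((S M).card : ℝ)| / (Q * ((S M).card : ℝ))
      ≤ (a + b) / (Q * ((S M).card : ℝ)) := div_le_div_of_nonneg_right h6 (by positivity)
    _ ≤ (a + b) / ((S M).card : ℝ) := by
        refine div_le_div_of_nonneg_left (by positivity) hc ?_
        nlinarith

/-- finite subgroups -/
theorem invt_subgroups {T : Type} [AddCommGroup T] (W : Set T) (G : ℕ → AddSubgroup T)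
    (hG : ∀ v ∈ W, ∀ᶠ M in atTop, v ∈ G M) (S : ℕ → Finset T)
    (hS : ∀ M c, c ∈ S M ↔ c ∈ G M) : Invt W S := by
  refine ⟨Eventually.of_forall fun M => ⟨0, (hS M 0).2 (zero_mem _)⟩, fun v hv => ?_⟩
  refine tendsto_const_nhds.congr' ?_
  filter_upwards [hG v hv] with M hM
  have h1 : lv (S M) v = 0 := by
    refine lv_eq_zero _ _ fun c hc => ?_
    rw [hS] at hc ⊢
    exact add_mem hc hM
  show 0 = (lv (S M) v : ℝ) / ((S M).card : ℝ)
  rw [h1, Nat.cast_zero, zero_div]

/-- tuples with entries in boxes -/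
theorem invt_boxes {J : Type} (V : AddSubgroup A) (b : J → A) (hb : LinearIndependent ℤ b)
    (hbV : AddSubgroup.closure (Set.range b) = V)
    (H : ℕ → I → J → ℕ) (hH : ∀ i j, Tendsto (fun M => H M i j) atTop atTop)
    (S : ℕ → Finset (I → A))
    (hS : ∀ M c, c ∈ S M ↔ ∃ n : I → J →₀ ℤ, (∀ i j, |n i j| ≤ (H M i j : ℤ)) ∧
      ∀ i, c i = Finsupp.linearCombination ℤ b (n i)) : Invt {v | ∀ i, v i ∈ V} S := by
  rw [invt_iff]
  have h0 : ∀ M, (0 : I → A) ∈ S M := fun M => (hS M 0).2 ⟨0, fun i j => by simp, fun i => by simp⟩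
  refine ⟨Eventually.of_forall fun M => ⟨0, h0 M⟩, ?_⟩
  have key : ∀ (i : I) (j : J), Pi.single i (b j) ∈ prd S := by
    intro i j
    set v : I → A := Pi.single i (b j) with hv
    set e : I → J →₀ ℤ := Pi.single i (Finsupp.single j 1) with he
    have hve : ∀ i', v i' = Finsupp.linearCombination ℤ b (e i') := by
      intro i'
      rw [hv, he]
      by_cases h1 : i' = i
      · subst h1
        rw [Pi.single_eq_same, Pi.single_eq_same, Finsupp.linearCombination_single, one_smul]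
      · rw [Pi.single_eq_of_ne h1, Pi.single_eq_of_ne h1, map_zero]
    have hei : ∀ i' j', e i' j' = if i' = i ∧ j' = j then 1 else 0 := by
      intro i' j'
      rw [he]
      by_cases h1 : i' = i
      · subst h1
        rw [Pi.single_eq_same, Finsupp.single_apply]
        by_cases h2 : j' = j
        · simp [h2]
        · rw [if_neg (fun h => h2 h.symm), if_neg (fun h => h2 h.2)]
      · rw [Pi.single_eq_of_ne h1, if_neg (fun h => h1 h.1)]
        rfl
    have hH2 : Tendsto (fun M => 1 / ((H M i j : ℝ) + 1)) atTop (𝓝 0) :=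
      tendsto_one_div_add_atTop_nhds_zero_nat.comp (hH i j)
    show Tendsto (fun M => (lv (S M) v : ℝ) / ((S M).card : ℝ)) atTop (𝓝 0)
    refine squeeze_zero (fun M => by positivity) (fun M => ?_) hH2
    have hne : 0 < (S M).card := Finset.card_pos.2 ⟨0, h0 M⟩
    have hne' : (0 : ℝ) < ((S M).card : ℝ) := by exact_mod_cast hne
    have hedge : ∀ c ∈ S M, c + v ∉ S M → ∃ n : I → J →₀ ℤ, (∀ i j, |n i j| ≤ (H M i j : ℤ)) ∧
        (∀ i, c i = Finsupp.linearCombination ℤ b (n i)) ∧ n i j = (H M i j : ℤ) := by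
      intro c hc hcv
      obtain ⟨n, h1, h2⟩ := (hS M c).1 hc
      refine ⟨n, h1, h2, ?_⟩
      by_contra hlt
      apply hcv
      rw [hS]
      refine ⟨n + e, ?_, ?_⟩
      · intro i' j'
        rw [Pi.add_apply, Finsupp.add_apply, hei]
        by_cases h3 : i' = i ∧ j' = j
        · obtain ⟨rfl, rfl⟩ := h3
          rw [if_pos ⟨rfl, rfl⟩]
          have h4 := h1 i' j'
          rw [abs_le] at h4 ⊢
          omega
        · rw [if_neg h3, add_zero]
          exact h1 i' j'
      · intro i'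
        rw [Pi.add_apply, Pi.add_apply, map_add, ← h2, ← hve]
    have hcard : lv (S M) v * (H M i j + 1) ≤ (S M).card := by
      refine lv_mul_le (S M) v (H M i j + 1) (fun q => q.1 - (q.2 : ℤ) • v) ?_ ?_
      · intro c hc hcv t ht
        obtain ⟨n, h1, h2, h3⟩ := hedge c hc hcv
        show c - (t : ℤ) • v ∈ S M
        rw [hS]
        refine ⟨n - (t : ℤ) • e, ?_, ?_⟩
        · intro i' j'
          rw [Pi.sub_apply, Finsupp.sub_apply, Pi.smul_apply, Finsupp.smul_apply, hei, smul_eq_mul]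
          by_cases h4 : i' = i ∧ j' = j
          · obtain ⟨rfl, rfl⟩ := h4
            rw [if_pos ⟨rfl, rfl⟩, h3, abs_le]
            omega
          · rw [if_neg h4, mul_zero, sub_zero]
            exact h1 i' j'
        · intro i'
          rw [Pi.sub_apply, Pi.sub_apply, Pi.smul_apply, Pi.smul_apply, map_sub, map_smul, ← h2,
            ← hve]
      · intro c hc hcv c' hc' hcv' t t' h
        obtain ⟨n, h1, h2, h3⟩ := hedge c hc hcv
        obtain ⟨n', h1', h2', h3'⟩ := hedge c' hc' hcv'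
        have h4 : c - (t : ℤ) • v = c' - (t' : ℤ) • v := h
        have h5 : n i - (t : ℤ) • e i = n' i - (t' : ℤ) • e i := by
          apply hb
          rw [map_sub, map_sub, map_smul, map_smul, ← h2, ← h2', ← hve]
          exact congrFun h4 i
        have h6 := congrArg (fun f : J →₀ ℤ => f j) h5
        simp only [Finsupp.sub_apply, Finsupp.smul_apply, hei, smul_eq_mul, h3, h3', and_self,
          if_true, mul_one] at h6
        have h7 : t = t' := by omega
        subst h7
        rw [sub_left_inj] at h4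
        exact ⟨h4, rfl⟩
    rw [div_le_div_iff₀ hne' (by positivity), one_mul]
    exact_mod_cast hcard
  have h1 : ∀ (i : I) (a : A), a ∈ V → Pi.single i a ∈ prd S := by
    intro i a ha
    have h2 : V ≤ (prd S).comap (AddMonoidHom.single (fun _ : I => A) i) := by
      rw [← hbV, AddSubgroup.closure_le]
      rintro _ ⟨j, rfl⟩
      exact key i j
    exact h2 ha
  intro v hv
  rw [← Finset.univ_sum_single v]
  exact sum_mem fun i _ => h1 i (v i) (hv i)

end equi

end Pool.Agent.L5helper72.SG
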