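import Pool.Agent.R431.SG.MainS
import Pool.Agent.H470.Hensel

/-!
# Obstructions over the completion at a closed point of a curve

`A` is a domain with field of fractions `k` and `σ` an injective homomorphism from `A` to the power
series over a field `F`.
-/

set_option autoImplicit false
set_option linter.all false

open scoped Classical

namespace Pool.Agent.L5helper72.SG

open Polynomial Pool.Agent.R431.SG

/-- `π : O → F` behaves like the reduction of a henselian local ring. -/
structure HR {O F : Type} [CommRing O] [Field F] (π : O →+* F) : Prop where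
  unit : ∀ x : O, π x ≠ 0 → IsUnit x
  lift : ∀ (f : O[X]) (r : F), (f.map π).eval r = 0 → (derivative (f.map π)).eval r ≠ 0 →
    ∃ ρ : O, f.eval ρ = 0 ∧ π ρ = r

section ps

variable {F : Type} [Field F]

/-- power series -/
theorem hr_ps (F : Type) [Field F] : HR (PowerSeries.constantCoeff : PowerSeries F →+* F) where
  unit x h := PowerSeries.isUnit_iff_constantCoeff.2 (isUnit_iff_ne_zero.2 h)
  lift f r h0 h1 := by
    have hc : (PowerSeries.constantCoeff : PowerSeries F →+* F) (PowerSeries.C r) = r :=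
      PowerSeries.constantCoeff_C _
    refine Pool.Agent.H470.hensel f r ?_ ?_
    · rw [← eval₂_hom, hc, ← eval_map]
      exact h0
    · rw [← eval₂_hom, hc, ← eval_map, ← derivative_map]
      exact h1

/-- the `p`-adic integers -/
theorem hr_padic (p : ℕ) [Fact p.Prime] : HR (PadicInt.toZMod : ℤ_[p] →+* ZMod p) where
  unit x h := by
    by_contra hcon
    have h1 : x ∈ IsLocalRing.maximalIdeal ℤ_[p] := hcon
    rw [← PadicInt.ker_toZMod] at h1
    exact h h1
  lift f r h0 h1 := lift_root f r h0 h1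

end ps

section hr

variable {O F : Type} [CommRing O] [IsDomain O] [IsIntegrallyClosed O] [Field F] {π : O →+* F}

/-- a polynomial whose reduction is irreducible of the same degree -/
lemma irr_ps (hπ : HR π) (L : Type) [Field L] [Algebra O L] [IsFractionRing O L]
    {f : O[X]} {n : ℕ} (hf : f.natDegree ≤ n)
    (hd : (f.map π).natDegree = n) (hn : n ≠ 0)
    (h : Irreducible (f.map π)) :
    Irreducible (f.map (algebraMap O L)) := by
  have hn' : f.natDegree = n := le_antisymm hf (by rw [← hd]; exact natDegree_map_le)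
  have hlc : π f.leadingCoeff ≠ (0 : F) := by
    have h1 : (f.map π).leadingCoeff ≠ 0 := by
      rw [Ne, leadingCoeff_eq_zero]
      exact h.ne_zero
    rwa [leadingCoeff, hd, coeff_map, ← hn'] at h1
  obtain ⟨u, hu⟩ := hπ.unit _ hlc
  set g : O[X] := C ((u⁻¹ : Oˣ) : O) * f with hg
  have hmon : g.Monic := by
    rw [hg, Monic, leadingCoeff_mul, leadingCoeff_C, ← hu, Units.inv_mul]
  have hCu : IsUnit (C ((u⁻¹ : Oˣ) : O)) := isUnit_C.2 (Units.isUnit _)
  have hgirr : Irreducible (g.map π) := by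
    rw [hg, Polynomial.map_mul]
    exact (irreducible_isUnit_mul (hCu.map (mapRingHom π))).2 h
  have h2 : Irreducible g := hmon.irreducible_of_irreducible_map _ _ hgirr
  have h3 : Irreducible (g.map (algebraMap O L)) :=
    (hmon.irreducible_iff_irreducible_map_fraction_map (K := L)).1 h2
  rw [hg, Polynomial.map_mul] at h3
  exact (irreducible_isUnit_mul (hCu.map (mapRingHom (algebraMap O L)))).1 h3

/-- the factorisation type `1, n - 1` lifts -/
lemma fac_ps (hπ : HR π) (L : Type) [Field L] [Algebra O L] [IsFractionRing O L]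
    {f : O[X]} {m : ℕ} (hf : f.natDegree ≤ m + 1) (r : F) (g : F[X])
    (hg : Irreducible g) (hgd : g.natDegree = m) (hm : 2 ≤ m)
    (h : f.map π = (X - C r) * g) :
    ∃ (ρ : L) (G : L[X]), Irreducible G ∧ G.natDegree = m ∧
      f.map (algebraMap O L) = (X - C ρ) * G := by
  have hgr : g.eval r ≠ 0 := by
    intro h0
    obtain ⟨q, hq⟩ := dvd_iff_isRoot.2 h0
    rcases hg.isUnit_or_isUnit hq with h1 | h1
    · exact not_isUnit_X_sub_C r h1
    · have h2 : g.natDegree = 1 := by
        rw [hq, natDegree_mul (X_sub_C_ne_zero r) h1.ne_zero, natDegree_X_sub_C,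
          natDegree_eq_zero_of_isUnit h1]
      omega
  obtain ⟨ρ, hρ, hρr⟩ := hπ.lift f r (by rw [h]; simp) (by
    rw [h]
    simp only [derivative_mul, derivative_sub, derivative_X, derivative_C, sub_zero, one_mul,
        eval_add, eval_mul, eval_sub, eval_X, eval_C, sub_self, zero_mul, add_zero]
    exact hgr)
  obtain ⟨G0, hG0⟩ := dvd_iff_isRoot.2 hρ
  have h1 : g = G0.map π := by
    rw [hG0, Polynomial.map_mul, Polynomial.map_sub, map_X, map_C, hρr] at h
    exact (mul_left_cancel₀ (X_sub_C_ne_zero r) h).symm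
  have hG00 : G0 ≠ 0 := by
    rintro rfl
    rw [Polynomial.map_zero] at h1
    exact hg.ne_zero h1
  have h2 : f.natDegree = 1 + G0.natDegree := by
    rw [hG0, natDegree_mul (X_sub_C_ne_zero ρ) hG00, natDegree_X_sub_C]
  have h3 : Irreducible (G0.map (algebraMap O L)) := by
    refine irr_ps hπ L (n := m) (by omega) ?_ (by omega) ?_
    · rw [← h1, hgd]
    · rw [← h1]; exact hg
  refine ⟨algebraMap _ _ ρ, G0.map (algebraMap O L), h3, ?_, ?_⟩
  · rw [natDegree_map_eq_of_injective (IsFractionRing.injective O L)]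
    have h4 : g.natDegree ≤ G0.natDegree := by rw [h1]; exact natDegree_map_le
    omega
  · conv_lhs => rw [hG0]
    rw [Polynomial.map_mul, Polynomial.map_sub, map_X, map_C]

end hr

section loc

variable {A k O F L : Type} [CommRing A] [IsDomain A] [Field k] [Algebra A k] [IsFractionRing A k]
  [CommRing O] [IsDomain O] [Field F] [Field L] [Algebra O L] [IsFractionRing O L] {π : O →+* F}

variable (k L) in
/-- the extension to the field -/
noncomputable def extn (σ : A →+* O) (hσ : Function.Injective σ) : k →+* L :=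
  IsFractionRing.lift (A := A) (K := k) (L := L)
    (g := (algebraMap O L).comp σ)
    ((IsFractionRing.injective O L).comp hσ)

lemma extn_alg (σ : A →+* O) (hσ : Function.Injective σ) (x : A) :
    extn k L σ hσ (algebraMap A k x) = algebraMap O L (σ x) := by
  unfold extn
  rw [IsFractionRing.lift_algebraMap]
  rfl

lemma pol_ext (σ : A →+* O) (hσ : Function.Injective σ) {N : ℕ} (c : Fin N → A) :
    (pol fun j => algebraMap A k (c j)).map (extn k L σ hσ) =
      (pol fun j => σ (c j)).map (algebraMap O L) := by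
  rw [pol_map, pol_map]
  congr 1
  funext j
  exact extn_alg σ hσ (c j)

lemma pol_red (π : O →+* F) (σ : A →+* O) {N : ℕ} (c : Fin N → A) :
    (pol fun j => σ (c j)).map π = pol fun j => π.comp σ (c j) := by
  rw [pol_map]
  rfl

/-- irreducibility over `k` from the reduction -/
theorem irr_of_redn' [IsIntegrallyClosed O] (hπ : HR π) (L : Type) [Field L] [Algebra O L]
    [IsFractionRing O L] (σ : A →+* O) (hσ : Function.Injective σ) {n : ℕ} (hn : n ≠ 0)
    (c : Fin (n + 1) → A)
    (hd : (pol fun j => π.comp σ (c j)).natDegree = n)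
    (h : Irreducible (pol fun j => π.comp σ (c j))) :
    Irreducible (pol fun j => algebraMap A k (c j)) := by
  apply irr_of_map (extn k L σ hσ)
  rw [pol_ext]
  refine irr_ps hπ L (n := n) (pol_degree _) ?_ hn ?_
  · rw [pol_red]; exact hd
  · rw [pol_red]; exact h

/-- the obstruction over a field -/
def PObsG (ℓ : ℕ) {N : ℕ} (f : F[X]) (c : Fin N → F) : Prop :=
  ∃ r r' : F, (pol c).eval r = 0 ∧ (pol c).eval r' = 0 ∧
    (derivative (pol c)).eval r ≠ 0 ∧ (derivative (pol c)).eval r' ≠ 0 ∧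
    f.eval r ≠ 0 ∧ f.eval r' ≠ 0 ∧ ∀ y, f.eval r ≠ y ^ ℓ * f.eval r'

/-- **The obstruction.** -/
theorem pair_contraG' [IsIntegrallyClosed O] (hπ : HR π) (L : Type) [Field L] [Algebra O L]
    [IsFractionRing O L] {ℓ : ℕ} (hℓ : ℓ ≠ 0) (σ : A →+* O) (hσ : Function.Injective σ)
    {N : ℕ} {c : Fin N → A} {f : A[X]}
    (hobs : PObsG ℓ (f.map (π.comp σ)) (fun j => π.comp σ (c j))) {W z : k[X]} {a : k} (ha : a ≠ 0)
    (hW : IsCoprime (pol fun j => algebraMap A k (c j)) W)
    (hD : (pol fun j => algebraMap A k (c j)) ∣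
      C a * (f.map (algebraMap A k) * W ^ ℓ) - z ^ ℓ) : False := by
  obtain ⟨r, r', h1, h2, h3, h4, h5, h5', h6⟩ := hobs
  have hred := pol_red π σ c
  obtain ⟨ρ, hρ, hρr⟩ := hπ.lift (pol fun j => σ (c j)) r (by rw [hred]; exact h1)
    (by rw [hred]; exact h3)
  obtain ⟨ρ', hρ', hρr'⟩ := hπ.lift (pol fun j => σ (c j)) r' (by rw [hred]; exact h2)
    (by rw [hred]; exact h4)
  set ι : O →+* L := algebraMap O L with hι
  have key : ∀ τ : O, (pol fun j => σ (c j)).eval τ = 0 →
      ∃ w v : L, w ≠ 0 ∧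
        ι ((f.map σ).eval τ) * (extn k L σ hσ a * w ^ ℓ) = v ^ ℓ := by
    intro τ hτ
    have hev : ((pol fun j => algebraMap A k (c j)).map (extn k L σ hσ)).eval (ι τ) = 0 := by
      rw [pol_ext, eval_map, eval₂_hom, hτ, map_zero]
    refine ⟨(W.map (extn k L σ hσ)).eval (ι τ), (z.map (extn k L σ hσ)).eval (ι τ), ?_, ?_⟩
    · obtain ⟨u, v, huv⟩ := hW
      intro h0
      have e3 := congrArg (fun g : k[X] => (g.map (extn k L σ hσ)).eval (ι τ)) huv
      simp only [Polynomial.map_add, Polynomial.map_mul, eval_add, eval_mul, hev, h0, mul_zero,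
        add_zero, Polynomial.map_one, eval_one] at e3
      exact zero_ne_one e3
    · obtain ⟨g, hg⟩ := hD
      have e3 := congrArg (fun g : k[X] => (g.map (extn k L σ hσ)).eval (ι τ)) hg
      simp only [Polynomial.map_sub, Polynomial.map_mul, Polynomial.map_pow, map_C, eval_sub,
        eval_mul, eval_pow, eval_C, hev, zero_mul] at e3
      have e4 : ι ((f.map σ).eval τ) =
          ((f.map (algebraMap A k)).map (extn k L σ hσ)).eval (ι τ) := by
        have e5 : (f.map (algebraMap A k)).map (extn k L σ hσ) = (f.map σ).map ι := by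
          rw [Polynomial.map_map, Polynomial.map_map]
          congr 1
          ext x
          exact extn_alg σ hσ x
        rw [e5]
        conv_rhs => rw [eval_map, eval₂_hom]
      rw [e4]
      linear_combination e3
  obtain ⟨w, v, hw, e1⟩ := key ρ hρ
  obtain ⟨w', v', hw', e2⟩ := key ρ' hρ'
  have ha' : extn k L σ hσ a ≠ 0 := (_root_.map_ne_zero _).2 ha
  have h7 : ∀ τ : O, π ((f.map σ).eval τ) = (f.map (π.comp σ)).eval (π τ) := by
    intro τ
    have : f.map (π.comp σ) = (f.map σ).map π := by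
      rw [Polynomial.map_map]
    conv_rhs => rw [this, eval_map, eval₂_hom]
  have hun : IsUnit ((f.map σ).eval ρ') := by
    apply hπ.unit
    rw [h7, hρr']
    exact h5'
  obtain ⟨U, hU⟩ := hun
  have hιinj : Function.Injective ι := IsFractionRing.injective _ _
  have hne' : ι ((f.map σ).eval ρ') ≠ 0 := by
    rw [← hU, Ne, map_eq_zero_iff _ hιinj]
    exact U.ne_zero
  have hv' : v' ≠ 0 := by
    rintro rfl
    rw [zero_pow hℓ] at e2
    exact mul_ne_zero hne' (mul_ne_zero ha' (pow_ne_zero _ hw')) e2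
  set y : L := v * w' / (w * v') with hy
  have hyy : y ^ ℓ * ι ((f.map σ).eval ρ') = ι ((f.map σ).eval ρ) := by
    rw [hy, div_pow, div_mul_eq_mul_div, div_eq_iff (pow_ne_zero _ (mul_ne_zero hw hv')), mul_pow,
      mul_pow, ← e1, ← e2]
    ring
  have hint : IsIntegral (O) y := by
    have h8 : y ^ ℓ = algebraMap O L ((f.map σ).eval ρ *
        ((U⁻¹ : Oˣ) : O)) := by
      have h9 : ι ((f.map σ).eval ρ') * ι ((U⁻¹ : Oˣ) : O) = 1 := by
        rw [← hU, ← map_mul, Units.mul_inv, map_one]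
      rw [map_mul]
      show y ^ ℓ = ι ((f.map σ).eval ρ) * ι _
      rw [← hyy, mul_assoc, h9, mul_one]
    have : IsIntegral (O) (y ^ ℓ) := by rw [h8]; exact isIntegral_algebraMap
    exact this.of_pow (Nat.pos_of_ne_zero hℓ)
  obtain ⟨y0, hy0⟩ := IsIntegrallyClosed.isIntegral_iff.1 hint
  have h8 : y0 ^ ℓ * (f.map σ).eval ρ' = (f.map σ).eval ρ := by
    apply hιinj
    rw [map_mul, map_pow]
    show (algebraMap O L y0) ^ ℓ * _ = _
    rw [hy0]
    exact hyy
  have h9 := congrArg π h8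
  rw [map_mul, map_pow, h7, h7, hρr, hρr'] at h9
  exact h6 _ h9.symm

theorem irr_of_redn [IsIntegrallyClosed O] (hπ : HR π) (σ : A →+* O) (hσ : Function.Injective σ)
    {n : ℕ} (hn : n ≠ 0) (c : Fin (n + 1) → A)
    (hd : (pol fun j => π.comp σ (c j)).natDegree = n)
    (h : Irreducible (pol fun j => π.comp σ (c j))) :
    Irreducible (pol fun j => algebraMap A k (c j)) :=
  irr_of_redn' hπ (FractionRing O) σ hσ hn c hd h

theorem pair_contraG [IsIntegrallyClosed O] (hπ : HR π) {ℓ : ℕ} (hℓ : ℓ ≠ 0) (σ : A →+* O)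
    (hσ : Function.Injective σ)
    {N : ℕ} {c : Fin N → A} {f : A[X]}
    (hobs : PObsG ℓ (f.map (π.comp σ)) (fun j => π.comp σ (c j))) {W z : k[X]} {a : k}
    (ha : a ≠ 0)
    (hW : IsCoprime (pol fun j => algebraMap A k (c j)) W)
    (hD : (pol fun j => algebraMap A k (c j)) ∣
      C a * (f.map (algebraMap A k) * W ^ ℓ) - z ^ ℓ) : False :=
  pair_contraG' hπ (FractionRing O) hℓ σ hσ hobs ha hW hD

end loc

/-- no new powers of constants modulo an irreducible polynomial with the factorisation type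
`1, n - 1` over an extension -/
theorem const_of_facG {k L : Type} [Field k] [Field L] {ℓ : ℕ} (hℓ : ℓ.Prime)
    (φ : k →+* L) {ζ : L} (hζ : IsPrimitiveRoot ζ ℓ) {D : k[X]}
    {m : ℕ} (hDd : D.natDegree = m + 1) (hm : 2 ≤ m) {ρ : L} {G : L[X]} (hG : Irreducible G)
    (hGd : G.natDegree = m) (h : D.map φ = (X - C ρ) * G) {c : k}
    (hc : ∃ a : k[X], D ∣ C c - a ^ ℓ) : ∃ b : k, c = b ^ ℓ := by
  obtain ⟨a, ha⟩ := hc
  by_contra hns
  push Not at hns
  have hc0 : c ≠ 0 := fun h0 => hns 0 (by rw [h0, zero_pow hℓ.ne_zero])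
  have hirr : Irreducible (X ^ ℓ - C c : k[X]) := by
    refine X_pow_sub_C_irreducible_of_prime hℓ ?_
    intro b hb
    exact hns b hb.symm
  haveI : Fact (Irreducible (X ^ ℓ - C c : k[X])) := ⟨hirr⟩
  let M := AdjoinRoot (X ^ ℓ - C c : k[X])
  set s : L := (a.map φ).eval ρ with hs
  have hD0 : D ≠ 0 := by
    rintro rfl
    simp at hDd
  have hDL : D.map φ ∣ C (φ c) - (a.map φ) ^ ℓ := by
    have := Polynomial.map_dvd φ ha
    rwa [Polynomial.map_sub, map_C, Polynomial.map_pow] at this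
  have hs2 : s ^ ℓ = φ c := by
    obtain ⟨q, hq⟩ := hDL
    have h1 := congrArg (fun g : L[X] => g.eval ρ) hq
    simp only [h, eval_sub, eval_mul, eval_pow, eval_C, eval_X, sub_self, zero_mul] at h1
    rw [hs]
    exact (sub_eq_zero.1 h1).symm
  have hs0 : s ≠ 0 := by
    intro h0
    rw [h0, zero_pow hℓ.ne_zero] at hs2
    exact hc0 ((map_eq_zero φ).1 hs2.symm)
  have hψe : ∀ t : L, t ^ ℓ = φ c → (X ^ ℓ - C c : k[X]).eval₂ φ t = 0 := by
    intro t ht
    rw [eval₂_sub, eval₂_pow, eval₂_X, eval₂_C, ht, sub_self]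
  let ψ : (t : L) → t ^ ℓ = φ c → (M →+* L) := fun t ht => AdjoinRoot.lift φ t (hψe t ht)
  have hψr : ∀ t ht, ψ t ht (AdjoinRoot.root _) = t := fun t ht =>
    AdjoinRoot.lift_root (hψe t ht)
  have hψo : ∀ t ht, (ψ t ht).comp (AdjoinRoot.of _) = φ := by
    intro t ht
    ext x
    exact AdjoinRoot.lift_of (hψe t ht)
  set θ : M := AdjoinRoot.root _ with hθ
  set A : M[X] := EuclideanDomain.gcd (D.map (AdjoinRoot.of (X ^ ℓ - C c)))
    (C θ - a.map (AdjoinRoot.of (X ^ ℓ - C c))) with hA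
  have hAψ : ∀ t ht, A.map (ψ t ht) = EuclideanDomain.gcd (D.map φ) (C t - a.map φ) := by
    intro t ht
    rw [hA, ← Polynomial.gcd_map, Polynomial.map_sub, map_C, Polynomial.map_map,
      Polynomial.map_map, hψo t ht, hψr t ht]
  have hAd : ∀ t ht, A.natDegree = (A.map (ψ t ht)).natDegree := fun t ht =>
    (natDegree_map _).symm
  have hDφ0 : D.map φ ≠ 0 := (Polynomial.map_ne_zero_iff φ.injective).2 hD0
  have hn2 : (ζ * s) ^ ℓ = φ c := by rw [mul_pow, hζ.pow_eq_one, one_mul, hs2]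
  have hGD : G ∣ D.map φ := by rw [h]; exact dvd_mul_left _ _
  have hbig : ∀ (t : L) (ht : t ^ ℓ = φ c), G ∣ (C t - a.map φ) → m ≤ A.natDegree := by
    intro t ht hG'
    rw [hAd t ht, ← hGd]
    have h1 : G ∣ A.map (ψ t ht) := by
      rw [hAψ t ht]
      exact EuclideanDomain.dvd_gcd hGD hG'
    refine natDegree_le_of_dvd h1 ?_
    rw [hAψ t ht]
    intro h0
    exact hDφ0 (EuclideanDomain.gcd_eq_zero_iff.1 h0).1
  have hm' : m ≤ A.natDegree := by
    have hζ' : IsPrimitiveRoot (C ζ) ℓ := hζ.map_of_injective (f := C) C_injective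
    have h2 : C (φ c) - (a.map φ) ^ ℓ = -∏ ξ ∈ nthRootsFinset ℓ (1 : L[X]),
        (a.map φ - ξ * C s) := by
      rw [← hζ'.pow_sub_pow_eq_prod_sub_mul _ _ hℓ.pos, ← C_pow, hs2]
      ring
    have h1 : G ∣ ∏ ξ ∈ nthRootsFinset ℓ (1 : L[X]), (a.map φ - ξ * C s) := by
      rw [← dvd_neg, ← h2]
      exact hGD.trans hDL
    obtain ⟨ξ, hξ, h3⟩ := (Prime.dvd_finset_prod_iff hG.prime _).1 h1
    rw [mem_nthRootsFinset hℓ.pos] at hξ
    haveI : NeZero ℓ := ⟨hℓ.ne_zero⟩
    obtain ⟨i, -, hi⟩ := hζ'.eq_pow_of_pow_eq_one hξ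
    refine hbig (ζ ^ i * s) ?_ ?_
    · rw [mul_pow, ← pow_mul, mul_comm i ℓ, pow_mul, hζ.pow_eq_one, one_pow, one_mul, hs2]
    · rw [← dvd_neg, neg_sub, C_mul, C_pow, hi]
      exact h3
  have hcop : IsCoprime (A.map (ψ s hs2)) (A.map (ψ (ζ * s) hn2)) := by
    have hd : s - ζ * s ≠ 0 := by
      have : s - ζ * s = (1 - ζ) * s := by ring
      rw [this]
      exact mul_ne_zero (sub_ne_zero.2 (hζ.ne_one hℓ.one_lt).symm) hs0
    have h1 : IsCoprime (C s - a.map φ) (C (ζ * s) - a.map φ) := by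
      refine ⟨C (1 / (s - ζ * s)), -C (1 / (s - ζ * s)), ?_⟩
      have h2 : C (1 / (s - ζ * s)) * (C s - a.map φ) +
          -C (1 / (s - ζ * s)) * (C (ζ * s) - a.map φ) =
          C (1 / (s - ζ * s) * (s - ζ * s)) := by
        simp only [C_mul, C_sub]
        ring
      rw [h2, one_div, inv_mul_cancel₀ hd, C_1]
    refine (h1.of_isCoprime_of_dvd_left ?_).of_isCoprime_of_dvd_right ?_
    · rw [hAψ s hs2]; exact EuclideanDomain.gcd_dvd_right _ _
    · rw [hAψ (ζ * s) hn2]; exact EuclideanDomain.gcd_dvd_right _ _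
  have hdvd : A.map (ψ s hs2) * A.map (ψ (ζ * s) hn2) ∣ D.map φ := by
    refine hcop.mul_dvd ?_ ?_
    · rw [hAψ s hs2]; exact EuclideanDomain.gcd_dvd_left _ _
    · rw [hAψ (ζ * s) hn2]; exact EuclideanDomain.gcd_dvd_left _ _
  have hle := natDegree_le_of_dvd hdvd hDφ0
  have hA0 : ∀ t ht, A.map (ψ t ht) ≠ 0 := by
    intro t ht h0
    rw [hAψ t ht] at h0
    exact hDφ0 (EuclideanDomain.gcd_eq_zero_iff.1 h0).1
  rw [natDegree_mul (hA0 s hs2) (hA0 (ζ * s) hn2), ← hAd s hs2, ← hAd (ζ * s) hn2, natDegree_map,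
    hDd] at hle
  omega

end Pool.Agent.L5helper72.SG
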