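import Pool.Agent.L5helper72.SG.Loc
import Pool.Agent.L5helper72.SG.Cntg

/-!
# The obstructions over an arbitrary finite field and the conclusion
-/

set_option autoImplicit false
set_option linter.all false

open scoped Classical

namespace Pool.Agent.L5helper72.SG

open Polynomial Pool.Agent.R431.SG Pool.Agent.Y713 IsDedekindDomain

section count

variable {F : Type} [Field F] [Fintype F] {N : ℕ}

/-- many tuples are obstructed -/
theorem card_sObsG {ℓ : ℕ} (hℓ : ℓ.Prime) (hex : ∃ γ : F, NP ℓ γ) {s : Fin N × Fin N → ℕ}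
    (hs : ∀ q : Fin N × Fin N, ¬ q.1 < q.2 → s q = 0) {q0 : Fin N × Fin N} (hq0 : ¬ ℓ ∣ s q0)
    (hN : 4 * N + 6 ≤ Fintype.card F) (hN2 : 2 * (N * N) ≤ Fintype.card F) (m : ℕ) :
    (1 / (2048 * (m + 2) ^ 2 : ℝ)) *
        (Fintype.card F : ℝ) ^ Fintype.card (Fin (N + 1) × Fin (m + 3)) ≤
      (({c : Fin (N + 1) × Fin (m + 3) → F |
        PObsG ℓ (fs s fun i => gp c i.succ) fun j => c (0, j)}.ncard : ℕ) : ℝ) := by
  set p := Fintype.card F with hpd
  set A : Finset (Fin (m + 3) → F) :=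
    Finset.univ.filter fun c : Fin (m + 3) → F => ∃ r r' : F, r ≠ r' ∧
        (pol c).eval r = 0 ∧ (pol c).eval r' = 0 ∧ (derivative (pol c)).eval r ≠ 0 ∧
        (derivative (pol c)).eval r' ≠ 0 with hA
  have hAc := card_twoG (F := F) (by omega) m
  rw [← hA, ← hpd] at hAc
  let S : (Fin (m + 3) → F) → (Fin N × Fin (m + 3) → F) → Prop := fun c0 c' =>
    ∃ r r' : F, (pol c0).eval r = 0 ∧ (pol c0).eval r' = 0 ∧
      (derivative (pol c0)).eval r ≠ 0 ∧ (derivative (pol c0)).eval r' ≠ 0 ∧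
      fs s (fun i => (pol fun j => c' (i, j)).eval r) ≠ 0 ∧
      fs s (fun i => (pol fun j => c' (i, j)).eval r') ≠ 0 ∧
      ∀ y, fs s (fun i => (pol fun j => c' (i, j)).eval r) ≠
        y ^ ℓ * fs s (fun i => (pol fun j => c' (i, j)).eval r')
  have hS : ∀ c0 ∈ A, (1 / 64 : ℝ) * (p : ℝ) ^ (N * (m + 3)) ≤
      ((Finset.univ.filter fun c' : Fin N × Fin (m + 3) → F => S c0 c').card : ℝ) := by
    intro c0 hc0
    rw [hA, Finset.mem_filter] at hc0
    obtain ⟨-, r, r', hr, h1, h2, h3, h4⟩ := hc0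
    have hcard := card_pairs (F := F) hℓ hex hs hq0 hN hN2
    rw [← hpd] at hcard
    set Z : Set ((Fin N → F) × (Fin N → F)) := {z | fs s z.1 ≠ 0 ∧ fs s z.2 ≠ 0 ∧
        ∀ y, fs s z.1 ≠ y ^ ℓ * fs s z.2} with hZ
    have hZc : Z.ncard = (Finset.univ.filter fun z : (Fin N → F) × (Fin N → F) =>
        fs s z.1 ≠ 0 ∧ fs s z.2 ≠ 0 ∧ ∀ y, fs s z.1 ≠ y ^ ℓ * fs s z.2).card := by
      rw [← Set.ncard_coe_finset]
      congr 1
      ext z
      simp [hZ]
    have h5 := proportion (ev2G N m r r') (ev2G_surj hr) Z (δ := 1 / 64)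
      (Ω := {c' | S c0 c'}) (by
        rw [Fintype.card_prod, Fintype.card_fun, Fintype.card_fin, hZc, ← hpd]
        have h6 : ((p ^ N * p ^ N : ℕ) : ℝ) ≤ ((64 * (Finset.univ.filter fun z :
          (Fin N → F) × (Fin N → F) =>
            fs s z.1 ≠ 0 ∧ fs s z.2 ≠ 0 ∧ ∀ y, fs s z.1 ≠ y ^ ℓ * fs s z.2).card : ℕ) : ℝ) := by
          exact_mod_cast hcard
        rw [Nat.cast_mul 64] at h6
        push_cast at h6 ⊢
        linarith) (fun c' hc' => ⟨r, r', h1, h2, h3, h4, hc'⟩)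
    rw [Fintype.card_fun, Fintype.card_prod, Fintype.card_fin, Fintype.card_fin,
      Nat.cast_pow, ← hpd] at h5
    refine h5.trans (le_of_eq ?_)
    rw [← Set.ncard_coe_finset]
    congr 2
    ext c'
    simp
  have h1 : ∑ c0 ∈ A, (Finset.univ.filter fun c' : Fin N × Fin (m + 3) → F =>
      S c0 c').card ≤ {c : Fin (N + 1) × Fin (m + 3) → F |
        PObsG ℓ (fs s fun i => gp c i.succ) fun j => c (0, j)}.ncard := by
    rw [← Finset.card_sigma, ← Set.ncard_coe_finset]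
    let ψ : (Σ _ : Fin (m + 3) → F, (Fin N × Fin (m + 3) → F)) →
        (Fin (N + 1) × Fin (m + 3) → F) := fun z q =>
      Fin.cases (z.1 q.2) (fun i => z.2 (i, q.2)) q.1
    have hψ : Function.Injective ψ := by
      rintro ⟨a, b⟩ ⟨a', b'⟩ h
      have e1 : a = a' := by
        funext j
        exact congrFun h (0, j)
      have e2 : b = b' := by
        funext q
        exact congrFun h (q.1.succ, q.2)
      rw [e1, e2]
    rw [← Set.ncard_image_of_injective _ hψ]
    refine Set.ncard_le_ncard ?_ (Set.toFinite _)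
    rintro _ ⟨z, hz, rfl⟩
    rw [Finset.mem_coe, Finset.mem_sigma] at hz
    obtain ⟨r, r', h1, h2, h3, h4, h5, h6, h7⟩ := (Finset.mem_filter.1 hz.2).2
    have hev : ∀ t : F, (fs s fun i => gp (ψ z) i.succ).eval t =
        fs s fun i => (pol fun j => z.2 (i, j)).eval t := fun t =>
      fs_map (evalRingHom t) s _
    refine ⟨r, r', h1, h2, h3, h4, ?_, ?_, ?_⟩
    · rw [hev]; exact h5
    · rw [hev]; exact h6
    · intro y
      rw [hev, hev]
      exact h7 y
  have h2 : ((∑ c0 ∈ A, (Finset.univ.filter fun c' : Fin N × Fin (m + 3) → F =>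
      S c0 c').card : ℕ) : ℝ) ≤ (({c : Fin (N + 1) × Fin (m + 3) → F |
        PObsG ℓ (fs s fun i => gp c i.succ) fun j => c (0, j)}.ncard : ℕ) : ℝ) := by
    exact_mod_cast h1
  refine le_trans ?_ h2
  rw [Nat.cast_sum]
  have h3 : (A.card : ℝ) * ((1 / 64 : ℝ) * (p : ℝ) ^ (N * (m + 3))) ≤
      ∑ c0 ∈ A, ((Finset.univ.filter fun c' : Fin N × Fin (m + 3) → F =>
        S c0 c').card : ℝ) := by
    rw [← nsmul_eq_mul, ← Finset.sum_const]
    exact Finset.sum_le_sum fun c0 hc0 => hS c0 hc0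
  refine le_trans ?_ h3
  have h4 : (0 : ℝ) ≤ (1 / 64 : ℝ) * (p : ℝ) ^ (N * (m + 3)) := by positivity
  refine le_trans (le_of_eq ?_) (mul_le_mul_of_nonneg_right hAc h4)
  have h5 : (1 / (2048 * (m + 2) ^ 2 : ℝ)) = (1 / (32 * (m + 2) ^ 2 : ℝ)) * (1 / 64) := by
    rw [div_mul_div_comm, one_mul]
    congr 1
    ring
  rw [Fintype.card_prod, Fintype.card_fin, Fintype.card_fin, Nat.add_mul, one_mul, pow_add, h5]
  ring

/-- the projection to the first polynomial -/
def prj0G (N m : ℕ) : (Fin (N + 1) × Fin (m + 3) → F) →+ (Fin (m + 3) → F) where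
  toFun c := fun j => c (0, j)
  map_zero' := rfl
  map_add' _ _ := rfl

lemma prj0G_surj {m : ℕ} : Function.Surjective (prj0G (F := F) N m) := fun u =>
  ⟨fun q => u q.2, rfl⟩

/-- the difference of two polynomials -/
def prjdG (N m : ℕ) (a b : Fin N) :
    (Fin (N + 1) × Fin (m + 3) → F) →+ (Fin (m + 3) → F) where
  toFun c := fun j => c (a.succ, j) - c (b.succ, j)
  map_zero' := by funext j; simp
  map_add' c d := by
    funext j
    simp only [Pi.add_apply]
    ring

lemma prjdG_surj {m : ℕ} {a b : Fin N} (h : a ≠ b) :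
    Function.Surjective (prjdG (F := F) N m a b) := fun u => by
  refine ⟨fun q => if q.1 = a.succ then u q.2 else 0, ?_⟩
  funext j
  show (if a.succ = a.succ then u j else 0) - (if b.succ = a.succ then u j else 0) = u j
  rw [if_pos rfl, if_neg fun h' => h (Fin.succ_injective _ h').symm, sub_zero]

end count

/-- the labels of the obstructions -/
abbrev Lab (ℓ N : ℕ) : Type := Option (Option ((Fin N × Fin N) ⊕ (Fin N × Fin N → Fin ℓ)))

/-- the obstructions for tuples -/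
def ObsG (ℓ N m : ℕ) (S : Lab ℓ N) (F : Type) [Field F] : Set (Fin (N + 1) × Fin (m + 3) → F) :=
  match S with
  | none => {c | (pol fun j => c (0, j)).natDegree = m + 2 ∧ Irreducible (pol fun j => c (0, j))}
  | some none => {c | ∃ (r : F) (g : F[X]), (pol fun j => c (0, j)) = (X - C r) * g ∧
      g.natDegree = m + 1 ∧ Irreducible g}
  | some (some (Sum.inl q)) => {c | q.1 ≠ q.2 →
      ((pol fun j => c (q.1.succ, j) - c (q.2.succ, j)).natDegree = m + 2 ∧
      Irreducible (pol fun j => c (q.1.succ, j) - c (q.2.succ, j)))}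
  | some (some (Sum.inr s)) => {c | ((∀ q, ¬ q.1 < q.2 → (s q : ℕ) = 0) ∧ ∃ q, (s q : ℕ) ≠ 0) →
      PObsG ℓ (fs (fun q => (s q : ℕ)) fun i => gp c i.succ) fun j => c (0, j)}

section cnt2

variable {F : Type} [Field F] [Fintype F]

lemma card_univ_IG (N m : ℕ) {δ : ℝ} (hδ : δ ≤ 1) :
    δ * (Fintype.card F : ℝ) ^ Fintype.card (Fin (N + 1) × Fin (m + 3)) ≤
      (((Set.univ : Set (Fin (N + 1) × Fin (m + 3) → F)).ncard : ℕ) : ℝ) := by
  rw [Set.ncard_univ, Nat.card_eq_fintype_card, Fintype.card_fun, Nat.cast_pow]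
  have h0 : (0 : ℝ) ≤ (Fintype.card F : ℝ) ^ Fintype.card (Fin (N + 1) × Fin (m + 3)) := by
    positivity
  calc δ * (Fintype.card F : ℝ) ^ Fintype.card (Fin (N + 1) × Fin (m + 3)) ≤
      1 * (Fintype.card F : ℝ) ^ Fintype.card (Fin (N + 1) × Fin (m + 3)) :=
        mul_le_mul_of_nonneg_right hδ h0
    _ = _ := one_mul _

lemma card_pullG (N m : ℕ) {δ δ0 : ℝ} (hδ : δ ≤ δ0)
    (f : (Fin (N + 1) × Fin (m + 3) → F) →+ (Fin (m + 3) → F))
    (hf : Function.Surjective f) (Z : Set (Fin (m + 3) → F))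
    (hZ : δ0 * (Fintype.card F : ℝ) ^ (m + 3) ≤ (Z.ncard : ℝ))
    {Ω : Set (Fin (N + 1) × Fin (m + 3) → F)} (hΩ : ∀ x, f x ∈ Z → x ∈ Ω) :
    δ * (Fintype.card F : ℝ) ^ Fintype.card (Fin (N + 1) × Fin (m + 3)) ≤ (Ω.ncard : ℝ) := by
  have h1 := proportion f hf Z (δ := δ0) (Ω := Ω) (by
    rw [Fintype.card_fun, Fintype.card_fin, Nat.cast_pow]
    exact hZ) hΩ
  rw [Fintype.card_fun, Nat.cast_pow] at h1
  refine le_trans (mul_le_mul_of_nonneg_right hδ (by positivity)) h1

/-- the counting -/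
theorem card_ObsG {ℓ : ℕ} (hℓ : ℓ.Prime) (hex : ∃ γ : F, NP ℓ γ) {N m : ℕ} (hm : 2 ≤ m)
    (S : Lab ℓ N) (hp : (4 * N + 6) + 2 * (N * N) ≤ Fintype.card F) :
    (1 / (2048 * ((m + 2 : ℕ) : ℝ) ^ 2)) *
        (Fintype.card F : ℝ) ^ Fintype.card (Fin (N + 1) × Fin (m + 3)) ≤
      ((ObsG ℓ N m S F).ncard : ℝ) := by
  obtain ⟨hδa, hδb, hδ1⟩ := e1 (show 4 ≤ m + 2 by omega) N
  rcases S with _ | _ | q | s
  · exact card_pullG N m hδa (prj0G N m) prj0G_surj _ (card_irrG F (by omega)) fun x hx => hx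
  · refine card_pullG N m hδb (prj0G N m) prj0G_surj
      {c | ∃ (r : F) (g : F[X]), pol c = (X - C r) * g ∧
        g.natDegree = m + 1 ∧ Irreducible g} ?_ fun x hx => hx
    exact card_facG F (m := m + 1) (by omega)
  · by_cases hq : q.1 = q.2
    · have h1 : ObsG ℓ N m (some (some (Sum.inl q))) F = Set.univ := by
        ext c
        simp [ObsG, hq]
      rw [h1]
      exact card_univ_IG N m hδ1
    · exact card_pullG N m hδa (prjdG N m q.1 q.2) (prjdG_surj hq) _ (card_irrG F (by omega))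
        fun x hx _ => hx
  · by_cases hs : (∀ q, ¬ q.1 < q.2 → (s q : ℕ) = 0) ∧ ∃ q, (s q : ℕ) ≠ 0
    · obtain ⟨q0, hq0⟩ := hs.2
      have h1 : ¬ ℓ ∣ (s q0 : ℕ) := Nat.not_dvd_of_pos_of_lt (Nat.pos_of_ne_zero hq0) (s q0).2
      have h2 := card_sObsG (F := F) hℓ hex hs.1 h1 (by omega) (by omega) m
      have h3 : ObsG ℓ N m (some (some (Sum.inr s))) F =
          {c | PObsG ℓ (fs (fun q => (s q : ℕ)) fun i => gp c i.succ) fun j => c (0, j)} := by
        ext c
        show (_ → _) ↔ _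
        exact ⟨fun h => h hs, fun h _ => h⟩
      rw [h3]
      refine le_trans (le_of_eq ?_) h2
      push_cast
      rfl
    · have h1 : ObsG ℓ N m (some (some (Sum.inr s))) F = Set.univ := by
        ext c
        show (_ → _) ↔ _
        exact ⟨fun _ => Set.mem_univ _, fun _ h => absurd h hs⟩
      rw [h1]
      exact card_univ_IG N m hδ1

lemma card_trnG {M N : ℕ} (i : Fin M)
    (Z : Set (Fin (M + 1) × Fin N → F)) : {c | trn i c ∈ Z}.ncard = Z.ncard := by
  have hs : Function.Surjective (trn (R := F) (N := N) i) :=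
    Finite.surjective_of_injective (trn_inj i)
  rw [← Set.ncard_image_of_injective _ (trn_inj (R := F) (N := N) i)]
  congr 1
  ext x
  constructor
  · rintro ⟨c, hc, rfl⟩
    exact hc
  · intro hx
    obtain ⟨c, rfl⟩ := hs x
    exact ⟨c, hx, rfl⟩

end cnt2

/-- the homomorphism `ρ` lifts to an injective homomorphism to a henselian ring -/
def Liftable {A F : Type} [CommRing A] [Field F] (ρ : A →+* F) : Prop :=
  ∃ (O : Type) (_ : CommRing O) (_ : IsDomain O) (_ : IsIntegrallyClosed O) (π : O →+* F)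
    (σ : A →+* O), HR π ∧ Function.Injective σ ∧ π.comp σ = ρ

section data

variable {A k : Type} [CommRing A] [IsDomain A] [Field k] [Algebra A k] [IsFractionRing A k]

/-- the properties of a tuple with all obstructions -/
theorem tuple_dataG {ℓ : ℕ} (hℓ : ℓ.Prime) {ζ : k}
    (hζ : IsPrimitiveRoot ζ ℓ) {N m : ℕ} (hm : 2 ≤ m) (c : Fin (N + 1) × Fin (m + 3) → A)
    (hall : ∀ S : Lab ℓ N, ∃ (F : Type) (_ : Field F) (ρ : A →+* F),
      Liftable ρ ∧ (fun q => ρ (c q)) ∈ ObsG ℓ N m S F) :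
    Irreducible (gp (fun q => algebraMap A k (c q)) 0) ∧
    (∀ b : k, (∃ a : k[X], gp (fun q => algebraMap A k (c q)) 0 ∣ C b - a ^ ℓ) →
      ∃ b' : k, b = b' ^ ℓ) ∧
    (∀ i j : Fin N, i ≠ j → Irreducible (gp (fun q => algebraMap A k (c q)) i.succ -
      gp (fun q => algebraMap A k (c q)) j.succ)) ∧
    (∀ s : Fin N × Fin N → ℕ, (∀ q, s q < ℓ) → (∀ q, ¬ q.1 < q.2 → s q = 0) →
      (∃ q, s q ≠ 0) → ∀ (a : k) (W z : k[X]), a ≠ 0 →
        IsCoprime (gp (fun q => algebraMap A k (c q)) 0) W →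
        ¬ gp (fun q => algebraMap A k (c q)) 0 ∣
          C a * (fs s (fun i => gp (fun q => algebraMap A k (c q)) i.succ) * W ^ ℓ) -
            z ^ ℓ) := by
  have hinj : Function.Injective (algebraMap A k) := IsFractionRing.injective A k
  have hred : ∀ (d : Fin (m + 3) → A) (F : Type) [Field F] (ρ : A →+* F), Liftable ρ →
      (pol fun j => ρ (d j)).natDegree = m + 2 → Irreducible (pol fun j => ρ (d j)) →
      Irreducible (pol fun j => algebraMap A k (d j)) ∧
        (pol fun j => algebraMap A k (d j)).natDegree = m + 2 := by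
    rintro d F _ _ ⟨O, _, _, _, π, σ, hπ, hσ, rfl⟩ h1 h2
    refine ⟨irr_of_redn hπ σ hσ (by omega) d h1 h2, le_antisymm (pol_degree _) ?_⟩
    have h3 : ((pol fun j => d j).map (π.comp σ)).natDegree = m + 2 := by
      rw [pol_map]; exact h1
    have h4 : ((pol fun j => d j).map (π.comp σ)).natDegree ≤ (pol fun j => d j).natDegree :=
      natDegree_map_le
    have h5 : (pol fun j => algebraMap A k (d j)) =
        (pol fun j => d j).map (algebraMap A k) := by rw [pol_map]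
    rw [h5, natDegree_map_eq_of_injective hinj]
    omega
  obtain ⟨F, _, ρ, hρ, hirr⟩ := hall none
  obtain ⟨hD, hDd⟩ := hred (fun j => c (0, j)) F ρ hρ hirr.1 hirr.2
  refine ⟨hD, ?_, ?_, ?_⟩
  · intro b hb
    obtain ⟨F, _, _, ⟨O, _, _, _, π, σ, hπ, hσ, rfl⟩, r, g, hg1, hg2, hg3⟩ := hall (some none)
    have h3 : (pol fun j => σ (c (0, j))).map π = (X - C r) * g := by
      rw [pol_red]
      exact hg1
    let L := FractionRing O
    obtain ⟨ρ, G, hG1, hG2, hG3⟩ := fac_ps hπ L (f := pol fun j => σ (c (0, j))) (m := m + 1)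
      (pol_degree _) r g hg3 hg2 (by omega) h3
    refine const_of_facG hℓ (extn k L σ hσ) (hζ.map_of_injective (extn k L σ hσ).injective) hDd
      (by omega) hG1 hG2 (ρ := ρ) ?_ hb
    rw [← hG3, pol_ext]
  · intro i j hij
    obtain ⟨F, _, ρ, hρ, hq⟩ := hall (some (some (Sum.inl (i, j))))
    obtain ⟨h1, h2⟩ := hq hij
    have h3 : ∀ t, ρ (c (i.succ, t) - c (j.succ, t)) =
        ρ (c (i.succ, t)) - ρ (c (j.succ, t)) := fun t => map_sub _ _ _
    have h4 := hred (fun t => c (i.succ, t) - c (j.succ, t)) F ρ hρ (by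
      simp only [h3]; exact h1) (by simp only [h3]; exact h2)
    have h5 : gp (fun q => algebraMap A k (c q)) i.succ -
        gp (fun q => algebraMap A k (c q)) j.succ =
        pol fun t => algebraMap A k (c (i.succ, t) - c (j.succ, t)) := by
      unfold gp
      rw [pol_sub]
      simp only [map_sub]
    rw [h5]
    exact h4.1
  · intro s h1 h2 h3 a W z ha hW hd
    obtain ⟨F, _, _, ⟨O, _, _, _, π, σ, hπ, hσ, rfl⟩, ho⟩ :=
      hall (some (some (Sum.inr fun q => ⟨s q, h1 q⟩)))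
    have ho' := ho ⟨h2, h3⟩
    refine pair_contraG hπ hℓ.ne_zero σ hσ (c := fun j => c (0, j))
      (f := fs s fun i => gp c i.succ) ?_ ha hW (z := z) ?_
    · rw [fs_gp_map]
      exact ho'
    · rw [fs_gp_map]
      exact hd

/-- the conclusion for the first family -/
theorem curves_of_obs {ℓ : ℕ} (hℓ : ℓ.Prime) (hk : (ℓ : k) ≠ 0) {ζ : k}
    (hζ : IsPrimitiveRoot ζ ℓ) {N : ℕ} (hN : ¬ ℓ ∣ N) {m : ℕ} (hm : 2 ≤ m)
    (c : Fin (N + 1) × Fin (m + 3) → A)
    (hall : ∀ S : Lab ℓ N, ∃ (F : Type) (_ : Field F) (ρ : A →+* F),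
      Liftable ρ ∧ (fun q => ρ (c q)) ∈ ObsG ℓ N m S F) :
    Jac.ShaPrimaryTrivial ℓ (C (algebraMap k[X] (RatFunc k)
      (gp (fun q => algebraMap A k (c q)) 0)) * ∏ i : Fin N, (X - C (algebraMap k[X]
        (RatFunc k) (gp (fun q => algebraMap A k (c q)) i.succ)))) k[X] := by
  obtain ⟨hD, hcs, hirr, hobs⟩ := tuple_dataG (k := k) hℓ hζ hm c hall
  obtain ⟨T, hT, hbad, hTD⟩ := obs_data hℓ
    (fun i : Fin N => gp (fun q => algebraMap A k (c q)) i.succ) hirr
  obtain ⟨h1, h2, h3⟩ := hTD _ hD hobs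
  refine tuple_crit (RatFunc k) hℓ hk hζ hN ?_ T hT hbad hD hcs h1 h3
  intro i j hij
  by_contra hne
  exact (hirr i j hne).ne_zero (sub_eq_zero.2 hij)

/-- the conclusion for the second family -/
theorem star_of_obs {ℓ : ℕ} (hℓ : ℓ.Prime) (hk : (ℓ : k) ≠ 0) {ζ : k}
    (hζ : IsPrimitiveRoot ζ ℓ) {M : ℕ} (hM : 2 ≤ M) (hN : ¬ ℓ ∣ M + 1) {m : ℕ} (hm : 2 ≤ m)
    (c : Fin (M + 1) × Fin (m + 3) → A)
    (hall : ∀ (i : Fin M) (S : Lab ℓ M), ∃ (F : Type) (_ : Field F) (ρ : A →+* F),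
      Liftable ρ ∧ (trn i fun q => ρ (c q)) ∈ ObsG ℓ M m S F)
    (δ : k) (hδ : δ ≠ 0) :
    Jac.ShaPrimaryTrivial ℓ (C (algebraMap k[X] (RatFunc k) (C δ)) *
      ∏ i : Fin (M + 1), (X - C (algebraMap k[X]
        (RatFunc k) (gp (fun q => algebraMap A k (c q)) i)))) k[X] := by
  have hdata : ∀ i : Fin M, _ := fun i => tuple_dataG (k := k) (ζ := ζ) hℓ hζ (N := M) (m := m)
    hm (trn i c) (by
      intro S
      obtain ⟨F, _, ρ, hρ, ho⟩ := hall i S
      refine ⟨F, inferInstance, ρ, hρ, ?_⟩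
      rw [trn_map]
      exact ho)
  have i0 : Fin M := ⟨0, by omega⟩
  have hmap : ∀ i : Fin M, (fun q => algebraMap A k (trn i c q)) =
      trn i fun q => algebraMap A k (c q) := fun i => trn_map _ i c
  have hg0 : ∀ i : Fin M, gp (fun q => algebraMap A k (trn i c q)) 0 =
      gp (fun q => algebraMap A k (c q)) 0 -
        gp (fun q => algebraMap A k (c q)) i.succ := by
    intro i
    rw [hmap, gp_trn_zero]
  have hgs : ∀ i j : Fin M, gp (fun q => algebraMap A k (trn i c q)) j.succ =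
      gp (fun q => algebraMap A k (c q)) j.succ := by
    intro i j
    rw [hmap, gp_trn_succ]
  simp only [hg0, hgs] at hdata
  obtain ⟨T, hT, hbad, hTD⟩ := obs_data hℓ
    (fun i : Fin M => gp (fun q => algebraMap A k (c q)) i.succ) (hdata i0).2.2.1
  have hall2 := fun i : Fin M => hTD _ (hdata i).1 (hdata i).2.2.2
  have hcons' : ∀ i, gp (fun q => algebraMap A k (c q)) i =
      (Fin.cons (gp (fun q => algebraMap A k (c q)) 0)
        (fun i : Fin M => gp (fun q => algebraMap A k (c q)) i.succ) :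
          Fin (M + 1) → k[X]) i := by
    intro i
    rcases Fin.eq_zero_or_eq_succ i with rfl | ⟨j, rfl⟩
    · rfl
    · rfl
  have hprod : ∏ i : Fin (M + 1), (X - C (algebraMap k[X] (RatFunc k)
      (gp (fun q => algebraMap A k (c q)) i))) =
      ∏ i : Fin (M + 1), (X - C (algebraMap k[X] (RatFunc k)
        ((Fin.cons (gp (fun q => algebraMap A k (c q)) 0)
        (fun i : Fin M => gp (fun q => algebraMap A k (c q)) i.succ) :
          Fin (M + 1) → k[X]) i))) :=
    Finset.prod_congr rfl fun i _ => by rw [← hcons' i]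
  rw [hprod]
  exact star_crit (RatFunc k) hℓ hk hζ hM hN T hT hbad
    (fun i => (hdata i).1) (fun i => (hdata i).2.1) (fun i => (hall2 i).1)
    (fun i => (hall2 i).2.1) (fun i => (hall2 i).2.2) hδ

end data

end Pool.Agent.L5helper72.SG
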