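import Pool.Agent.L5helper72.SG.Comb
import Pool.Agent.L5helper72.SG.Dns

/-!
# Finitely generated rings are rich
-/

set_option autoImplicit false
set_option linter.all false

open scoped Classical

namespace Pool.Agent.L5helper72.SG

open Polynomial Pool.Agent.R431.SG

/-- the restriction to a finitely generated ring -/
theorem restr {A k O : Type} [CommRing A] [IsDomain A] [Field k] [Algebra A k]
    [IsFractionRing A k] [CommRing O] [IsDomain O] (σ : k →+* FractionRing O) (S : Finset A)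
    (hS : Algebra.adjoin ℤ (S : Set A) = ⊤)
    (h : ∀ a ∈ S, a ≠ 0 → ∃ u : Oˣ, σ (algebraMap A k a) = algebraMap O (FractionRing O) u) :
    ∃ σA : A →+* O, Function.Injective σA ∧
      ∀ a, algebraMap O (FractionRing O) (σA a) = σ (algebraMap A k a) := by
  have hinj : Function.Injective (algebraMap O (FractionRing O)) := IsFractionRing.injective O _
  let R : Subring A := ((algebraMap O (FractionRing O)).range).comap (σ.comp (algebraMap A k))
  have hR : ∀ a : A, a ∈ R := by
    have h1 : Algebra.adjoin ℤ (S : Set A) ≤ subalgebraOfSubring R := by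
      refine Algebra.adjoin_le ?_
      intro a ha
      show (σ.comp (algebraMap A k)) a ∈ (algebraMap O (FractionRing O)).range
      by_cases h0 : a = 0
      · rw [h0, map_zero]
        exact zero_mem _
      · obtain ⟨u, hu⟩ := h a ha h0
        exact ⟨u, hu.symm⟩
    intro a
    have h2 : a ∈ Algebra.adjoin ℤ (S : Set A) := by rw [hS]; exact Algebra.mem_top
    exact h1 h2
  have h1 : ∀ a : A, ∃ o : O, algebraMap O (FractionRing O) o = σ (algebraMap A k a) := hR
  choose f hf using h1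
  refine ⟨{ toFun := f, map_one' := ?_, map_mul' := ?_, map_zero' := ?_, map_add' := ?_ }, ?_,
    hf⟩
  · apply hinj; rw [hf, map_one, map_one, map_one]
  · intro a b; apply hinj; rw [hf, map_mul, map_mul, map_mul, hf, hf]
  · apply hinj; rw [hf, map_zero, map_zero, map_zero]
  · intro a b; apply hinj; rw [hf, map_add, map_add, map_add, hf, hf]
  · intro a b hab
    have h2 : f a = f b := hab
    have h3 := congrArg (algebraMap O (FractionRing O)) h2
    rw [hf, hf] at h3
    exact IsFractionRing.injective A k (σ.injective h3)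

theorem pt_of {A k B : Type} [CommRing A] [IsDomain A] [Field k] [Algebra A k]
    [IsFractionRing A k] [CommRing B] {P : B} (c : Cpl B P) (σ : k →+* FractionRing c.O)
    (S : Finset A) (hS : Algebra.adjoin ℤ (S : Set A) = ⊤)
    (hSE : ∀ a ∈ S, a ≠ 0 → ∃ u : c.Oˣ, σ (algebraMap A k a) =
      algebraMap c.O (FractionRing c.O) u) {ℓ : ℕ} (hℓ : ℓ.Prime) {ζ : k} (hζ : ζ ^ ℓ = 1)
    (hu1 : ∃ u : c.Oˣ, σ ζ = algebraMap c.O (FractionRing c.O) u)
    (hu2 : ∃ u : c.Oˣ, σ (1 - ζ) = algebraMap c.O (FractionRing c.O) u)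
    (G : Set B) (hG : Subring.closure G = ⊤)
    (hGA : ∀ g ∈ G, ∃ a b : A, (∃ u : c.Oˣ, σ (algebraMap A k b) =
      algebraMap c.O (FractionRing c.O) u) ∧
      algebraMap c.O (FractionRing c.O) (c.θ g) * σ (algebraMap A k b) = σ (algebraMap A k a)) :
    ∃ Q : Pt A ℓ, Nat.card c.F = Fintype.card Q.F := by
  have hinj : Function.Injective (algebraMap c.O (FractionRing c.O)) := IsFractionRing.injective _ _
  obtain ⟨σA, hσA, hσ⟩ := restr σ S hS hSE
  haveI : Fintype c.F := Fintype.ofFinite _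
  set ρ : A →+* c.F := c.π.comp σA with hρ
  -- inverses of elements of the image
  have hinv : ∀ y ∈ ρ.range, y ≠ 0 → y⁻¹ ∈ ρ.range := by
    intro y hy hy0
    have h1 : y ^ (Fintype.card c.F - 1) = 1 := FiniteField.pow_card_sub_one_eq_one y hy0
    have h2 : 2 ≤ Fintype.card c.F := Fintype.one_lt_card
    have h3 : y⁻¹ = y ^ (Fintype.card c.F - 2) := by
      refine inv_eq_of_mul_eq_one_left ?_
      rw [← pow_succ, show Fintype.card c.F - 2 + 1 = Fintype.card c.F - 1 by omega]
      exact h1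
    rw [h3]
    exact pow_mem hy _
  have hunit : ∀ b : A, (∃ u : c.Oˣ, σ (algebraMap A k b) =
      algebraMap c.O (FractionRing c.O) u) → ρ b ≠ 0 := by
    rintro b ⟨u, hu⟩ h0
    rw [← hσ] at hu
    have h1 : σA b = u := hinj hu
    have h2 : c.π (u : c.O) = 0 := by rw [← h1]; exact h0
    have h3 := (u.isUnit.map c.π).ne_zero
    exact h3 h2
  have hsurj : Function.Surjective ρ := by
    let R : Subring B := ρ.range.comap (c.π.comp c.θ)
    have hR : R = ⊤ := by
      rw [eq_top_iff, ← hG, Subring.closure_le]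
      intro g hg
      obtain ⟨a, b, hb, hab⟩ := hGA g hg
      show c.π (c.θ g) ∈ ρ.range
      have h1 : c.θ g * σA b = σA a := by
        apply hinj
        rw [map_mul, hσ, hσ]
        exact hab
      have h2 : c.π (c.θ g) * ρ b = ρ a := by
        have := congrArg c.π h1
        rw [map_mul] at this
        exact this
      have hb0 := hunit b hb
      have h3 : c.π (c.θ g) = ρ a * (ρ b)⁻¹ := by
        rw [← h2, mul_assoc, mul_inv_cancel₀ hb0, mul_one]
      rw [h3]
      exact mul_mem ⟨a, rfl⟩ (hinv _ ⟨b, rfl⟩ hb0)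
    intro y
    obtain ⟨x, hx⟩ := c.surj y
    have h1 : x ∈ R := by rw [hR]; exact Subring.mem_top x
    obtain ⟨a, ha⟩ := h1
    exact ⟨a, ha.trans hx⟩
  have hnp : ∃ γ : c.F, NP ℓ γ := by
    obtain ⟨u, hu⟩ := hu1
    obtain ⟨v, hv⟩ := hu2
    have h1 : (u : c.O) ^ ℓ = 1 := by
      apply hinj
      rw [map_pow, ← hu, ← map_pow, hζ, map_one, map_one]
    have h2 : (1 : c.O) - u = v := by
      apply hinj
      rw [map_sub, ← hu, ← hv, map_one, map_sub, map_one]
    refine exists_np hℓ.ne_zero (z := c.π u) ?_ ?_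
    · rw [← map_pow, h1, map_one]
    · intro h3
      have h4 : c.π (v : c.O) = 0 := by
        rw [← h2, map_sub, map_one, h3, sub_self]
      exact (v.isUnit.map c.π).ne_zero h4
  exact ⟨{ F := c.F, ρ := ρ, surj := hsurj, np := hnp,
           lift := ⟨c.O, inferInstance, inferInstance, inferInstance, c.π, σA, c.hr, hσA, rfl⟩ },
    Nat.card_eq_fintype_card⟩

theorem essFT (A k κ0 : Type) [CommRing A] [Field k] [Algebra A k] [IsFractionRing A k]
    [Algebra.FiniteType ℤ A] [Field κ0] [Algebra κ0 k] : Algebra.EssFiniteType κ0 k := by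
  haveI : Algebra.EssFiniteType ℤ A := inferInstance
  haveI : Algebra.EssFiniteType A k := Algebra.EssFiniteType.of_isLocalization _ (nonZeroDivisors A)
  haveI : Algebra.EssFiniteType ℤ k := Algebra.EssFiniteType.comp ℤ A k
  exact Algebra.EssFiniteType.of_comp ℤ κ0 k

/-- the set of elements which have to be units -/
noncomputable def unitSet {A k : Type} [CommRing A] [Field k] [Algebra A k] (S : Finset A) (ζ : k)
    (S' : Finset k) : Finset k :=
  ((S.image (algebraMap A k)) ∪ {ζ, 1 - ζ} ∪ S').filter fun x => x ≠ 0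

theorem denom (q : ℚ) : ∃ n m : ℤ, m ≠ 0 ∧ q = n / m := ⟨q.num, q.den, by
  exact_mod_cast q.den_ne_zero, by rw [Int.cast_natCast]; exact (Rat.num_div_den q).symm⟩

theorem rich_zero {A k : Type} [CommRing A] [IsDomain A] [Algebra.FiniteType ℤ A] [Field k]
    [CharZero k] [Algebra A k] [IsFractionRing A k] {ℓ : ℕ} (hℓ : ℓ.Prime) {ζ : k}
    (hζ : IsPrimitiveRoot ζ ℓ) : Rich A ℓ := by
  intro N
  obtain ⟨S, hS⟩ := Algebra.FiniteType.out (R := ℤ) (A := A)
  haveI : Algebra.EssFiniteType ℚ k := essFT A k ℚ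
  obtain ⟨s, hs, hsep⟩ := exists_isTranscendenceBasis_and_isSeparable_of_perfectField ℚ k
  set K0 := IntermediateField.adjoin ℚ (s : Set k) with hK0
  have hx : AlgebraicIndependent ℚ ((↑) : s → k) := hs.1
  let j : MvPolynomial s ℤ →+* k :=
    (MvPolynomial.aeval ((↑) : s → k) : MvPolynomial s ℚ →ₐ[ℚ] k).toRingHom.comp
      (MvPolynomial.map (Int.castRingHom ℚ))
  have hj : Function.Injective j := by
    intro x y hxy
    exact MvPolynomial.map_injective _ Int.cast_injective (hx hxy)
  have hjr : ∀ x, j x ∈ K0 := by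
    intro x
    have h1 : (MvPolynomial.aeval ((↑) : s → k) : MvPolynomial s ℚ →ₐ[ℚ] k)
        (MvPolynomial.map (Int.castRingHom ℚ) x) ∈ Algebra.adjoin ℚ (Set.range ((↑) : s → k)) := by
      rw [Algebra.adjoin_range_eq_range_aeval]
      exact ⟨_, rfl⟩
    have h2 : Set.range ((↑) : s → k) = (s : Set k) := Subtype.range_coe
    rw [h2] at h1
    exact IntermediateField.algebra_adjoin_le_adjoin _ _ h1
  have hclear : ∀ z : MvPolynomial s ℚ, ∃ (x : MvPolynomial s ℤ) (m : ℤ), m ≠ 0 ∧
      MvPolynomial.C (m : ℚ) * z = MvPolynomial.map (Int.castRingHom ℚ) x := by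
    intro z
    induction z using MvPolynomial.induction_on with
    | C a =>
      obtain ⟨n, m, hm, ha⟩ := denom a
      refine ⟨MvPolynomial.C n, m, hm, ?_⟩
      have hm' : (m : ℚ) ≠ 0 := by exact_mod_cast hm
      rw [MvPolynomial.map_C, ← MvPolynomial.C_mul, ha, mul_div_cancel₀ _ hm']
      rfl
    | add p q hp hq =>
      obtain ⟨x, m, hm, h1⟩ := hp
      obtain ⟨y, n, hn, h2⟩ := hq
      refine ⟨MvPolynomial.C n * x + MvPolynomial.C m * y, m * n, mul_ne_zero hm hn, ?_⟩
      rw [map_add, map_mul, map_mul, ← h1, ← h2, MvPolynomial.map_C, MvPolynomial.map_C]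
      push_cast
      rw [MvPolynomial.C_mul]
      have e1 : (Int.castRingHom ℚ) n = (n : ℚ) := rfl
      have e2 : (Int.castRingHom ℚ) m = (m : ℚ) := rfl
      rw [e1, e2]
      ring
    | mul_X p i hp =>
      obtain ⟨x, m, hm, h1⟩ := hp
      refine ⟨x * MvPolynomial.X i, m, hm, ?_⟩
      rw [map_mul, MvPolynomial.map_X, ← h1, mul_assoc]
  haveI hfr : letI : Algebra (MvPolynomial s ℤ) K0 := (j.codRestrict _ hjr).toAlgebra
      IsFractionRing (MvPolynomial s ℤ) K0 := by
    refine isFractionRing_adjoin (κ0 := ℚ) (s : Set k) j hj hjr ?_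
    intro z hz
    have h2 : Set.range ((↑) : s → k) = (s : Set k) := Subtype.range_coe
    rw [← h2, Algebra.adjoin_range_eq_range_aeval] at hz
    obtain ⟨w, rfl⟩ := hz
    obtain ⟨x, m, hm, hxm⟩ := hclear w
    have hm' : (m : k) ≠ 0 := by exact_mod_cast hm
    have e1 : j (MvPolynomial.C m) = (m : k) := by
      show (MvPolynomial.aeval ((↑) : s → k) : MvPolynomial s ℚ →ₐ[ℚ] k)
        (MvPolynomial.map (Int.castRingHom ℚ) (MvPolynomial.C m)) = _
      rw [MvPolynomial.map_C, MvPolynomial.aeval_C]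
      simp
    refine ⟨x, MvPolynomial.C m, by rw [e1]; exact hm', ?_⟩
    rw [e1, eq_div_iff hm']
    have h3 := congrArg (MvPolynomial.aeval ((↑) : s → k) : MvPolynomial s ℚ →ₐ[ℚ] k) hxm
    rw [map_mul, MvPolynomial.aeval_C] at h3
    have h4 : algebraMap ℚ k (m : ℚ) = (m : k) := by simp
    rw [h4, mul_comm] at h3
    exact h3
  letI : Algebra (MvPolynomial s ℤ) K0 := (j.codRestrict _ hjr).toAlgebra
  haveI := hfr
  letI : Algebra (MvPolynomial s ℤ) k := j.toAlgebra
  haveI : IsScalarTower (MvPolynomial s ℤ) K0 k := IsScalarTower.of_algebraMap_eq fun x => rfl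
  haveI : Algebra.IsAlgebraic K0 k := hsep.isAlgebraic
  haveI : Algebra.EssFiniteType K0 k := essFT A k K0
  haveI : FiniteDimensional K0 k := finiteDimensional_of_fg K0 k
  have hE0 : ∀ e ∈ unitSet S ζ (∅ : Finset k), e ≠ 0 := fun e he => (Finset.mem_filter.1 he).2
  obtain ⟨P, hP, hPc, c, hc, σ, -, hE⟩ := comb (B := ℤ) (τ := s) K0 (fun P => P.natAbs)
    (fun P hP => cpl_int P hP) (unitSet S ζ (∅ : Finset k)) hE0 ((N.factorial : ℕ) : ℤ)
    (by exact_mod_cast N.factorial_ne_zero)
  have hζ1 : ζ ≠ 0 := hζ.ne_zero hℓ.ne_zero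
  have hζ2 : 1 - ζ ≠ 0 := sub_ne_zero.2 (hζ.ne_one hℓ.one_lt).symm
  obtain ⟨Q, hQ⟩ := pt_of c σ S hS (fun a ha h0 => hE _ (by
      rw [unitSet, Finset.mem_filter, Finset.mem_union, Finset.mem_union]
      exact ⟨Or.inl (Or.inl (Finset.mem_image_of_mem _ ha)),
        (map_ne_zero_iff _ (IsFractionRing.injective A k)).2 h0⟩))
    hℓ hζ.pow_eq_one (hE _ (by
      rw [unitSet, Finset.mem_filter, Finset.mem_union, Finset.mem_union]
      exact ⟨Or.inl (Or.inr (by simp)), hζ1⟩))
    (hE _ (by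
      rw [unitSet, Finset.mem_filter, Finset.mem_union, Finset.mem_union]
      exact ⟨Or.inl (Or.inr (by simp)), hζ2⟩))
    ∅ (by
      rw [eq_top_iff]
      intro x _
      rw [← Int.cast_id (n := x)]
      exact intCast_mem _ x) (fun g hg => absurd hg (Set.notMem_empty g))
  refine ⟨Q, ?_, fun _ => by rw [← hQ, hc]; exact Int.prime_iff_natAbs_prime.1 hP⟩
  rw [← hQ, hc]
  by_contra hlt
  push Not at hlt
  apply hPc
  have h1 : P.natAbs ∣ N.factorial :=
    Nat.dvd_factorial (Int.prime_iff_natAbs_prime.1 hP).pos hlt.le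
  rw [← Int.natAbs_dvd]
  exact_mod_cast h1

end Pool.Agent.L5helper72.SG
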