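import Pool.Agent.L5helper72.SG.RchP
import Pool.Agent.L5helper72.SG.DnsE

/-!
# Pairs of finitely generated rings are rich
-/

set_option autoImplicit false
set_option linter.all false

open scoped Classical

namespace Pool.Agent.L5helper72.SG

open Polynomial Pool.Agent.R431.SG

theorem pt_ofE {A A' k' B : Type} [CommRing A] [CommRing A'] [IsDomain A'] [Algebra A A']
    [Field k'] [Algebra A' k'] [IsFractionRing A' k'] [CommRing B] {P : B} (c : Cpl B P)
    (σ : k' →+* FractionRing c.O)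
    (S : Finset A') (hS : Algebra.adjoin ℤ (S : Set A') = ⊤)
    (hSE : ∀ a ∈ S, a ≠ 0 → ∃ u : c.Oˣ, σ (algebraMap A' k' a) =
      algebraMap c.O (FractionRing c.O) u) {ℓ : ℕ} (hℓ : ℓ.Prime) {ζ : k'} (hζ : ζ ^ ℓ = 1)
    (hu1 : ∃ u : c.Oˣ, σ ζ = algebraMap c.O (FractionRing c.O) u)
    (hu2 : ∃ u : c.Oˣ, σ (1 - ζ) = algebraMap c.O (FractionRing c.O) u)
    (G : Set B) (hG : Subring.closure G = ⊤)
    (hGA : ∀ g ∈ G, ∃ a b : A, (∃ u : c.Oˣ, σ (algebraMap A' k' (algebraMap A A' b)) =
      algebraMap c.O (FractionRing c.O) u) ∧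
      algebraMap c.O (FractionRing c.O) (c.θ g) * σ (algebraMap A' k' (algebraMap A A' b)) =
        σ (algebraMap A' k' (algebraMap A A' a))) :
    ∃ Q : PtE A A' ℓ, Nat.card c.F = Fintype.card Q.F := by
  have hinj : Function.Injective (algebraMap c.O (FractionRing c.O)) := IsFractionRing.injective _ _
  obtain ⟨σA, hσA, hσ⟩ := restr σ S hS hSE
  haveI : Fintype c.F := Fintype.ofFinite _
  set ρ : A →+* c.F := (c.π.comp σA).comp (algebraMap A A') with hρ
  -- inverses of elements of the image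
  have hinv : ∀ y ∈ ρ.range, y ≠ 0 → y⁻¹ ∈ ρ.range := by
    intro y hy hy0
    have h1 : y ^ (Fintype.card c.F - 1) = 1 := FiniteField.pow_card_sub_one_eq_one y hy0
    have h2 : 2 ≤ Fintype.card c.F := Fintype.one_lt_card
    have h3 : y⁻¹ = y ^ (Fintype.card c.F - 2) := by
      refine inv_eq_of_mul_eq_one_left ?_
      rw [← pow_succ, show Fintype.card c.F - 2 + 1 = Fintype.card c.F - 1 by omega]
      exact h1
    rw [h3]
    exact pow_mem hy _
  have hunit : ∀ b : A', (∃ u : c.Oˣ, σ (algebraMap A' k' b) =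
      algebraMap c.O (FractionRing c.O) u) → c.π (σA b) ≠ 0 := by
    rintro b ⟨u, hu⟩ h0
    rw [← hσ] at hu
    have h1 : σA b = u := hinj hu
    have h2 : c.π (u : c.O) = 0 := by rw [← h1]; exact h0
    have h3 := (u.isUnit.map c.π).ne_zero
    exact h3 h2
  have hsurj : Function.Surjective ρ := by
    let R : Subring B := ρ.range.comap (c.π.comp c.θ)
    have hR : R = ⊤ := by
      rw [eq_top_iff, ← hG, Subring.closure_le]
      intro g hg
      obtain ⟨a, b, hb, hab⟩ := hGA g hg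
      show c.π (c.θ g) ∈ ρ.range
      have h1 : c.θ g * σA (algebraMap A A' b) = σA (algebraMap A A' a) := by
        apply hinj
        rw [map_mul, hσ, hσ]
        exact hab
      have h2 : c.π (c.θ g) * ρ b = ρ a := by
        have := congrArg c.π h1
        rw [map_mul] at this
        exact this
      have hb0 : ρ b ≠ 0 := hunit _ hb
      have h3 : c.π (c.θ g) = ρ a * (ρ b)⁻¹ := by
        rw [← h2, mul_assoc, mul_inv_cancel₀ hb0, mul_one]
      rw [h3]
      exact mul_mem ⟨a, rfl⟩ (hinv _ ⟨b, rfl⟩ hb0)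
    intro y
    obtain ⟨x, hx⟩ := c.surj y
    have h1 : x ∈ R := by rw [hR]; exact Subring.mem_top x
    obtain ⟨a, ha⟩ := h1
    exact ⟨a, ha.trans hx⟩
  have hnp : ∃ γ : c.F, NP ℓ γ := by
    obtain ⟨u, hu⟩ := hu1
    obtain ⟨v, hv⟩ := hu2
    have h1 : (u : c.O) ^ ℓ = 1 := by
      apply hinj
      rw [map_pow, ← hu, ← map_pow, hζ, map_one, map_one]
    have h2 : (1 : c.O) - u = v := by
      apply hinj
      rw [map_sub, ← hu, ← hv, map_one, map_sub, map_one]
    refine exists_np hℓ.ne_zero (z := c.π u) ?_ ?_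
    · rw [← map_pow, h1, map_one]
    · intro h3
      have h4 : c.π (v : c.O) = 0 := by
        rw [← h2, map_sub, map_one, h3, sub_self]
      exact (v.isUnit.map c.π).ne_zero h4
  exact ⟨{ F := c.F, ρ := c.π.comp σA, surj := hsurj, np := hnp,
           lift := ⟨c.O, inferInstance, inferInstance, inferInstance, c.π, σA, c.hr, hσA, rfl⟩ },
    Nat.card_eq_fintype_card⟩

section ext

variable {A A' k k' : Type} [CommRing A] [IsDomain A] [Algebra.FiniteType ℤ A] [Field k]
  [Algebra A k] [IsFractionRing A k] [CommRing A'] [IsDomain A'] [Algebra.FiniteType ℤ A']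
  [Field k'] [Algebra A' k'] [IsFractionRing A' k'] [Algebra A A'] [Algebra k k'] [Algebra A k']
  [IsScalarTower A A' k'] [IsScalarTower A k k'] [FiniteDimensional k k'] [Algebra.IsSeparable k k']

variable (A A' k k') in
theorem richE_zero [CharZero k] {ℓ : ℕ} (hℓ : ℓ.Prime) {ζ : k'}
    (hζ : IsPrimitiveRoot ζ ℓ) : RichE A A' ℓ := by
  intro N
  obtain ⟨S, hS⟩ := Algebra.FiniteType.out (R := ℤ) (A := A')
  haveI : Algebra.EssFiniteType ℚ k := essFT A k ℚ
  obtain ⟨s, hs, hsep⟩ := exists_isTranscendenceBasis_and_isSeparable_of_perfectField ℚ k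
  set K0 := IntermediateField.adjoin ℚ (s : Set k) with hK0
  have hx : AlgebraicIndependent ℚ ((↑) : s → k) := hs.1
  let j : MvPolynomial s ℤ →+* k :=
    (MvPolynomial.aeval ((↑) : s → k) : MvPolynomial s ℚ →ₐ[ℚ] k).toRingHom.comp
      (MvPolynomial.map (Int.castRingHom ℚ))
  have hj : Function.Injective j := by
    intro x y hxy
    exact MvPolynomial.map_injective _ Int.cast_injective (hx hxy)
  have hjr : ∀ x, j x ∈ K0 := by
    intro x
    have h1 : (MvPolynomial.aeval ((↑) : s → k) : MvPolynomial s ℚ →ₐ[ℚ] k)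
        (MvPolynomial.map (Int.castRingHom ℚ) x) ∈ Algebra.adjoin ℚ (Set.range ((↑) : s → k)) := by
      rw [Algebra.adjoin_range_eq_range_aeval]
      exact ⟨_, rfl⟩
    have h2 : Set.range ((↑) : s → k) = (s : Set k) := Subtype.range_coe
    rw [h2] at h1
    exact IntermediateField.algebra_adjoin_le_adjoin _ _ h1
  have hclear : ∀ z : MvPolynomial s ℚ, ∃ (x : MvPolynomial s ℤ) (m : ℤ), m ≠ 0 ∧
      MvPolynomial.C (m : ℚ) * z = MvPolynomial.map (Int.castRingHom ℚ) x := by
    intro z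
    induction z using MvPolynomial.induction_on with
    | C a =>
      obtain ⟨n, m, hm, ha⟩ := denom a
      refine ⟨MvPolynomial.C n, m, hm, ?_⟩
      have hm' : (m : ℚ) ≠ 0 := by exact_mod_cast hm
      rw [MvPolynomial.map_C, ← MvPolynomial.C_mul, ha, mul_div_cancel₀ _ hm']
      rfl
    | add p q hp hq =>
      obtain ⟨x, m, hm, h1⟩ := hp
      obtain ⟨y, n, hn, h2⟩ := hq
      refine ⟨MvPolynomial.C n * x + MvPolynomial.C m * y, m * n, mul_ne_zero hm hn, ?_⟩
      rw [map_add, map_mul, map_mul, ← h1, ← h2, MvPolynomial.map_C, MvPolynomial.map_C]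
      push_cast
      rw [MvPolynomial.C_mul]
      have e1 : (Int.castRingHom ℚ) n = (n : ℚ) := rfl
      have e2 : (Int.castRingHom ℚ) m = (m : ℚ) := rfl
      rw [e1, e2]
      ring
    | mul_X p i hp =>
      obtain ⟨x, m, hm, h1⟩ := hp
      refine ⟨x * MvPolynomial.X i, m, hm, ?_⟩
      rw [map_mul, MvPolynomial.map_X, ← h1, mul_assoc]
  haveI hfr : letI : Algebra (MvPolynomial s ℤ) K0 := (j.codRestrict _ hjr).toAlgebra
      IsFractionRing (MvPolynomial s ℤ) K0 := by
    refine isFractionRing_adjoin (κ0 := ℚ) (s : Set k) j hj hjr ?_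
    intro z hz
    have h2 : Set.range ((↑) : s → k) = (s : Set k) := Subtype.range_coe
    rw [← h2, Algebra.adjoin_range_eq_range_aeval] at hz
    obtain ⟨w, rfl⟩ := hz
    obtain ⟨x, m, hm, hxm⟩ := hclear w
    have hm' : (m : k) ≠ 0 := by exact_mod_cast hm
    have e1 : j (MvPolynomial.C m) = (m : k) := by
      show (MvPolynomial.aeval ((↑) : s → k) : MvPolynomial s ℚ →ₐ[ℚ] k)
        (MvPolynomial.map (Int.castRingHom ℚ) (MvPolynomial.C m)) = _
      rw [MvPolynomial.map_C, MvPolynomial.aeval_C]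
      simp
    refine ⟨x, MvPolynomial.C m, by rw [e1]; exact hm', ?_⟩
    rw [e1, eq_div_iff hm']
    have h3 := congrArg (MvPolynomial.aeval ((↑) : s → k) : MvPolynomial s ℚ →ₐ[ℚ] k) hxm
    rw [map_mul, MvPolynomial.aeval_C] at h3
    have h4 : algebraMap ℚ k (m : ℚ) = (m : k) := by simp
    rw [h4, mul_comm] at h3
    exact h3
  letI : Algebra (MvPolynomial s ℤ) K0 := (j.codRestrict _ hjr).toAlgebra
  haveI := hfr
  letI i1 : Algebra (MvPolynomial s ℤ) k' := ((algebraMap k k').comp j).toAlgebra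
  haveI : IsScalarTower K0 k k' := inferInstance
  haveI : IsScalarTower (MvPolynomial s ℤ) K0 k' := IsScalarTower.of_algebraMap_eq fun x => rfl
  haveI : Algebra.IsAlgebraic K0 k := hsep.isAlgebraic
  haveI : Algebra.EssFiniteType K0 k := essFT A k K0
  haveI : FiniteDimensional K0 k := finiteDimensional_of_fg K0 k
  haveI : FiniteDimensional K0 k' := FiniteDimensional.trans K0 k k'
  haveI : Algebra.IsSeparable K0 k' := Algebra.IsSeparable.trans K0 k k'
  have hE0 : ∀ e ∈ unitSet S ζ (∅ : Finset k'), e ≠ 0 := fun e he => (Finset.mem_filter.1 he).2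
  obtain ⟨P, hP, hPc, c, hc, σ, -, hE⟩ := comb (B := ℤ) (τ := s) K0 (fun P => P.natAbs)
    (fun P hP => cpl_int P hP) (unitSet S ζ (∅ : Finset k')) hE0 ((N.factorial : ℕ) : ℤ)
    (by exact_mod_cast N.factorial_ne_zero)
  have hζ1 : ζ ≠ 0 := hζ.ne_zero hℓ.ne_zero
  have hζ2 : 1 - ζ ≠ 0 := sub_ne_zero.2 (hζ.ne_one hℓ.one_lt).symm
  obtain ⟨Q, hQ⟩ := pt_ofE (A := A) c σ S hS (fun a ha h0 => hE _ (by
      rw [unitSet, Finset.mem_filter, Finset.mem_union, Finset.mem_union]
      exact ⟨Or.inl (Or.inl (Finset.mem_image_of_mem _ ha)),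
        (map_ne_zero_iff _ (IsFractionRing.injective A' k')).2 h0⟩))
    hℓ hζ.pow_eq_one (hE _ (by
      rw [unitSet, Finset.mem_filter, Finset.mem_union, Finset.mem_union]
      exact ⟨Or.inl (Or.inr (by simp)), hζ1⟩))
    (hE _ (by
      rw [unitSet, Finset.mem_filter, Finset.mem_union, Finset.mem_union]
      exact ⟨Or.inl (Or.inr (by simp)), hζ2⟩))
    ∅ (by
      rw [eq_top_iff]
      intro x _
      rw [← Int.cast_id (n := x)]
      exact intCast_mem _ x) (fun g hg => absurd hg (Set.notMem_empty g))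
  refine ⟨Q, ?_, fun _ => by rw [← hQ, hc]; exact Int.prime_iff_natAbs_prime.1 hP⟩
  rw [← hQ, hc]
  by_contra hlt
  push Not at hlt
  apply hPc
  have h1 : P.natAbs ∣ N.factorial :=
    Nat.dvd_factorial (Int.prime_iff_natAbs_prime.1 hP).pos hlt.le
  rw [← Int.natAbs_dvd]
  exact_mod_cast h1

variable (A A' k k') in
theorem richE_p [Infinite A] {p : ℕ} [hp : Fact p.Prime] [CharP k p] {ℓ : ℕ}
    (hℓ : ℓ.Prime) {ζ : k'} (hζ : IsPrimitiveRoot ζ ℓ) : RichE A A' ℓ := by
  intro N
  obtain ⟨S, hS⟩ := Algebra.FiniteType.out (R := ℤ) (A := A')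
  letI : Algebra (ZMod p) k := ZMod.algebra k p
  haveI : Algebra.EssFiniteType (ZMod p) k := essFT A k (ZMod p)
  obtain ⟨s, hs, hsep⟩ := exists_isTranscendenceBasis_and_isSeparable_of_perfectField (ZMod p) k
  set K0 := IntermediateField.adjoin (ZMod p) (s : Set k) with hK0
  have hx : AlgebraicIndependent (ZMod p) ((↑) : s → k) := hs.1
  haveI : Algebra.IsAlgebraic K0 k := hsep.isAlgebraic
  haveI : Algebra.EssFiniteType K0 k := essFT A k K0
  haveI : FiniteDimensional K0 k := finiteDimensional_of_fg K0 k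
  have hsne : s.Nonempty := by
    rw [Finset.nonempty_iff_ne_empty]
    intro h0
    have h1 : K0 = ⊥ := by
      rw [hK0, h0, Finset.coe_empty, IntermediateField.adjoin_empty]
    have h2 : Finite K0 := by
      rw [h1]
      exact Finite.of_surjective (fun a : ZMod p => (⟨algebraMap (ZMod p) k a,
        IntermediateField.algebraMap_mem _ a⟩ : (⊥ : IntermediateField (ZMod p) k))) (by
          rintro ⟨x, hx⟩
          obtain ⟨a, rfl⟩ := IntermediateField.mem_bot.1 hx
          exact ⟨a, rfl⟩)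
    have h3 : Finite k := Module.finite_of_finite K0
    have h4 : Finite A := Finite.of_injective _ (IsFractionRing.injective A k)
    exact not_finite A
  obtain ⟨s1', hs1'⟩ := hsne
  let s1 : s := ⟨s1', hs1'⟩
  obtain ⟨j, hj, hj1, hja, hjs⟩ := split_basis s hx s1
  have hjr : ∀ x, j x ∈ K0 := fun x => IntermediateField.algebra_adjoin_le_adjoin _ _ (hja x)
  haveI hfr : letI : Algebra (MvPolynomial {i : s // i ≠ s1} (ZMod p)[X]) K0 :=
        (j.codRestrict _ hjr).toAlgebra
      IsFractionRing (MvPolynomial {i : s // i ≠ s1} (ZMod p)[X]) K0 := by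
    refine isFractionRing_adjoin (κ0 := ZMod p) (s : Set k) j hj hjr ?_
    intro z hz
    obtain ⟨x, hx⟩ := hjs z hz
    refine ⟨x, 1, by rw [map_one]; exact one_ne_zero, ?_⟩
    rw [map_one, div_one, hx]
  letI : Algebra (MvPolynomial {i : s // i ≠ s1} (ZMod p)[X]) K0 := (j.codRestrict _ hjr).toAlgebra
  haveI := hfr
  letI i1 : Algebra (MvPolynomial {i : s // i ≠ s1} (ZMod p)[X]) k' :=
    ((algebraMap k k').comp j).toAlgebra
  haveI : IsScalarTower K0 k k' := inferInstance
  haveI : IsScalarTower (MvPolynomial {i : s // i ≠ s1} (ZMod p)[X]) K0 k' :=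
    IsScalarTower.of_algebraMap_eq fun x => rfl
  haveI : FiniteDimensional K0 k' := FiniteDimensional.trans K0 k k'
  haveI : Algebra.IsSeparable K0 k' := Algebra.IsSeparable.trans K0 k k'
  have hAk' : ∀ a : A, algebraMap A' k' (algebraMap A A' a) = algebraMap k k' (algebraMap A k a) := by
    intro a
    rw [← IsScalarTower.algebraMap_apply, ← IsScalarTower.algebraMap_apply]
  -- the element `s1` as a quotient
  obtain ⟨a1, b1, hb1, hab⟩ : ∃ a b : A, b ≠ 0 ∧ (s1 : k) = algebraMap A k a / algebraMap A k b := by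
    obtain ⟨a, b, hb, h⟩ := IsFractionRing.div_surjective (A := A) (s1 : k)
    exact ⟨a, b, nonZeroDivisors.ne_zero hb, h.symm⟩
  have hb1k : algebraMap A k b1 ≠ 0 := (map_ne_zero_iff _ (IsFractionRing.injective A k)).2 hb1
  have hb1k' : algebraMap k k' (algebraMap A k b1) ≠ 0 := (_root_.map_ne_zero _).2 hb1k
  have hE0 : ∀ e ∈ unitSet S ζ ({algebraMap k k' (algebraMap A k b1)} : Finset k'), e ≠ 0 :=
    fun e he => (Finset.mem_filter.1 he).2
  have hc0 : (X ^ p ^ N.factorial - X : (ZMod p)[X]) ≠ 0 :=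
    FiniteField.X_pow_card_pow_sub_X_ne_zero _ N.factorial_ne_zero hp.out.one_lt
  obtain ⟨P, hP, hPc, c, hc, σ, hσ, hE⟩ := comb (B := (ZMod p)[X]) (τ := {i : s // i ≠ s1}) K0
    (fun P => p ^ P.natDegree)
    (fun P hP => by
      obtain ⟨c, hc, -⟩ := cpl_poly P hP
      exact ⟨c, by rw [hc, Nat.card_zmod]⟩)
    (unitSet S ζ ({algebraMap k k' (algebraMap A k b1)} : Finset k')) hE0
    (X ^ p ^ N.factorial - X) hc0
  have hζ1 : ζ ≠ 0 := hζ.ne_zero hℓ.ne_zero
  have hζ2 : 1 - ζ ≠ 0 := sub_ne_zero.2 (hζ.ne_one hℓ.one_lt).symm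
  obtain ⟨Q, hQ⟩ := pt_ofE (A := A) c σ S hS (fun a ha h0 => hE _ (by
      rw [unitSet, Finset.mem_filter, Finset.mem_union, Finset.mem_union]
      exact ⟨Or.inl (Or.inl (Finset.mem_image_of_mem _ ha)),
        (map_ne_zero_iff _ (IsFractionRing.injective A' k')).2 h0⟩))
    hℓ hζ.pow_eq_one (hE _ (by
      rw [unitSet, Finset.mem_filter, Finset.mem_union, Finset.mem_union]
      exact ⟨Or.inl (Or.inr (by simp)), hζ1⟩))
    (hE _ (by
      rw [unitSet, Finset.mem_filter, Finset.mem_union, Finset.mem_union]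
      exact ⟨Or.inl (Or.inr (by simp)), hζ2⟩))
    {X} (closure_X p) (by
      rintro g hg
      rw [Set.mem_singleton_iff] at hg
      subst hg
      have hu : ∃ u : c.Oˣ, σ (algebraMap k k' (algebraMap A k b1)) =
          algebraMap c.O (FractionRing c.O) u :=
        hE _ (by
          rw [unitSet, Finset.mem_filter, Finset.mem_union, Finset.mem_union]
          exact ⟨Or.inr (Finset.mem_singleton_self _), hb1k'⟩)
      refine ⟨a1, b1, by rw [hAk']; exact hu, ?_⟩
      rw [← hσ, hAk', hAk', ← map_mul]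
      congr 1
      show algebraMap k k' (j (MvPolynomial.C X)) * _ = _
      rw [hj1, hab, ← map_mul, div_mul_cancel₀ _ hb1k])
  refine ⟨Q, ?_, fun hA0 => ?_⟩
  swap
  · exfalso
    have h1 : algebraMap A k (p : A) = 0 := by rw [map_natCast, CharP.cast_eq_zero]
    have h2 : (p : A) = 0 := by
      apply IsFractionRing.injective A k
      rw [h1, map_zero]
    exact hp.out.ne_zero (Nat.cast_eq_zero.1 h2)
  rw [← hQ, hc]
  by_contra hlt
  push Not at hlt
  apply hPc
  have h2 : P.natDegree < p ^ P.natDegree := Nat.lt_pow_self hp.out.one_lt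
  have h3 : 0 < P.natDegree := hP.irreducible.natDegree_pos
  have h1 : P.natDegree ∣ N.factorial := Nat.dvd_factorial h3 (h2.trans hlt).le
  have h4 := (hP.irreducible.natDegree_dvd_iff_dvd_X_pow_card_pow_sub_X).1 h1
  rwa [Nat.card_zmod] at h4

variable (A A' k k') in
include k in
/-- **Pairs of finitely generated domains are rich.** -/
theorem richE [Infinite A] {ℓ : ℕ} (hℓ : ℓ.Prime) {ζ : k'} (hζ : IsPrimitiveRoot ζ ℓ) :
    RichE A A' ℓ := by
  rcases CharP.exists' k with h | ⟨p, hp, hpk⟩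
  · exact richE_zero A A' k k' hℓ hζ
  · haveI := hp
    haveI := hpk
    exact richE_p A A' k k' (p := p) hℓ hζ

end ext

end Pool.Agent.L5helper72.SG
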