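import Pool.Agent.L5helper72.SG.Rch

/-!
# Finitely generated rings are rich: positive characteristic
-/

set_option autoImplicit false
set_option linter.all false

open scoped Classical

namespace Pool.Agent.L5helper72.SG

open Polynomial Pool.Agent.R431.SG

instance countable_poly (R : Type) [CommRing R] [Countable R] : Countable R[X] := by
  have h2 : Function.Injective (fun q : R[X] =>
      (⟨q.natDegree, fun i => q.coeff i⟩ : Σ n : ℕ, (Fin (n + 1) → R))) := by
    intro q r hqr
    have h3 : q.natDegree = r.natDegree := congrArg Sigma.fst hqr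
    ext n
    by_cases hn : n ≤ q.natDegree
    · have h4 : ∀ (a b : Σ n : ℕ, (Fin (n + 1) → R)), a = b → ∀ (h : n ≤ a.1) (h' : n ≤ b.1),
          a.2 ⟨n, Nat.lt_succ_of_le h⟩ = b.2 ⟨n, Nat.lt_succ_of_le h'⟩ := by
        rintro a _ rfl h h'
        rfl
      have h5 : n ≤ r.natDegree := h3 ▸ hn
      exact h4 _ _ hqr hn h5
    · rw [coeff_eq_zero_of_natDegree_lt (not_le.1 hn),
        coeff_eq_zero_of_natDegree_lt (h3 ▸ not_le.1 hn)]
  exact h2.countable

instance finite_units (κ : Type) [Field κ] [Finite κ] : Finite κ[X]ˣ := by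
  refine Finite.of_injective (β := κ) (fun u => (u : κ[X]).coeff 0) ?_
  intro u v huv
  have h1 : ∀ w : κ[X]ˣ, (w : κ[X]) = C ((w : κ[X]).coeff 0) := by
    intro w
    exact eq_C_of_natDegree_eq_zero (natDegree_eq_zero_of_isUnit w.isUnit)
  have h2 : (u : κ[X]).coeff 0 = (v : κ[X]).coeff 0 := huv
  apply Units.ext
  rw [h1 u, h1 v, h2]

theorem split_basis {κ0 k : Type} [Field κ0] [Field k] [Algebra κ0 k] (s : Finset k)
    (hx : AlgebraicIndependent κ0 ((↑) : s → k)) (s1 : s) :
    ∃ j : MvPolynomial {i : s // i ≠ s1} κ0[X] →+* k, Function.Injective j ∧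
      j (MvPolynomial.C X) = (s1 : k) ∧
      (∀ x, j x ∈ Algebra.adjoin κ0 (s : Set k)) ∧
      ∀ z ∈ Algebra.adjoin κ0 (s : Set k), ∃ x, z = j x := by
  let e1 : MvPolynomial {i : s // i ≠ s1} κ0[X] ≃ₐ[κ0] MvPolynomial (Option {i : s // i ≠ s1}) κ0 :=
    (MvPolynomial.optionEquivRight κ0 {i : s // i ≠ s1}).symm
  let e2 : MvPolynomial (Option {i : s // i ≠ s1}) κ0 ≃ₐ[κ0] MvPolynomial s κ0 :=
    MvPolynomial.renameEquiv κ0 (Equiv.optionSubtypeNe s1)
  let ev : MvPolynomial s κ0 →ₐ[κ0] k := MvPolynomial.aeval ((↑) : s → k)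
  let e := e1.trans e2
  have hev : Function.Injective ev := hx
  have hr : Set.range ((↑) : s → k) = (s : Set k) := Subtype.range_coe
  refine ⟨ev.toRingHom.comp e.toAlgHom.toRingHom, ?_, ?_, ?_, ?_⟩
  · intro x y h
    exact e.injective (hev h)
  · show ev (e2 (e1 (MvPolynomial.C X))) = _
    have h1 : e1 (MvPolynomial.C X) = MvPolynomial.X none := by
      rw [AlgEquiv.symm_apply_eq, MvPolynomial.optionEquivRight_X_none]
    rw [h1]
    simp [e2, ev]
  · intro x
    rw [← hr, Algebra.adjoin_range_eq_range_aeval]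
    exact ⟨e x, rfl⟩
  · intro z hz
    rw [← hr, Algebra.adjoin_range_eq_range_aeval] at hz
    obtain ⟨w, rfl⟩ := hz
    refine ⟨e.symm w, ?_⟩
    show ev w = ev (e (e.symm w))
    rw [AlgEquiv.apply_symm_apply]

theorem closure_X (p : ℕ) [Fact p.Prime] : Subring.closure ({X} : Set (ZMod p)[X]) = ⊤ := by
  rw [eq_top_iff]
  intro x _
  have hX : (X : (ZMod p)[X]) ∈ Subring.closure ({X} : Set (ZMod p)[X]) :=
    Subring.subset_closure rfl
  induction x using Polynomial.induction_on' with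
  | add q r hq hr => exact add_mem (hq trivial) (hr trivial)
  | monomial n a =>
    rw [← C_mul_X_pow_eq_monomial]
    refine mul_mem ?_ (pow_mem hX _)
    obtain ⟨m, rfl⟩ := ZMod.natCast_zmod_surjective a
    rw [C_eq_natCast]
    exact natCast_mem _ m

theorem rich_p {A k : Type} [CommRing A] [IsDomain A] [Infinite A] [Algebra.FiniteType ℤ A]
    [Field k] {p : ℕ} [hp : Fact p.Prime] [CharP k p] [Algebra A k] [IsFractionRing A k] {ℓ : ℕ}
    (hℓ : ℓ.Prime) {ζ : k} (hζ : IsPrimitiveRoot ζ ℓ) : Rich A ℓ := by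
  intro N
  obtain ⟨S, hS⟩ := Algebra.FiniteType.out (R := ℤ) (A := A)
  letI : Algebra (ZMod p) k := ZMod.algebra k p
  haveI : Algebra.EssFiniteType (ZMod p) k := essFT A k (ZMod p)
  obtain ⟨s, hs, hsep⟩ := exists_isTranscendenceBasis_and_isSeparable_of_perfectField (ZMod p) k
  set K0 := IntermediateField.adjoin (ZMod p) (s : Set k) with hK0
  have hx : AlgebraicIndependent (ZMod p) ((↑) : s → k) := hs.1
  haveI : Algebra.IsAlgebraic K0 k := hsep.isAlgebraic
  haveI : Algebra.EssFiniteType K0 k := essFT A k K0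
  haveI : FiniteDimensional K0 k := finiteDimensional_of_fg K0 k
  have hsne : s.Nonempty := by
    rw [Finset.nonempty_iff_ne_empty]
    intro h0
    have h1 : K0 = ⊥ := by
      rw [hK0, h0, Finset.coe_empty, IntermediateField.adjoin_empty]
    have h2 : Finite K0 := by
      rw [h1]
      exact Finite.of_surjective (fun a : ZMod p => (⟨algebraMap (ZMod p) k a,
        IntermediateField.algebraMap_mem _ a⟩ : (⊥ : IntermediateField (ZMod p) k))) (by
          rintro ⟨x, hx⟩
          obtain ⟨a, rfl⟩ := IntermediateField.mem_bot.1 hx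
          exact ⟨a, rfl⟩)
    have h3 : Finite k := Module.finite_of_finite K0
    have h4 : Finite A := Finite.of_injective _ (IsFractionRing.injective A k)
    exact not_finite A
  obtain ⟨s1', hs1'⟩ := hsne
  let s1 : s := ⟨s1', hs1'⟩
  obtain ⟨j, hj, hj1, hja, hjs⟩ := split_basis s hx s1
  have hjr : ∀ x, j x ∈ K0 := fun x => IntermediateField.algebra_adjoin_le_adjoin _ _ (hja x)
  haveI hfr : letI : Algebra (MvPolynomial {i : s // i ≠ s1} (ZMod p)[X]) K0 :=
        (j.codRestrict _ hjr).toAlgebra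
      IsFractionRing (MvPolynomial {i : s // i ≠ s1} (ZMod p)[X]) K0 := by
    refine isFractionRing_adjoin (κ0 := ZMod p) (s : Set k) j hj hjr ?_
    intro z hz
    obtain ⟨x, hx⟩ := hjs z hz
    refine ⟨x, 1, by rw [map_one]; exact one_ne_zero, ?_⟩
    rw [map_one, div_one, hx]
  letI : Algebra (MvPolynomial {i : s // i ≠ s1} (ZMod p)[X]) K0 := (j.codRestrict _ hjr).toAlgebra
  haveI := hfr
  letI : Algebra (MvPolynomial {i : s // i ≠ s1} (ZMod p)[X]) k := j.toAlgebra
  haveI : IsScalarTower (MvPolynomial {i : s // i ≠ s1} (ZMod p)[X]) K0 k :=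
    IsScalarTower.of_algebraMap_eq fun x => rfl
  -- the element `s1` as a quotient
  obtain ⟨a1, b1, hb1, hab⟩ : ∃ a b : A, b ≠ 0 ∧ (s1 : k) = algebraMap A k a / algebraMap A k b := by
    obtain ⟨a, b, hb, h⟩ := IsFractionRing.div_surjective (A := A) (s1 : k)
    exact ⟨a, b, nonZeroDivisors.ne_zero hb, h.symm⟩
  have hb1k : algebraMap A k b1 ≠ 0 := (map_ne_zero_iff _ (IsFractionRing.injective A k)).2 hb1
  have hE0 : ∀ e ∈ unitSet S ζ ({algebraMap A k b1} : Finset k), e ≠ 0 :=
    fun e he => (Finset.mem_filter.1 he).2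
  have hc0 : (X ^ p ^ N.factorial - X : (ZMod p)[X]) ≠ 0 :=
    FiniteField.X_pow_card_pow_sub_X_ne_zero _ N.factorial_ne_zero hp.out.one_lt
  obtain ⟨P, hP, hPc, c, hc, σ, hσ, hE⟩ := comb (B := (ZMod p)[X]) (τ := {i : s // i ≠ s1}) K0
    (fun P => p ^ P.natDegree)
    (fun P hP => by
      obtain ⟨c, hc, -⟩ := cpl_poly P hP
      exact ⟨c, by rw [hc, Nat.card_zmod]⟩)
    (unitSet S ζ ({algebraMap A k b1} : Finset k)) hE0 (X ^ p ^ N.factorial - X) hc0
  have hζ1 : ζ ≠ 0 := hζ.ne_zero hℓ.ne_zero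
  have hζ2 : 1 - ζ ≠ 0 := sub_ne_zero.2 (hζ.ne_one hℓ.one_lt).symm
  obtain ⟨Q, hQ⟩ := pt_of c σ S hS (fun a ha h0 => hE _ (by
      rw [unitSet, Finset.mem_filter, Finset.mem_union, Finset.mem_union]
      exact ⟨Or.inl (Or.inl (Finset.mem_image_of_mem _ ha)),
        (map_ne_zero_iff _ (IsFractionRing.injective A k)).2 h0⟩))
    hℓ hζ.pow_eq_one (hE _ (by
      rw [unitSet, Finset.mem_filter, Finset.mem_union, Finset.mem_union]
      exact ⟨Or.inl (Or.inr (by simp)), hζ1⟩))
    (hE _ (by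
      rw [unitSet, Finset.mem_filter, Finset.mem_union, Finset.mem_union]
      exact ⟨Or.inl (Or.inr (by simp)), hζ2⟩))
    {X} (closure_X p) (by
      rintro g hg
      rw [Set.mem_singleton_iff] at hg
      subst hg
      have hu : ∃ u : c.Oˣ, σ (algebraMap A k b1) = algebraMap c.O (FractionRing c.O) u :=
        hE _ (by
          rw [unitSet, Finset.mem_filter, Finset.mem_union, Finset.mem_union]
          exact ⟨Or.inr (Finset.mem_singleton_self _), hb1k⟩)
      refine ⟨a1, b1, hu, ?_⟩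
      rw [← hσ, ← map_mul]
      congr 1
      show j (MvPolynomial.C X) * _ = _
      rw [hj1, hab, div_mul_cancel₀ _ hb1k])
  refine ⟨Q, ?_, fun hA0 => ?_⟩
  swap
  · exfalso
    have h1 : algebraMap A k (p : A) = 0 := by rw [map_natCast, CharP.cast_eq_zero]
    have h2 : (p : A) = 0 := by
      apply IsFractionRing.injective A k
      rw [h1, map_zero]
    exact hp.out.ne_zero (Nat.cast_eq_zero.1 h2)
  rw [← hQ, hc]
  by_contra hlt
  push Not at hlt
  apply hPc
  have h2 : P.natDegree < p ^ P.natDegree := Nat.lt_pow_self hp.out.one_lt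
  have h3 : 0 < P.natDegree := hP.irreducible.natDegree_pos
  have h1 : P.natDegree ∣ N.factorial := Nat.dvd_factorial h3 (h2.trans hlt).le
  have h4 := (hP.irreducible.natDegree_dvd_iff_dvd_X_pow_card_pow_sub_X).1 h1
  rwa [Nat.card_zmod] at h4

/-- **An infinite domain which is finitely generated as a ring is rich.** -/
theorem rich {A k : Type} [CommRing A] [IsDomain A] [Infinite A] [Algebra.FiniteType ℤ A]
    [Field k] [Algebra A k] [IsFractionRing A k] {ℓ : ℕ}
    (hℓ : ℓ.Prime) {ζ : k} (hζ : IsPrimitiveRoot ζ ℓ) : Rich A ℓ := by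
  rcases CharP.exists' k with h | ⟨p, hp, hpk⟩
  · exact rich_zero hℓ hζ
  · haveI := hp
    haveI := hpk
    exact rich_p (p := p) hℓ hζ

end Pool.Agent.L5helper72.SG
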